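import Pool.Agent.Lib.Pa7c826t.ApproxT

/-!
Definitions for the algorithm for regular bipartite expanders.
-/

namespace Pool.Agent.Lib.Pa7c826e

open Finset Pool.Agent.Lib.Pa7c826 Pool.Agent.Lib.Pa7c826t

/-- adjacency seen from the side `sd` only (`sd = true`: the vertices below `a`) -/
def adS (a : ℕ) (sd : Bool) (adj : ℕ → ℕ → Bool) (u v : ℕ) : Bool :=
  (decide (u < a) == sd) && adj u v

/-- the vertices below `n` with a neighbour in `X` -/
def NB (n : ℕ) (adj : ℕ → ℕ → Bool) (X : Finset ℕ) : Finset ℕ :=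
  (range n).filter (fun v => ∃ u ∈ X, adj u v = true)

/-- the part of `S` on the side `sd` -/
def sideS (a : ℕ) (sd : Bool) (S : Finset ℕ) : Finset ℕ := S.filter (fun v => decide (v < a) = sd)

/-- The host graph: `d`-regular bipartite on `n = 2 a` vertices, and
`d |N(X)| ≥ (d + A) |X|` for all sets `X` that contain at most half of the vertices of a side. -/
structure XHost (n a d A : ℕ) (adj : ℕ → ℕ → Bool) : Prop where
  hn : n = 2 * a
  sym : ∀ u v, adj u v = adj v u
  irr : ∀ u, adj u u = false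
  lt : ∀ u v, adj u v = true → u < n
  bip : ∀ u v, adj u v = true → (u < a ↔ ¬ v < a)
  reg : ∀ v < n, dg adj (range n) v = d
  hd : 1 ≤ d
  hA : A ≤ 2 * d
  exp : ∀ (sd : Bool) (X : Finset ℕ), X ⊆ sideS a sd (range n) → 2 * X.card ≤ a →
    (d + A) * X.card ≤ d * (NB n adj X).card

/-- the independent subsets of `S` -/
def IS (adj : ℕ → ℕ → Bool) (S : Finset ℕ) : Finset (Finset ℕ) :=
  S.powerset.filter (fun I => ∀ u ∈ I, ∀ v ∈ I, adj u v = false)

theorem card_IS (adj : ℕ → ℕ → Bool) (S : Finset ℕ) : (IS adj S).card = ind adj S := rfl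

theorem mem_IS {adj : ℕ → ℕ → Bool} {S I : Finset ℕ} :
    I ∈ IS adj S ↔ I ⊆ S ∧ ∀ u ∈ I, ∀ v ∈ I, adj u v = false := by
  unfold IS
  rw [mem_filter, mem_powerset]

/-! ### The branching tree with the sets of included vertices -/

/-- nodes: the remaining vertices and the included vertices -/
abbrev Nd : Type := Finset ℕ × Finset ℕ

section

variable (n m g : ℕ) (ad : ℕ → ℕ → Bool)

/-- the set that consists of the chosen vertex -/
def chsS (S : Finset ℕ) : Finset ℕ := S.filter (fun v => chs m g ad S v = true)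

/-- the children of a node -/
def kidT (x : Nd) : List Nd :=
  if anyH n m g ad x.1 then
    [(outT m g ad x.1, x.2), (inT n m g ad x.1, x.2 ∪ chsS m g ad x.1)] else [x]

/-- the tree below the node `x`, level by level -/
def lvT (x : Nd) : ℕ → List Nd
  | 0 => [x]
  | t + 1 => (lvT x t).flatMap (kidT n m g ad)

/-- the child that contains the set `I` -/
def stp (I : Finset ℕ) (x : Nd) : Nd :=
  if anyH n m g ad x.1 then
    (if chsS m g ad x.1 ⊆ I then (inT n m g ad x.1, x.2 ∪ chsS m g ad x.1)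
      else (outT m g ad x.1, x.2)) else x

/-- the path that follows the set `I` -/
def trk (I : Finset ℕ) (x : Nd) : ℕ → Nd
  | 0 => x
  | t + 1 => stp n m g ad I (trk I x t)

/-- the tree may be used to count the independent sets with respect to `adj` -/
def Cmp (adj : ℕ → ℕ → Bool) : Prop :=
  ∀ S : Finset ℕ, ∀ v, chs m g ad S v = true → ∀ u, ad v u = adj v u

/-- the pruned levels below a list of nodes -/
def itl (al : Finset ℕ → Bool) (l : List (Finset ℕ)) : ℕ → List (Finset ℕ)
  | 0 => l
  | t + 1 => ((itl al l t).flatMap (kids n m g ad)).filter al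

end

/-! ### The algorithm -/

/-- `a - α(S)`, where `α(S) = |S| - nu S` is the independence number -/
def dfc (n a : ℕ) (adj : ℕ → ℕ → Bool) (S : Finset ℕ) : ℕ := (nu n a adj S + a) - S.card

/-- `S` is alive -/
def alE (n a : ℕ) (adj : ℕ → ℕ → Bool) (E : ℕ) (S : Finset ℕ) : Bool :=
  decide (dfc n a adj S ≤ E)

/-- the levels of the first phase -/
def ph1L (n a d : ℕ) (adj : ℕ → ℕ → Bool) (E : ℕ) (sd : Bool) (t : ℕ) : List (Finset ℕ) :=
  itl n d 2 (adS a sd adj) (alE n a adj E) [range n] t

/-- the levels of the second phase -/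
def ph2L (n a d : ℕ) (adj : ℕ → ℕ → Bool) (E : ℕ) (sd : Bool) (t : ℕ) : List (Finset ℕ) :=
  itl n d 2 adj (alE n a adj E) (ph1L n a d adj E sd n) t

/-- the output for the side `sd` -/
def outE (n a d : ℕ) (adj : ℕ → ℕ → Bool) (E K' : ℕ) (sd : Bool) : ℕ :=
  ((ph2L n a d adj E sd n).map (leaf n adj K')).sum

/-- the leaf of the first phase that contains `I` -/
def x1 (n a d : ℕ) (adj : ℕ → ℕ → Bool) (sd : Bool) (I : Finset ℕ) : Nd :=
  trk n d 2 (adS a sd adj) I (range n, ∅) n

/-- the leaf of the second phase that contains `I` -/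
def x2 (n a d : ℕ) (adj : ℕ → ℕ → Bool) (sd : Bool) (I : Finset ℕ) : Nd :=
  trk n d 2 adj I (x1 n a d adj sd I) n

/-- the leaves of the first phase -/
abbrev lv1 (n a d : ℕ) (adj : ℕ → ℕ → Bool) (sd : Bool) : List Nd :=
  lvT n d 2 (adS a sd adj) (range n, ∅) n

/-- the number of vertices removed as neighbours of included vertices -/
def wE (n : ℕ) (adj : ℕ → ℕ → Bool) (x : Nd) : ℕ := (NB n adj x.2).card

end Pool.Agent.Lib.Pa7c826e
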