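import Pool.Agent.Lib.Pa7c826t.AlgT
import Pool.Agent.Lib.Pa7c826e.EDef

/-!
The algorithm for regular bipartite expanders as a function of the input string.
-/

namespace Pool.Agent.Lib.Pa7c826e

open Pool.Agent.Lib.PolyTime Pool.Agent.Lib.Pa7c826 Pool.Agent.Lib.Pa7c826t Finset

/-- the degree of the vertex `0` -/
def dOf (w : List Bool) : ℕ := dg (adjOf w) (range (nOf w)) 0

/-- `2 ^ lyOf w` is between `8 t` and `16 t` -/
def lyOf (w : List Bool) : ℕ := Nat.log 2 (tOf w) + 4

/-- bound for the deficiency of nodes that are alive -/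
def EOf (w : List Bool) : ℕ := 48 * lyOf w

/-- leaf threshold -/
def KOf (w : List Bool) : ℕ := (16 * tOf w) ^ 3456

/-- the branching threshold for dense graphs is `n / gI` -/
def gI (w : List Bool) : ℕ := 768 * lyOf w

/-- precision for dense graphs -/
def YI (w : List Bool) : ℕ := tOf w * (16 * tOf w) ^ 4416

/-- leaf threshold for dense graphs -/
def KI (w : List Bool) : ℕ := ((16 * tOf w) ^ 192 * YI w ^ 24) ^ 24

/-- whether the graph is sparse: `192 d ly ≤ a` -/
def spB (w : List Bool) : Bool := decide (192 * dOf w * lyOf w ≤ aOf w)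

/-- The algorithm: graphs without edges; sparse graphs; dense graphs. -/
def algE (w : List Bool) : ℕ :=
  if decide (dOf w = 0) = true then 2 ^ nOf w
  else if spB w = true then
    outE (nOf w) (aOf w) (dOf w) (adjOf w) (EOf w) (KOf w) true +
      outE (nOf w) (aOf w) (dOf w) (adjOf w) (EOf w) (KOf w) false
  else outA (nOf w) (aOf w) (gI w) (adjOf w) (range (nOf w)) (YI w ^ 24) (KI w)

end Pool.Agent.Lib.Pa7c826e
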