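import Pool.Agent.Lib.Pa7c826e.ETreePoly
import Pool.Agent.Lib.Pa7c826e.EAlgDef

/-!
The running time of the algorithm.

PROOFS. `upoly_dOf`: `poly_dg` with `PolyS.range` and the constant `0`. `upoly_lyOf`: as
`upoly_log` in `Pa7c826t/AlgT.lean` (`log_eq_card` and `PolyN.count`), with `tOf` for `nOf`. The
others: `PolyN.const`, `PolyN.mul`, `PolyN.pow`, `PolyN.add`. `upolyA_alE`:
`alE n a adj E S = decide ((nu + a) - |S| ≤ E)`: `poly_nu`, `PolyS.card`, `PolyN.sub`, `PolyB.le`.
`algE_poly`: `PolyBin.ite` twice. First case: `PolyBin.pow2`. Second case: `PolyBin.add` of the two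
sides; for each side `poly_itl` for the first phase (initial list `[range n]`,
`codeL n [range n] = true :: msk n (range n)`, `PolyS.range`, `PolyC.cons`) and again for the second
phase (initial list `ph1L … n`, with `upolyE_adj`), then `poly_sum_codeL`
(`Pa7c826t/SumPoly.lean`) with `poly_leaf` for `KOf`. Third case: `poly_plv` with
`m w = (range (nOf w)).card`, `g = gI`, `S₀ w = range (nOf w)` and
`al w = alive (nOf w) (aOf w) (adjOf w) (range (nOf w)) (YI w ^ 24)`, then `poly_sum_codeL` and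
`poly_leaf` for `KI`, exactly as `algT_poly` in `Pa7c826t/AlgT.lean`. The hypotheses `h1`, `h2` are
available in the branches because `PolyBin.ite` restricts the domain to the inputs on which the
test is true (false).
-/

namespace Pool.Agent.Lib.Pa7c826e

open Pool.Agent.Lib.PolyTime Pool.Agent.Lib.Pa7c826 Pool.Agent.Lib.Pa7c826t Finset

theorem upoly_dOf : UPoly dOf := by
  intro β D' ctx' w' hw
  exact poly_dg hw (PolyS.range (poly_nOf hw)) (PolyN.const 0)

theorem upoly_lyOf : UPoly lyOf := by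
  intro β D' ctx' w' hw
  have W := up (n := fun b => tOf (w' b)) hw
  have L := last (D := D') (ctx := ctx') (n := fun b => tOf (w' b))
  have h1 : PolyN D' ctx' (fun b => Nat.log 2 (tOf (w' b))) :=
    (PolyN.count (φ := fun p : β × ℕ => decide (1 ≤ tOf (w' p.1) / 2 ^ (p.2 + 1)))
      (poly_tOf hw) (PolyB.le (PolyN.const 1) (PolyN.divPow (poly_tOf W) L.succ))).congr
      (fun b _ => log_eq_card _)
  exact h1.add (PolyN.const 4)

theorem upoly_EOf : UPoly EOf := by
  intro β D' ctx' w' hw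
  exact (PolyN.const 48).mul (upoly_lyOf hw)

theorem upoly_KOf : UPoly KOf := by
  intro β D' ctx' w' hw
  exact PolyN.pow ((PolyN.const 16).mul (poly_tOf hw)) _

theorem upoly_gI : UPoly gI := by
  intro β D' ctx' w' hw
  exact (PolyN.const 768).mul (upoly_lyOf hw)

theorem upoly_YI : UPoly YI := by
  intro β D' ctx' w' hw
  exact (poly_tOf hw).mul (PolyN.pow ((PolyN.const 16).mul (poly_tOf hw)) _)

theorem upoly_KI : UPoly KI := by
  intro β D' ctx' w' hw
  exact PolyN.pow ((PolyN.pow ((PolyN.const 16).mul (poly_tOf hw)) _).mul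
    (PolyN.pow (upoly_YI hw) _)) _

theorem upolyA_alE : UPolyA (fun w => alE (nOf w) (aOf w) (adjOf w) (EOf w)) := by
  intro β D' ctx' w' S hw hS
  exact PolyB.le (PolyN.sub ((poly_nu hw hS).add (poly_aOf hw))
    (PolyS.card (poly_nOf hw) hS)) (upoly_EOf hw)

/-- constants are computable -/
theorem EAlgAux_const (k : ℕ) : UPoly (fun _ => k) := by
  intro β D' ctx' w' _
  exact PolyN.const k

/-- the vertex set -/
theorem EAlgAux_range : UPolyS (fun w => range (nOf w)) := by
  intro β D' ctx' w' hw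
  exact PolyS.range (poly_nOf hw)

theorem EAlgAux_card : UPoly (fun w => (range (nOf w)).card) := by
  intro β D' ctx' w' hw
  exact PolyS.card (poly_nOf hw) (EAlgAux_range hw)

theorem EAlgAux_alive :
    UPolyA (fun w => alive (nOf w) (aOf w) (adjOf w) (range (nOf w)) (YI w ^ 24)) := by
  intro β D' ctx' w' S hw hS
  have hn := poly_nOf hw
  have hS0 := EAlgAux_range hw
  have e1 := (poly_nu hw hS).add (PolyS.card hn hS0)
  have e2 := (poly_nu hw hS0).add (PolyS.card hn hS)
  exact PolyB.le (PolyN.const 1)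
    (PolyN.divPow (PolyN.pow (upoly_YI hw) 24) (PolyN.sub e1 e2))

theorem EAlgAux_leaf {K : List Bool → ℕ} (hK : UPoly K) :
    UPolyF (fun w S => leaf (nOf w) (adjOf w) (K w) S) := by
  intro β D' ctx' w' S hw hS
  exact poly_leaf hK hw hS

/-- one side of the sparse case -/
theorem EAlgAux_side (sd : Bool) {α : Type} {D : α → Prop} {ctx : List (α → List Bool)}
    {w : α → List Bool} (hw : PolyC D ctx w) {B : α → ℕ} (hB : PolyN D ctx B)
    (h1 : ∀ x, D x → ∀ j : ℕ, j ≤ nOf (w x) →
      (ph1L (nOf (w x)) (aOf (w x)) (dOf (w x)) (adjOf (w x)) (EOf (w x)) sd j).length ≤ B x ∧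
      (ph2L (nOf (w x)) (aOf (w x)) (dOf (w x)) (adjOf (w x)) (EOf (w x)) sd j).length ≤ B x) :
    PolyBin D ctx (fun x => outE (nOf (w x)) (aOf (w x)) (dOf (w x)) (adjOf (w x)) (EOf (w x))
      (KOf (w x)) sd) := by
  have hl0 : PolyC D ctx (fun x => codeL (nOf (w x)) [range (nOf (w x))]) :=
    (PolyC.cons true (PolyS.range (poly_nOf hw)).1).congr (fun x _ => by simp [codeL])
  have hsub0 : ∀ x, D x → ∀ S ∈ [range (nOf (w x))], S ⊆ range (nOf (w x)) := by
    intro x _ S hS
    rw [List.mem_singleton] at hS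
    rw [hS]
  have hp1 : PolyC D ctx (fun x => codeL (nOf (w x))
      (ph1L (nOf (w x)) (aOf (w x)) (dOf (w x)) (adjOf (w x)) (EOf (w x)) sd (nOf (w x)))) :=
    poly_itl (m := dOf) (g := fun _ => 2) (ad := fun w => adS (aOf w) sd (adjOf w))
      (al := fun w => alE (nOf w) (aOf w) (adjOf w) (EOf w)) upoly_dOf (EAlgAux_const 2)
      (upolyE_adS sd) upolyA_alE hw hl0 hsub0 (poly_nOf hw) hB (fun x hx j hj => (h1 x hx j hj).1)
  have hsub1 : ∀ x, D x → ∀ S ∈ ph1L (nOf (w x)) (aOf (w x)) (dOf (w x)) (adjOf (w x))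
      (EOf (w x)) sd (nOf (w x)), S ⊆ range (nOf (w x)) := by
    intro x hx
    exact itl_subset (hsub0 x hx) _
  have hp2 : PolyC D ctx (fun x => codeL (nOf (w x))
      (ph2L (nOf (w x)) (aOf (w x)) (dOf (w x)) (adjOf (w x)) (EOf (w x)) sd (nOf (w x)))) :=
    poly_itl (m := dOf) (g := fun _ => 2) (ad := adjOf)
      (al := fun w => alE (nOf w) (aOf w) (adjOf w) (EOf w)) upoly_dOf (EAlgAux_const 2)
      upolyE_adj upolyA_alE hw hp1 hsub1 (poly_nOf hw) hB (fun x hx j hj => (h1 x hx j hj).2)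
  exact poly_sum_codeL (F := fun w S => leaf (nOf w) (adjOf w) (KOf w) S)
    (EAlgAux_leaf upoly_KOf) hw hp2 (fun x hx => itl_subset (hsub1 x hx) _)

/-- the dense case -/
theorem EAlgAux_dense {α : Type} {D : α → Prop} {ctx : List (α → List Bool)}
    {w : α → List Bool} (hw : PolyC D ctx w) {B : α → ℕ} (hB : PolyN D ctx B)
    (h2 : ∀ x, D x → ∀ j, j ≤ nOf (w x) →
      (plv (nOf (w x)) (range (nOf (w x))).card (gI (w x)) (adjOf (w x))
        (alive (nOf (w x)) (aOf (w x)) (adjOf (w x)) (range (nOf (w x))) (YI (w x) ^ 24))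
        (range (nOf (w x))) j).length ≤ B x) :
    PolyBin D ctx (fun x => outA (nOf (w x)) (aOf (w x)) (gI (w x)) (adjOf (w x))
      (range (nOf (w x))) (YI (w x) ^ 24) (KI (w x))) := by
  have h1 := poly_plv (m := fun w => (range (nOf w)).card) (g := gI)
    (al := fun w => alive (nOf w) (aOf w) (adjOf w) (range (nOf w)) (YI w ^ 24))
    (S₀ := fun w => range (nOf w))
    EAlgAux_card upoly_gI EAlgAux_alive EAlgAux_range hw (poly_nOf hw) hB h2
  exact poly_sum_codeL (F := fun w S => leaf (nOf w) (adjOf w) (KI w) S)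
    (EAlgAux_leaf upoly_KI) hw h1 (fun x _ S hS => plv_subset _ S hS)

theorem EAlgAux_spB {α : Type} {D : α → Prop} {ctx : List (α → List Bool)}
    {w : α → List Bool} (hw : PolyC D ctx w) : PolyB D ctx (fun x => spB (w x)) :=
  PolyB.le (((PolyN.const 192).mul (upoly_dOf hw)).mul (upoly_lyOf hw)) (poly_aOf hw)

/-- The algorithm runs in polynomial time on all inputs on which the levels of the trees are
polynomially bounded. -/
theorem algE_poly {α : Type} {D : α → Prop} {ctx : List (α → List Bool)}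
    {w : α → List Bool} (hw : PolyC D ctx w) {B : α → ℕ} (hB : PolyN D ctx B)
    (h1 : ∀ x, D x → dOf (w x) ≠ 0 → spB (w x) = true → ∀ (sd : Bool) (j : ℕ), j ≤ nOf (w x) →
      (ph1L (nOf (w x)) (aOf (w x)) (dOf (w x)) (adjOf (w x)) (EOf (w x)) sd j).length ≤ B x ∧
      (ph2L (nOf (w x)) (aOf (w x)) (dOf (w x)) (adjOf (w x)) (EOf (w x)) sd j).length ≤ B x)
    (h2 : ∀ x, D x → dOf (w x) ≠ 0 → spB (w x) = false → ∀ j, j ≤ nOf (w x) →
      (plv (nOf (w x)) (range (nOf (w x))).card (gI (w x)) (adjOf (w x))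
        (alive (nOf (w x)) (aOf (w x)) (adjOf (w x)) (range (nOf (w x))) (YI (w x) ^ 24))
        (range (nOf (w x))) j).length ≤ B x) :
    PolyBin D ctx (fun x => algE (w x)) := by
  refine PolyBin.ite (φ := fun x => decide (dOf (w x) = 0))
    (PolyB.natEq (upoly_dOf hw) (PolyN.const 0))
    (PolyBin.mono (PolyBin.pow2 (poly_nOf hw)) (fun x h => h.1)) ?_
  have hw1 : PolyC (fun x => D x ∧ decide (dOf (w x) = 0) = false) ctx w :=
    PolyC.mono hw (fun x h => h.1)
  refine PolyBin.ite (φ := fun x => spB (w x)) (EAlgAux_spB hw1) ?_ ?_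
  · have hw2 : PolyC (fun x => (D x ∧ decide (dOf (w x) = 0) = false) ∧ spB (w x) = true) ctx w :=
      PolyC.mono hw1 (fun x h => h.1)
    have hB2 : PolyN (fun x => (D x ∧ decide (dOf (w x) = 0) = false) ∧ spB (w x) = true) ctx B :=
      PolyC.mono hB (fun x h => h.1.1)
    exact PolyBin.add
      (EAlgAux_side true hw2 hB2
        (fun x hx j hj => h1 x hx.1.1 (of_decide_eq_false hx.1.2) hx.2 true j hj))
      (EAlgAux_side false hw2 hB2
        (fun x hx j hj => h1 x hx.1.1 (of_decide_eq_false hx.1.2) hx.2 false j hj))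
  · have hw2 : PolyC (fun x => (D x ∧ decide (dOf (w x) = 0) = false) ∧ spB (w x) = false) ctx w :=
      PolyC.mono hw1 (fun x h => h.1)
    have hB2 : PolyN (fun x => (D x ∧ decide (dOf (w x) = 0) = false) ∧ spB (w x) = false) ctx B :=
      PolyC.mono hB (fun x h => h.1.1)
    exact EAlgAux_dense hw2 hB2
      (fun x hx j hj => h2 x hx.1.1 (of_decide_eq_false hx.1.2) hx.2 j hj)

end Pool.Agent.Lib.Pa7c826e
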