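import Pool.Agent.Lib.Pa7c826e.ELeaf

/-!
The second phase: leaves of large deficiency carry little weight.

PROOF of `ph2`. Put `κ = 33/32`, `lam = 1/32`. For a leaf `y` (level `n`, hence light by `lvw_light`:
`hvy d 2 adj y.1 v = false` means `2 dg adj y.1 v < d` for `v ∈ y.1`) with `q y.1` let
`e = dfc y.1`; `light_ind` gives `i(y) κ ^ (2 e) ≤ 2 ^ (a + H)`. As `κ ^ 24 ≥ 2` and
`24 (μ + 2 H + 5 G) ≤ e`: `M 2 ^ (2 H + 5 G) ≤ κ ^ e`, so
`M 2 ^ (2 H + 5 G) i(y) κ ^ e ≤ 2 ^ (a + H)`. Multiply by `κ ^ (a - e)` (`e ≤ a`), where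
`κ ^ (a - e) ≤ wind adj lam y.1` (`pow_le_wind` for the set `J` of `dfc_spec`), and use
`1 ≤ 32 ^ G lam ^ y.2` (`y.2 ≤ G`):
`M 2 ^ (2 H + 5 G) κ ^ a i(y) ≤ 2 ^ (a + H) 32 ^ G (lam ^ y.2 wind adj lam y.1)`. Sum over all
leaves (`dead_list` in `Pa7c826t/Dead.lean`, `sum_lvw`) and use `root_le`:
`M 2 ^ (2 H + 5 G) κ ^ a ∑ i(y) ≤ 2 ^ (a + H + 5 G) 2 ^ H κ ^ a`. Cancel.
(Compare `dead_weight` in `Pa7c826t/Dead.lean`, the same proof.)
`steps_gen`: `lvw_props` with `m = d`, `g = 2`. `steps_leaf`: induction on `t`; the chosen vertex `v`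
of a node `y` has `d ≤ 2 dg adj y.1 v ≤ 2 dg adj S v`, so it is not on the side `sd`; its
neighbours are on the side `sd` and `inT` removes those in `y.1` (at least `d / 2`).
-/

namespace Pool.Agent.Lib.Pa7c826e

open Finset Pool.Agent.Lib.Pa7c826 Pool.Agent.Lib.Pa7c826t

variable {n a d A : ℕ} {adj : ℕ → ℕ → Bool}

theorem EP2Aux_hvy {y : Finset ℕ} (h : ∀ v, hvy d 2 adj y v = false) :
    ∀ v ∈ y, 2 * dg adj y v ≤ d := by
  intro v hv
  have h1 := h v
  unfold hvy at h1
  simp only [Bool.and_eq_false_iff, decide_eq_false_iff_not, not_le] at h1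
  exact (h1.resolve_left (fun h => h hv)).le

theorem ph2 (hh : XHost n a d A adj) {sd : Bool} {S : Finset ℕ} {H G M μ : ℕ}
    (hS : S ⊆ range n) (hH : (sideS a sd S).card ≤ d * H)
    (hG : ∀ y ∈ lvw n d 2 adj S n, y.2 ≤ G) (q : Finset ℕ → Bool) (hM : M ≤ 2 ^ μ)
    (h : ∀ y ∈ lvw n d 2 adj S n, q y.1 = true →
      24 * (μ + 2 * H + 5 * G) ≤ dfc n a adj y.1) :
    M * ((((lvw n d 2 adj S n).map Prod.fst).filter q).map (ind adj)).sum ≤ 2 ^ a := by
  have hsum := sum_lvw (m := d) (g := 2) hh.sym hh.irr hS (1 / 32 : ℝ) n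
  have hroot := root_le hh hS hH
  set L := lvw n d 2 adj S n with hL
  have hnode : ∀ y ∈ L, q y.1 = true →
      ((M : ℝ) * 2 ^ (2 * H + 5 * G) * (33 / 32) ^ a) * (ind adj y.1 : ℝ) ≤
        (2 ^ (a + H) * 32 ^ G) * ((1 / 32 : ℝ) ^ y.2 * wind adj (1 / 32) y.1) := by
    intro y hy hq
    have hsub : y.1 ⊆ S := (lvw_props hS n y hy).1
    have hsubn : y.1 ⊆ range n := hsub.trans hS
    have hleaf := light_ind hh hS hH hsub (EP2Aux_hvy (lvw_light hS y hy))
    obtain ⟨_, J, hJ, hI, hJc⟩ := dfc_spec hh hsubn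
    have hwind := pow_le_wind (lam := (1 / 32 : ℝ)) (by norm_num) hJ hI
    have he := h y hy hq
    have hle := hG y hy
    set e := dfc n a adj y.1 with hed
    have h1 : (M : ℝ) * 2 ^ (2 * H + 5 * G) ≤ (33 / 32) ^ e := by
      calc (M : ℝ) * 2 ^ (2 * H + 5 * G) ≤ 2 ^ μ * 2 ^ (2 * H + 5 * G) := by
            gcongr
            exact_mod_cast hM
        _ = 2 ^ (μ + 2 * H + 5 * G) := by rw [← pow_add]; congr 1; ring
        _ ≤ ((33 / 32) ^ 24) ^ (μ + 2 * H + 5 * G) := pow_le_pow_left₀ (by norm_num) (by norm_num) _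
        _ = (33 / 32) ^ (24 * (μ + 2 * H + 5 * G)) := by rw [← pow_mul]
        _ ≤ (33 / 32) ^ e := pow_le_pow_right₀ (by norm_num) he
    have hi0 : (0 : ℝ) ≤ ind adj y.1 := Nat.cast_nonneg _
    have hw0 : 0 ≤ wind adj (1 / 32) y.1 := wind_nonneg adj (by norm_num) _
    have hg1 : (1 : ℝ) ≤ 32 ^ G * (1 / 32) ^ y.2 := by
      obtain ⟨c, hc⟩ := Nat.exists_eq_add_of_le hle
      rw [hc, pow_add, one_div, inv_pow, mul_right_comm, mul_inv_cancel₀ (by positivity), one_mul]
      exact one_le_pow₀ (by norm_num)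
    have hwind' : ((33 : ℝ) / 32) ^ J.card ≤ wind adj (1 / 32) y.1 := by
      have h2 : (1 : ℝ) + 1 / 32 = 33 / 32 := by norm_num
      rw [h2] at hwind
      exact hwind
    calc ((M : ℝ) * 2 ^ (2 * H + 5 * G) * (33 / 32) ^ a) * (ind adj y.1 : ℝ)
        = ((M : ℝ) * 2 ^ (2 * H + 5 * G)) * ((ind adj y.1 : ℝ) * (33 / 32) ^ e) *
            (33 / 32) ^ J.card := by
          rw [← hJc, pow_add]; ring
      _ ≤ (33 / 32) ^ e * ((ind adj y.1 : ℝ) * (33 / 32) ^ e) * (33 / 32) ^ J.card := by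
          gcongr
      _ = ((ind adj y.1 : ℝ) * (33 / 32) ^ (2 * e)) * (33 / 32) ^ J.card := by
          rw [two_mul, pow_add]; ring
      _ ≤ 2 ^ (a + H) * wind adj (1 / 32) y.1 := by
          apply mul_le_mul hleaf hwind' (by positivity) (by positivity)
      _ = 2 ^ (a + H) * (1 * wind adj (1 / 32) y.1) := by rw [one_mul]
      _ ≤ 2 ^ (a + H) * ((32 ^ G * (1 / 32) ^ y.2) * wind adj (1 / 32) y.1) := by
          gcongr
      _ = _ := by ring
  have hmain := dead_list L q (ind adj)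
    (fun x => (1 / 32 : ℝ) ^ x.2 * wind adj (1 / 32) x.1)
    (c := (M : ℝ) * 2 ^ (2 * H + 5 * G) * (33 / 32) ^ a) (K := 2 ^ (a + H) * 32 ^ G)
    (by positivity) (fun x _ => mul_nonneg (by positivity) (wind_nonneg adj (by norm_num) _)) hnode
  rw [hsum] at hmain
  set T : ℕ := (((L.map Prod.fst).filter q).map (ind adj)).sum with hT
  have hfin : (M : ℝ) * T ≤ 2 ^ a := by
    have h1 : ((M : ℝ) * T) * (2 ^ (2 * H + 5 * G) * (33 / 32) ^ a) ≤
        2 ^ a * (2 ^ (2 * H + 5 * G) * (33 / 32) ^ a) := by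
      calc ((M : ℝ) * T) * (2 ^ (2 * H + 5 * G) * (33 / 32) ^ a)
          = (M : ℝ) * 2 ^ (2 * H + 5 * G) * (33 / 32) ^ a * T := by ring
        _ ≤ 2 ^ (a + H) * 32 ^ G * wind adj (1 / 32) S := hmain
        _ ≤ 2 ^ (a + H) * 32 ^ G * (2 ^ H * (33 / 32) ^ a) := by gcongr
        _ = _ := by
            have e2 : (32 : ℝ) ^ G = 2 ^ (5 * G) := by rw [pow_mul]; norm_num
            rw [e2]
            ring
    exact le_of_mul_le_mul_right h1 (by positivity)
  exact_mod_cast hfin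

theorem steps_gen {S : Finset ℕ} (hS : S ⊆ range n) :
    ∀ y ∈ lvw n d 2 adj S n, d * y.2 ≤ 2 * S.card := by
  intro y hy
  have h := (lvw_props hS n y hy).2.1
  omega

theorem EP2Aux_side_mono {sd : Bool} {S T : Finset ℕ} (h : S ⊆ T) :
    (sideS a sd S).card ≤ (sideS a sd T).card :=
  card_le_card (filter_subset_filter _ h)

theorem EP2Aux_in (hh : XHost n a d A adj) {sd : Bool} {y : Finset ℕ} {v : ℕ} (hvn : v < n)
    (hv : chs d 2 adj y v = true) (hvs : ¬ decide (v < a) = sd) :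
    (sideS a sd (inT n d 2 adj y)).card + dg adj y v ≤ (sideS a sd y).card := by
  have h1 : Disjoint (sideS a sd (inT n d 2 adj y)) (y.filter (fun u => adj v u = true)) := by
    rw [Finset.disjoint_left]
    intro u hu hu2
    rw [inT_eq hvn hv] at hu
    unfold sideS at hu
    rw [mem_filter, mem_filter] at hu
    rw [mem_filter] at hu2
    rw [hu.1.2] at hu2
    exact absurd hu2.2 (by simp)
  unfold dg
  rw [← card_union_of_disjoint h1]
  apply card_le_card
  intro u hu
  rw [mem_union] at hu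
  rcases hu with hu | hu
  · unfold sideS at hu ⊢
    rw [mem_filter] at hu ⊢
    exact ⟨inT_subset y hu.1, hu.2⟩
  · rw [mem_filter] at hu
    unfold sideS
    rw [mem_filter]
    refine ⟨hu.1, ?_⟩
    have h2 := hh.bip v u hu.2
    by_cases h3 : v < a
    · have h4 : ¬ u < a := h2.1 h3
      simp only [h3, decide_true] at hvs
      simp only [h4, decide_false]
      cases sd
      · rfl
      · exact absurd rfl hvs
    · have h4 : u < a := by
        by_contra h5
        exact h3 (h2.2 h5)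
      simp only [h3, decide_false] at hvs
      simp only [h4, decide_true]
      cases sd
      · exact absurd rfl hvs
      · rfl

theorem steps_leaf (hh : XHost n a d A adj) {sd : Bool} {S : Finset ℕ} (hS : S ⊆ range n)
    (hl : ∀ v ∈ S, decide (v < a) = sd → 2 * dg adj S v < d) (t : ℕ) :
    ∀ y ∈ lvw n d 2 adj S t, y.1 ⊆ S ∧
      d * y.2 + 2 * (sideS a sd y.1).card ≤ 2 * (sideS a sd S).card := by
  induction t with
  | zero =>
    intro x hx
    simp only [lvw, List.mem_cons, List.not_mem_nil, or_false] at hx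
    rw [hx]
    exact ⟨subset_rfl, by simp⟩
  | succ t ih =>
    intro x hx
    have hsub := lvw_sub (t + 1) x hx
    simp only [lvw, List.mem_flatMap] at hx
    obtain ⟨y, hy, hxy⟩ := hx
    obtain ⟨h1, h2⟩ := ih y hy
    refine ⟨hsub, ?_⟩
    unfold kidsw at hxy
    split_ifs at hxy with h
    · have hyS : y.1 ⊆ range n := h1.trans hS
      obtain ⟨v, hv⟩ := exists_chs ((anyH_iff hyS).1 h)
      have hvS := hvy_mem (chs_hvy hv)
      have hdg : d ≤ 2 * dg adj y.1 v := by
        have h3 := chs_hvy hv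
        unfold hvy at h3
        simp only [Bool.and_eq_true, decide_eq_true_eq] at h3
        exact h3.2
      have hdS : dg adj y.1 v ≤ dg adj S v := by
        unfold dg
        exact card_le_card (filter_subset_filter _ h1)
      have hvs : ¬ decide (v < a) = sd := by
        intro h3
        have := hl v (h1 hvS) h3
        omega
      simp only [List.mem_cons, List.not_mem_nil, or_false] at hxy
      rcases hxy with rfl | rfl
      · have h4 := EP2Aux_side_mono (a := a) (sd := sd) (outT_subset (m := d) (g := 2) (adj := adj) y.1)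
        simp only
        omega
      · have h4 := EP2Aux_in hh (mem_range.1 (hyS hvS)) hv hvs
        simp only
        rw [Nat.mul_add, Nat.mul_one]
        omega
    · simp only [List.mem_cons, List.not_mem_nil, or_false] at hxy
      rw [hxy]
      exact h2

end Pool.Agent.Lib.Pa7c826e
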