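import Pool.Agent.Lib.Pa7c826e.EPA
import Pool.Agent.Lib.Pa7c826e.EP2

/-!
Independent sets that are large on both sides are rare.

PROOF. Let `S` be the set in the statement; its left part is `sideS a true (range n) \ NB n adj y.2`
(`NB n adj y.2` is contained in the left side: `p1_props` for `y` with `sd = false`, `nb_side`), so
`4 * (sideS a true S).card = 4 (a - wE y) ≤ 3 a`; the same for the right part with `x`. For every
`T ⊆ S` the independent set `J ⊆ T` of `dfc_spec` satisfies `exC`, so `A a ≤ 16 d dfc T`. Use `ph2`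
(with `sd = true`) and `q = fun _ => true` (the sum is `ind adj S` by `sum_ind_lvw` in
`Pa7c826t/ApproxT.lean`), `M = (n + 1) ^ x.2.card * ((n + 1) ^ y.2.card * 2 ^ (ly + 4)) ≤ 2 ^ μ`,
`μ = lg (x.2.card + y.2.card) + ly + 4`, `H = a / d + 1`, `G = 4 a / d` (`steps_gen`,
`|S| ≤ n = 2 a`). Numbers: `d ≤ a`, `d x.2.card ≤ 2 wE x ≤ 2 a` (`p1_props`; `wE x ≤ a` by `nb_side`,
`card_side`), the same for `y`; so
`d * 24 (μ + 2 H + 5 G) ≤ 24 (4 lg a + d ly + 4 d + 2 (a + d) + 20 a) ≤ 24 (4 lg a + 30 a) ≤ 816 lg a`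
(`lg ≥ 1`, `192 d ly ≤ a`), and `16 d dfc ≥ A a ≥ 100000 lg a`, i.e. `d dfc ≥ 6250 lg a`. Cancel `d`.
-/

namespace Pool.Agent.Lib.Pa7c826e

open Finset Pool.Agent.Lib.Pa7c826 Pool.Agent.Lib.Pa7c826t

variable {n a d A lg ly : ℕ} {adj : ℕ → ℕ → Bool}

theorem wE_le (hh : XHost n a d A adj) {sd : Bool} {x : Nd} (hx : x ∈ lv1 n a d adj sd) :
    NB n adj x.2 ⊆ sideS a (!sd) (range n) ∧ wE n adj x ≤ a ∧ d * x.2.card ≤ 2 * wE n adj x := by
  have h := p1_props hh sd n x hx
  have h1 : NB n adj x.2 ⊆ sideS a (!sd) (range n) := nb_side hh h.2.1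
  refine ⟨h1, ?_, h.2.2.2.2.2⟩
  have h2 := card_le_card h1
  rwa [card_side hh.hn] at h2

theorem side_bb {sd : Bool} {S : Finset ℕ} {X : Finset ℕ} (hX : X ⊆ sideS a sd (range n))
    (hn : n = 2 * a) (hS : ∀ v ∈ S, decide (v < a) = sd → v ∈ sideS a sd (range n) \ X)
    (hc : a < 4 * X.card) : 4 * (sideS a sd S).card ≤ 3 * a := by
  have h1 : sideS a sd S ⊆ sideS a sd (range n) \ X := by
    intro v hv
    unfold sideS at hv
    rw [mem_filter] at hv
    exact hS v hv.1 hv.2
  have h2 := card_le_card h1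
  rw [card_sdiff_of_subset hX, card_side hn] at h2
  omega

theorem mem_sideS {sd : Bool} {S : Finset ℕ} {v : ℕ} :
    v ∈ sideS a sd S ↔ v ∈ S ∧ decide (v < a) = sd := by
  unfold sideS
  rw [mem_filter]

theorem bb (hh : XHost n a d A adj) (hlg : n + 1 ≤ 2 ^ lg) (hA : 100000 * lg ≤ A)
    (hly : 1 ≤ ly) (ha : 192 * d * ly ≤ a) {x y : Nd} (hx : x ∈ lv1 n a d adj true)
    (hy : y ∈ lv1 n a d adj false) (h1 : a < 4 * wE n adj x) (h2 : a < 4 * wE n adj y) :
    (n + 1) ^ y.2.card * ((n + 1) ^ x.2.card * (2 ^ (ly + 4) * ind adj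
      ((sideS a true (range n) \ NB n adj y.2) ∪ (sideS a false (range n) \ NB n adj x.2)))) ≤
      2 ^ a := by
  set S := (sideS a true (range n) \ NB n adj y.2) ∪ (sideS a false (range n) \ NB n adj x.2)
    with hSdef
  obtain ⟨hx1, hx2, hx3⟩ := wE_le hh hx
  obtain ⟨hy1, hy2, hy3⟩ := wE_le hh hy
  have hd := hh.hd
  have hS : S ⊆ range n := by
    intro v hv
    rw [hSdef, mem_union, mem_sdiff, mem_sdiff, mem_sideS, mem_sideS] at hv
    rcases hv with hv | hv
    · exact hv.1.1
    · exact hv.1.1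
  have hSt : ∀ v ∈ S, decide (v < a) = true → v ∈ sideS a true (range n) \ NB n adj y.2 := by
    intro v hv hva
    rw [hSdef, mem_union] at hv
    rcases hv with hv | hv
    · exact hv
    · rw [mem_sdiff, mem_sideS, hva] at hv
      exact absurd hv.1.2 (by decide)
  have hSf : ∀ v ∈ S, decide (v < a) = false → v ∈ sideS a false (range n) \ NB n adj x.2 := by
    intro v hv hva
    rw [hSdef, mem_union] at hv
    rcases hv with hv | hv
    · rw [mem_sdiff, mem_sideS, hva] at hv
      exact absurd hv.1.2 (by decide)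
    · exact hv
  have hscard : S.card ≤ n := by
    simpa using card_le_card hS
  have hside : (sideS a true S).card ≤ a := by
    have h3 : sideS a true S ⊆ sideS a true (range n) := by
      intro v hv
      rw [mem_sideS] at hv ⊢
      exact ⟨hS hv.1, hv.2⟩
    have h4 := card_le_card h3
    rwa [card_side hh.hn] at h4
  have hda : d ≤ a := by nlinarith
  have hlg1 : 1 ≤ lg := by
    rcases Nat.eq_zero_or_pos lg with h0 | h0
    · exfalso
      rw [h0, pow_zero] at hlg
      have := hh.hn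
      omega
    · exact h0
  have hn := hh.hn
  have hHd : a ≤ d * (a / d + 1) := by
    have := Nat.lt_mul_div_succ a (b := d) (by omega)
    exact this.le
  have hHd2 : d * (a / d + 1) ≤ a + d := by
    have := Nat.mul_div_le a d
    rw [Nat.mul_add, mul_one]
    omega
  have hGd : d * (4 * a / d) ≤ 4 * a := Nat.mul_div_le _ _
  have hmain := ph2 hh (sd := true) (S := S) (H := a / d + 1) (G := 4 * a / d)
    (M := (n + 1) ^ y.2.card * ((n + 1) ^ x.2.card * 2 ^ (ly + 4)))
    (μ := lg * (x.2.card + y.2.card) + ly + 4) hS (hside.trans hHd)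
    (by
      intro z hz
      have h3 := steps_gen (d := d) (adj := adj) hS z hz
      rw [Nat.le_div_iff_mul_le (by omega)]
      nlinarith) (fun _ => true)
    (by
      have h3 : (n + 1) ^ y.2.card ≤ 2 ^ (lg * y.2.card) := by
        rw [pow_mul]
        exact Nat.pow_le_pow_left hlg _
      have h4 : (n + 1) ^ x.2.card ≤ 2 ^ (lg * x.2.card) := by
        rw [pow_mul]
        exact Nat.pow_le_pow_left hlg _
      calc (n + 1) ^ y.2.card * ((n + 1) ^ x.2.card * 2 ^ (ly + 4)) ≤
          2 ^ (lg * y.2.card) * (2 ^ (lg * x.2.card) * 2 ^ (ly + 4)) := by gcongr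
        _ = 2 ^ (lg * (x.2.card + y.2.card) + ly + 4) := by
          rw [← pow_add, ← pow_add]
          congr 1
          ring)
    (by
      intro z hz _
      have hzS : z.1 ⊆ S := lvw_sub n z hz
      obtain ⟨J, hJz, hJi, hJc⟩ := (dfc_spec hh (hzS.trans hS)).2
      have hJS : J ⊆ S := hJz.trans hzS
      have h5 := exC hh (hJS.trans hS) hJi
        (side_bb (S := J) hy1 hh.hn (fun v hv hva => hSt v (hJS hv) hva) h2)
        (side_bb (S := J) hx1 hh.hn (fun v hv hva => hSf v (hJS hv) hva) h1)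
      set e := dfc n a adj z.1 with he
      have h6 : A * a ≤ 16 * d * e := by
        have h7 : 16 * d * a = 16 * d * J.card + 16 * d * e := by rw [← hJc]; ring
        omega
      have h8 : 100000 * lg * a ≤ 16 * d * e := le_trans (Nat.mul_le_mul_right _ hA) h6
      have h9 : 6250 * (lg * a) ≤ d * e := by nlinarith
      refine Nat.le_of_mul_le_mul_left (c := d) ?_ (by omega)
      have e1 : d * (lg * (x.2.card + y.2.card)) ≤ 4 * (lg * a) := by
        have : d * (x.2.card + y.2.card) ≤ 4 * a := by rw [Nat.mul_add]; omega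
        calc d * (lg * (x.2.card + y.2.card)) = lg * (d * (x.2.card + y.2.card)) := by ring
          _ ≤ lg * (4 * a) := Nat.mul_le_mul_left _ this
          _ = 4 * (lg * a) := by ring
      have e2 : d * ly ≤ a := by nlinarith
      have e3 : a ≤ lg * a := Nat.le_mul_of_pos_left _ (by omega)
      have e4 : d * (24 * (lg * (x.2.card + y.2.card) + ly + 4 + 2 * (a / d + 1) +
          5 * (4 * a / d))) = 24 * (d * (lg * (x.2.card + y.2.card))) + 24 * (d * ly) + 96 * d +
          48 * (d * (a / d + 1)) + 120 * (d * (4 * a / d)) := by ring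
      rw [e4]
      omega)
  have hf : ((((lvw n d 2 adj S n).map Prod.fst).filter (fun _ => true)).map (ind adj)).sum =
      ind adj S := by
    rw [List.filter_eq_self.2 (fun _ _ => rfl)]
    exact sum_ind_lvw hh.sym hh.irr hS n
  rw [hf] at hmain
  calc (n + 1) ^ y.2.card * ((n + 1) ^ x.2.card * (2 ^ (ly + 4) * ind adj S)) =
      (n + 1) ^ y.2.card * ((n + 1) ^ x.2.card * 2 ^ (ly + 4)) * ind adj S := by ring
    _ ≤ 2 ^ a := hmain

end Pool.Agent.Lib.Pa7c826e
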