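import Pool.Agent.Lib.Pa7c826t.ClassT
import Pool.Agent.Lib.Pa7c826x.Defs
import Pool.Agent.Lib.Pa7c826e.EDef

/-!
Regular bipartite graphs and expanders satisfy the host conditions.

PROOFS. `reg_ab`: count the edges from both sides (`∑ i, rowDeg i = ∑ j, colDeg j`; see
`BGraph` in `Pa7c826`), `G.a * d = G.b * d`, `d ≥ 1`. `reg_dg`: `dg_row`, `dg_col`
(used in `Pa7c826t/ClassT.lean`). `reg_facts`: `adjOf_symm`, `adjOf_self`, `lt_of_adjOf`,
`adjOf_bip` with `aOf_inCode`, `bOf_inCode`. `xhost`: `exp`: a set `X ⊆ sideS G.a true (range n)` is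
the image of a set `S : Finset (Fin G.a)` of the same size, and `(nbR G S).card = (NB … X).card`
(the image of `nbR G S` under `j ↦ G.a + j` is `NB`; `adjOf_inCode`-type lemmas relate
`adjOf (inCode G t) i (G.a + j)` to `G.E i j`, see how `dg_row` is proved); the same for
`sd = false` with `nbL`. Multiply `(1 + α) |S| ≤ |nbR G S|` by `d` and use `C L ≤ α d`,
`L = Nat.log 2 n`, to get `(d + C L) |S| ≤ d |nbR G S|` in `ℝ`, then `exact_mod_cast`.
`hA`: apply this inequality to a set `X` of left vertices with `|X| = G.a / 2 ≥ 1` (`2 ≤ G.a`,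
`NB` has at most `G.b = G.a` elements): `(d + A) (a / 2) ≤ d a ≤ 3 d (a / 2)`.
-/

namespace Pool.Agent.Lib.Pa7c826e

open Pool.Agent.Lib.PolyTime Pool.Agent.Lib.Pa7c826 Pool.Agent.Lib.Pa7c826t
  Pool.Agent.Lib.Pa7c826x Finset

theorem reg_ab (G : BGraph) {d : ℕ} (hd : 1 ≤ d) (h1 : ∀ i, G.rowDeg i = d)
    (h2 : ∀ j, G.colDeg j = d) : G.a = G.b := by
  have e1 : ∑ i, G.rowDeg i = ∑ j, G.colDeg j := by
    unfold BGraph.rowDeg BGraph.colDeg
    simp only [card_filter]
    exact sum_comm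
  rw [sum_congr rfl fun i _ => h1 i, sum_congr rfl fun j _ => h2 j, sum_const, sum_const,
    card_univ, card_univ, Fintype.card_fin, Fintype.card_fin, smul_eq_mul, smul_eq_mul] at e1
  exact Nat.eq_of_mul_eq_mul_right hd e1

theorem reg_dg (G : BGraph) (t : ℕ) {d : ℕ} (h1 : ∀ i, G.rowDeg i = d)
    (h2 : ∀ j, G.colDeg j = d) :
    ∀ v < G.a + G.b, dg (adjOf (inCode G t)) (range (G.a + G.b)) v = d := by
  intro v hv
  rcases lt_or_ge v G.a with h | h
  · have e := dg_row G t ⟨v, h⟩
    rw [h1] at e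
    exact e
  · have e := dg_col G t ⟨v - G.a, by omega⟩
    simp only at e
    rw [show G.a + (v - G.a) = v by omega, h2] at e
    exact e

theorem reg_facts (G : BGraph) (t : ℕ) :
    (∀ u v, adjOf (inCode G t) u v = true → u < G.a + G.b) ∧
    (∀ u v, adjOf (inCode G t) u v = true → (u < G.a ↔ ¬ v < G.a)) := by
  refine ⟨fun u v h => (lt_of_adjOf h).1, fun u v h => ?_⟩
  have h2 := adjOf_bip h
  rw [aOf_inCode, bOf_inCode] at h2
  omega

theorem exp_true (G : BGraph) (t : ℕ) (X : Finset ℕ)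
    (hX : X ⊆ sideS G.a true (range (G.a + G.b))) :
    ∃ S : Finset (Fin G.a), S.card = X.card ∧
      (nbR G S).card ≤ (NB (G.a + G.b) (adjOf (inCode G t)) X).card := by
  have hlt : ∀ v ∈ X, v < G.a := by
    intro v hv
    have h1 := hX hv
    unfold sideS at h1
    rw [mem_filter, decide_eq_true_eq] at h1
    exact h1.2
  refine ⟨univ.filter (fun i : Fin G.a => (i : ℕ) ∈ X), ?_, ?_⟩
  · refine card_bij (fun i _ => (i : ℕ)) ?_ ?_ ?_
    · intro i hi
      simpa using hi
    · intro i _ i' _ h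
      exact Fin.ext h
    · intro v hv
      exact ⟨⟨v, hlt v hv⟩, by simpa using hv, rfl⟩
  · refine card_le_card_of_injOn (fun j => G.a + (j : ℕ)) ?_ ?_
    · intro j hj
      unfold nbR at hj
      rw [mem_coe, mem_filter] at hj
      obtain ⟨_, i, hi, hij⟩ := hj
      rw [mem_filter] at hi
      unfold NB
      rw [mem_coe, mem_filter, mem_range]
      refine ⟨by have := j.2; simp only; omega, (i : ℕ), hi.2, ?_⟩
      rw [adjOf_lr]
      exact hij
    · intro j _ j' _ h
      exact Fin.ext (by simpa using h)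

theorem exp_false (G : BGraph) (t : ℕ) (X : Finset ℕ)
    (hX : X ⊆ sideS G.a false (range (G.a + G.b))) :
    ∃ S : Finset (Fin G.b), S.card = X.card ∧
      (nbL G S).card ≤ (NB (G.a + G.b) (adjOf (inCode G t)) X).card := by
  have hlt : ∀ v ∈ X, v < G.a + G.b ∧ G.a ≤ v := by
    intro v hv
    have h1 := hX hv
    unfold sideS at h1
    rw [mem_filter, mem_range, decide_eq_false_iff_not] at h1
    exact ⟨h1.1, not_lt.1 h1.2⟩
  refine ⟨univ.filter (fun j : Fin G.b => G.a + (j : ℕ) ∈ X), ?_, ?_⟩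
  · refine card_bij (fun j _ => G.a + (j : ℕ)) ?_ ?_ ?_
    · intro j hj
      simpa using hj
    · intro j _ j' _ h
      exact Fin.ext (by simpa using h)
    · intro v hv
      obtain ⟨h1, h2⟩ := hlt v hv
      refine ⟨⟨v - G.a, by omega⟩, ?_, by simp only; omega⟩
      rw [mem_filter]
      refine ⟨mem_univ _, ?_⟩
      simp only
      rw [show G.a + (v - G.a) = v by omega]
      exact hv
  · refine card_le_card_of_injOn (fun i => (i : ℕ)) ?_ ?_
    · intro i hi
      unfold nbL at hi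
      rw [mem_coe, mem_filter] at hi
      obtain ⟨_, j, hj, hij⟩ := hi
      rw [mem_filter] at hj
      unfold NB
      rw [mem_coe, mem_filter, mem_range]
      refine ⟨by have := i.2; simp only; omega, G.a + (j : ℕ), hj.2, ?_⟩
      rw [adjOf_symm, adjOf_lr]
      exact hij
    · intro i _ i' _ h
      exact Fin.ext h

theorem exp_real {d A s m m' : ℕ} {α : ℝ} (h4 : (A : ℝ) ≤ α * d)
    (h : (1 + α) * (s : ℝ) ≤ m) (hm : m ≤ m') : (d + A) * s ≤ d * m' := by
  have hs : (0 : ℝ) ≤ s := Nat.cast_nonneg _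
  have hd : (0 : ℝ) ≤ d := Nat.cast_nonneg _
  have hm' : (m : ℝ) ≤ m' := by exact_mod_cast hm
  have h1 : (((d + A) * s : ℕ) : ℝ) ≤ ((d * m' : ℕ) : ℝ) := by
    push_cast
    calc ((d : ℝ) + A) * s ≤ (d + α * d) * s :=
          mul_le_mul_of_nonneg_right (by linarith) hs
      _ = d * ((1 + α) * s) := by ring
      _ ≤ d * m' := mul_le_mul_of_nonneg_left (h.trans hm') hd
  exact_mod_cast h1

theorem xhost (G : BGraph) (t : ℕ) {d C : ℕ} {α : ℝ} (hd : 1 ≤ d) (h1 : ∀ i, G.rowDeg i = d)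
    (h2 : ∀ j, G.colDeg j = d) (h3 : IsExpander α G)
    (h4 : (C * Nat.log 2 (G.a + G.b) : ℕ) ≤ α * d) (ha : 2 ≤ G.a) :
    XHost (G.a + G.b) G.a d (C * Nat.log 2 (G.a + G.b)) (adjOf (inCode G t)) := by
  have hab := reg_ab G hd h1 h2
  set A := C * Nat.log 2 (G.a + G.b) with hA
  have hexp : ∀ (sd : Bool) (X : Finset ℕ), X ⊆ sideS G.a sd (range (G.a + G.b)) →
      2 * X.card ≤ G.a →
      (d + A) * X.card ≤ d * (NB (G.a + G.b) (adjOf (inCode G t)) X).card := by
    intro sd X hX hc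
    cases sd with
    | true =>
      obtain ⟨S, hS, hN⟩ := exp_true G t X hX
      have h5 := h3.1 S (by rw [hS]; exact hc)
      rw [hS] at h5
      exact exp_real h4 h5 hN
    | false =>
      obtain ⟨S, hS, hN⟩ := exp_false G t X hX
      have h5 := h3.2 S (by rw [hS, ← hab]; exact hc)
      rw [hS] at h5
      exact exp_real h4 h5 hN
  refine ⟨by omega, adjOf_symm _, adjOf_self _, (reg_facts G t).1, (reg_facts G t).2,
    reg_dg G t h1 h2, hd, ?_, hexp⟩
  have h6 := hexp true (range (G.a / 2)) (by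
    intro v hv
    rw [mem_range] at hv
    unfold sideS
    rw [mem_filter, mem_range, decide_eq_true_eq]
    omega) (by rw [card_range]; omega)
  rw [card_range] at h6
  have h7 : (NB (G.a + G.b) (adjOf (inCode G t)) (range (G.a / 2))).card ≤ G.b := by
    have h8 : NB (G.a + G.b) (adjOf (inCode G t)) (range (G.a / 2)) ⊆
        Ico G.a (G.a + G.b) := by
      intro v hv
      unfold NB at hv
      rw [mem_filter, mem_range] at hv
      obtain ⟨hv1, u, hu, huv⟩ := hv
      rw [mem_range] at hu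
      have h9 := (reg_facts G t).2 u v huv
      rw [mem_Ico]
      omega
    refine (card_le_card h8).trans ?_
    rw [Nat.card_Ico]
    omega
  have h10 : (d + A) * (G.a / 2) ≤ d * (3 * (G.a / 2)) :=
    h6.trans (Nat.mul_le_mul_left _ (by omega))
  have h11 : (d + A) * (G.a / 2) ≤ (3 * d) * (G.a / 2) := by
    refine h10.trans (le_of_eq ?_)
    ring
  have h12 : d + A ≤ 3 * d := Nat.le_of_mul_le_mul_right h11 (by omega)
  omega

end Pool.Agent.Lib.Pa7c826e
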