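import Pool.Agent.Lib.Pa7c826e.EDef

/-!
Weighted sums over the nodes of a level.

PROOF. For a real number `z` with `0 ≤ z` and all `t`: the sum of `z ^ y.2.card` over
`y ∈ lvT n m g ad (S₀, ∅) t` is at most `(1 + z) ^ t`. Induction on `t`: for a node `y` with a
heavy vertex the two children are `(outT, y.2)` and `(inT, y.2 ∪ {v})`, `v` the chosen vertex,
`v ∈ y.1` and `y.1`, `y.2` are disjoint (carry `Disjoint y.1 y.2` and `y.1 ⊆ range n` along in the
induction; `exists_chs`, `anyH_iff`, `chs_unique` from `Pa7c826t/TreeDef.lean`), so the children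
have total weight `(1 + z) z ^ y.2.card`; otherwise the only child is `y`, and
`z ^ y.2.card ≤ (1 + z) z ^ y.2.card`. With `z = 1 / (n + 1)`: `f y ≤ B z ^ y.2.card`, and
`(1 + 1 / (n + 1)) ^ t ≤ (1 + 1 / (n + 1)) ^ n ≤ exp 1 ≤ 3` (`Real.add_one_le_exp`,
`Real.exp_one_lt_d9`).
-/

namespace Pool.Agent.Lib.Pa7c826e

open Finset Pool.Agent.Lib.Pa7c826 Pool.Agent.Lib.Pa7c826t

variable {n m g : ℕ} {ad : ℕ → ℕ → Bool}

namespace EGenAux

theorem sum_flatMap_le {α : Type*} (l : List α) (k : α → List α) (w : α → ℝ) (c : ℝ)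
    (h : ∀ y ∈ l, ((k y).map w).sum ≤ c * w y) :
    ((l.flatMap k).map w).sum ≤ c * (l.map w).sum := by
  induction l with
  | nil => simp
  | cons x l ih =>
    rw [List.flatMap_cons, List.map_append, List.sum_append, List.map_cons, List.sum_cons, mul_add]
    exact add_le_add (h x (by simp)) (ih (fun y hy => h y (by simp [hy])))

theorem chsS_eq' {S : Finset ℕ} {v : ℕ} (h : chs m g ad S v = true) : chsS m g ad S = {v} := by
  ext u
  unfold chsS
  rw [mem_filter, mem_singleton]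
  constructor
  · rintro ⟨_, hu⟩
    exact chs_unique hu h
  · rintro rfl
    exact ⟨hvy_mem (chs_hvy h), h⟩

theorem kid_cases {y z : Nd} (hy : y.1 ⊆ range n) (hd : Disjoint y.1 y.2)
    (hz : z ∈ kidT n m g ad y) : z.1 ⊆ range n ∧ Disjoint z.1 z.2 := by
  unfold kidT at hz
  split_ifs at hz with hh
  · obtain ⟨v, hv⟩ := exists_chs ((anyH_iff hy).1 hh)
    have hvS : v ∈ y.1 := hvy_mem (chs_hvy hv)
    simp only [List.mem_cons, List.not_mem_nil, or_false] at hz
    rcases hz with rfl | rfl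
    · exact ⟨(outT_subset _).trans hy, hd.mono_left (outT_subset _)⟩
    · refine ⟨(inT_subset _).trans hy, ?_⟩
      simp only
      rw [disjoint_union_right]
      refine ⟨hd.mono_left (inT_subset _), ?_⟩
      rw [chsS_eq' hv, inT_eq (mem_range.1 (hy hvS)) hv, disjoint_singleton_right, mem_filter,
        mem_erase]
      exact fun h => h.1.1 rfl
  · simp only [List.mem_cons, List.not_mem_nil, or_false] at hz
    rw [hz]
    exact ⟨hy, hd⟩

theorem lvT_basic {S₀ : Finset ℕ} (hS : S₀ ⊆ range n) (t : ℕ) :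
    ∀ y ∈ lvT n m g ad (S₀, ∅) t, y.1 ⊆ range n ∧ Disjoint y.1 y.2 := by
  induction t with
  | zero =>
    intro y hy
    unfold lvT at hy
    simp only [List.mem_cons, List.not_mem_nil, or_false] at hy
    rw [hy]
    exact ⟨hS, disjoint_empty_right _⟩
  | succ t ih =>
    intro y hy
    unfold lvT at hy
    rw [List.mem_flatMap] at hy
    obtain ⟨x, hx, hxy⟩ := hy
    exact kid_cases (ih x hx).1 (ih x hx).2 hxy

theorem kid_weight {z : ℝ} (hz : 0 ≤ z) {y : Nd} (hy : y.1 ⊆ range n) (hd : Disjoint y.1 y.2) :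
    ((kidT n m g ad y).map (fun x : Nd => z ^ x.2.card)).sum ≤ (1 + z) * z ^ y.2.card := by
  unfold kidT
  split_ifs with hh
  · obtain ⟨v, hv⟩ := exists_chs ((anyH_iff hy).1 hh)
    have hvS : v ∈ y.1 := hvy_mem (chs_hvy hv)
    have hvn : v ∉ y.2 := fun h => disjoint_left.mp hd hvS h
    have hc : (y.2 ∪ chsS m g ad y.1).card = y.2.card + 1 := by
      rw [chsS_eq' hv, card_union_of_disjoint (disjoint_singleton_right.mpr hvn), card_singleton]
    simp only [List.map_cons, List.map_nil, List.sum_cons, List.sum_nil, add_zero]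
    rw [hc, pow_succ]
    linarith [mul_comm z (z ^ y.2.card)]
  · simp only [List.map_cons, List.map_nil, List.sum_cons, List.sum_nil, add_zero]
    have : 0 ≤ z * z ^ y.2.card := by positivity
    linarith [add_mul 1 z (z ^ y.2.card)]

theorem lvT_w {z : ℝ} (hz : 0 ≤ z) {S₀ : Finset ℕ} (hS : S₀ ⊆ range n) (t : ℕ) :
    ((lvT n m g ad (S₀, ∅) t).map (fun x : Nd => z ^ x.2.card)).sum ≤ (1 + z) ^ t := by
  induction t with
  | zero => simp [lvT]
  | succ t ih =>
    have h1 : lvT n m g ad (S₀, ∅) (t + 1) = (lvT n m g ad (S₀, ∅) t).flatMap (kidT n m g ad) := rfl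
    rw [h1]
    refine (sum_flatMap_le _ _ _ (1 + z) (fun y hy => ?_)).trans ?_
    · obtain ⟨h2, h3⟩ := lvT_basic hS t y hy
      exact kid_weight hz h2 h3
    · rw [pow_succ, mul_comm ((1 + z) ^ t)]
      exact mul_le_mul_of_nonneg_left ih (by linarith)

end EGenAux

open EGenAux

theorem lvT_weight {S₀ : Finset ℕ} (hS : S₀ ⊆ range n) {t : ℕ} (ht : t ≤ n) (f : Nd → ℕ)
    (B : ℕ) (h : ∀ y ∈ lvT n m g ad (S₀, ∅) t, (n + 1) ^ y.2.card * f y ≤ B) :
    ((lvT n m g ad (S₀, ∅) t).map f).sum ≤ 3 * B := by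
  set z : ℝ := 1 / ((n : ℝ) + 1) with hz
  have hn : (0 : ℝ) < (n : ℝ) + 1 := by positivity
  have hz0 : 0 ≤ z := by positivity
  have h1 : ∀ y ∈ lvT n m g ad (S₀, ∅) t, ((f y : ℕ) : ℝ) ≤ B * z ^ y.2.card := by
    intro y hy
    have h2 : (((n + 1) ^ y.2.card * f y : ℕ) : ℝ) ≤ B := by exact_mod_cast h y hy
    push_cast at h2
    have h3 : z ^ y.2.card = 1 / ((n : ℝ) + 1) ^ y.2.card := by
      rw [hz, one_div_pow]
    rw [h3, mul_one_div, le_div_iff₀ (by positivity)]
    linarith [mul_comm (((n : ℝ) + 1) ^ y.2.card) (f y : ℝ)]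
  have h2 : (((lvT n m g ad (S₀, ∅) t).map f).sum : ℝ) ≤
      ((lvT n m g ad (S₀, ∅) t).map (fun y : Nd => B * z ^ y.2.card)).sum := by
    rw [Nat.cast_list_sum, List.map_map]
    exact List.sum_le_sum (fun y hy => h1 y hy)
  have h3 : ((lvT n m g ad (S₀, ∅) t).map (fun y : Nd => (B : ℝ) * z ^ y.2.card)).sum =
      B * ((lvT n m g ad (S₀, ∅) t).map (fun y : Nd => z ^ y.2.card)).sum := by
    rw [List.sum_map_mul_left]
  have h4 := lvT_w (n := n) (m := m) (g := g) (ad := ad) hz0 hS t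
  have h5 : (1 + z) ^ t ≤ 3 := by
    have h6 : 1 + z ≤ Real.exp z := by linarith [Real.add_one_le_exp z]
    have h7 : (1 + z) ^ t ≤ Real.exp z ^ t := pow_le_pow_left₀ (by linarith) h6 t
    rw [← Real.exp_nat_mul] at h7
    have h8 : (t : ℝ) * z ≤ 1 := by
      have : (t : ℝ) ≤ n := by exact_mod_cast ht
      rw [hz, mul_one_div, div_le_one hn]
      linarith
    have h9 := Real.exp_le_exp.mpr h8
    have h10 := Real.exp_one_lt_d9
    linarith
  have hB : (0 : ℝ) ≤ B := Nat.cast_nonneg B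
  have h6 : (((lvT n m g ad (S₀, ∅) t).map f).sum : ℝ) ≤ 3 * B := by
    rw [h3] at h2
    have := mul_le_mul_of_nonneg_left (h4.trans h5) hB
    linarith
  exact_mod_cast h6

end Pool.Agent.Lib.Pa7c826e
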