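import Pool.Agent.Lib.Pa7c826e.EDead
import Pool.Agent.Lib.Pa7c826e.EGen

/-!
Counting independent sets by the leaves of the tree.

PROOFS. `cnt_leaf` (`sd` fixed, `q` any property of nodes and `q'` any property of sets):
`x1 sd I = trk … I (range n, ∅) n` and `x2 sd I = trk n d 2 adj I (x1 sd I) n`. By `trk_congr`
(`x1.1 ∩ I` and `I` agree on `(x1 sd I).1`) `x2 sd I = trk n d 2 adj (I ∩ (x1 sd I).1) (x1 sd I) n`.
Apply `trk_sum` (`cmp_adS`) to
`h x J = if q x ∧ q' (trk n d 2 adj J x n).1 then 1 else 0`, and for every leaf `x` of the first phase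
`trk_sum` again (`cmp_self`, `x.1 ⊆ range n` by `p1_props`) to
`h' y _ = if q x ∧ q' y.1 then 1 else 0`; by `lvT_fst` the list of the `y.1` is
`(lvw n d 2 adj x.1 n).map Prod.fst`, and `∑ J ∈ IS adj y.1, 1 = ind adj y.1`.
`cnt_w`: `cnt_leaf` with `q x = (4 wE x ≤ a)`, `q' = True`, the inner sum is `ind adj x.1`
(`sum_ind_lvw`), then `lvT_weight` with `dead1` (for `x` with `a < 4 wE x` the term is `0`).
`cnt_dead`: the same with `q' S = (48 ly < dfc S)` and `dead2`; multiply by `2 ^ ly` first.
-/

namespace Pool.Agent.Lib.Pa7c826e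

open Finset Pool.Agent.Lib.Pa7c826 Pool.Agent.Lib.Pa7c826t

variable {n a d A lg ly : ℕ} {adj : ℕ → ℕ → Bool}

theorem sum_filter_map {α : Type*} (l : List α) (p : α → Bool) (f : α → ℕ) :
    ((l.filter p).map f).sum = (l.map (fun x => if p x = true then f x else 0)).sum := by
  induction l with
  | nil => rfl
  | cons x l ih =>
    rcases h : p x with _ | _
    · simp only [List.filter_cons, h, List.map_cons, List.sum_cons, Bool.false_eq_true, if_false]
      rw [ih, zero_add]
    · simp only [List.filter_cons, h, List.map_cons, List.sum_cons, if_true]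
      rw [ih]

theorem cnt_second (hh : XHost n a d A adj) {y : Nd} (hy : y.1 ⊆ range n) (b : Bool)
    (q' : Finset ℕ → Bool) :
    ∑ J ∈ IS adj y.1, (if b = true ∧ q' (trk n d 2 adj J y n).1 = true then 1 else 0) =
      if b = true then
      ((((lvw n d 2 adj y.1 n).map Prod.fst).filter q').map (ind adj)).sum else 0 := by
  have h1 := trk_sum (n := n) (m := d) (g := 2) (ad := adj) hh.sym hh.irr (cmp_self d 2) (x := y) hy
    (fun z _ => if b = true ∧ q' z.1 = true then 1 else 0) n
  rw [h1, ← lvT_fst, sum_filter_map, List.map_map]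
  rcases b with _ | _
  · simp
  · simp only [true_and, if_true]
    congr 1
    refine List.map_congr_left fun z _ => ?_
    simp only [Function.comp_apply]
    rcases q' z.1 with _ | _
    · simp
    · simp [card_IS]

theorem cnt_leaf (hh : XHost n a d A adj) (sd : Bool) (q : Nd → Bool) (q' : Finset ℕ → Bool) :
    ((IS adj (range n)).filter (fun I => q (x1 n a d adj sd I) = true ∧
      q' (x2 n a d adj sd I).1 = true)).card =
    ((lv1 n a d adj sd).map (fun x => if q x = true then
      ((((lvw n d 2 adj x.1 n).map Prod.fst).filter q').map (ind adj)).sum else 0)).sum := by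
  rw [card_filter]
  have h1 := trk_sum (n := n) (m := d) (g := 2) (ad := adS a sd adj) hh.sym hh.irr
    (cmp_adS hh.hd sd) (x := (range n, ∅)) (subset_refl _)
    (fun x J => if q x = true ∧ q' (trk n d 2 adj J x n).1 = true then 1 else 0) n
  have h2 : ∀ I ∈ IS adj (range n), (if q (x1 n a d adj sd I) = true ∧
      q' (x2 n a d adj sd I).1 = true then 1 else 0) =
      (if q (trk n d 2 (adS a sd adj) I (range n, ∅) n) = true ∧
        q' (trk n d 2 adj (I ∩ (trk n d 2 (adS a sd adj) I (range n, ∅) n).1)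
          (trk n d 2 (adS a sd adj) I (range n, ∅) n) n).1 = true then 1 else 0) := by
    intro I _
    have h3 : trk n d 2 adj (I ∩ (trk n d 2 (adS a sd adj) I (range n, ∅) n).1)
          (trk n d 2 (adS a sd adj) I (range n, ∅) n) n =
        trk n d 2 adj I (trk n d 2 (adS a sd adj) I (range n, ∅) n) n := by
      refine trk_congr (fun v hv => ?_) n
      rw [mem_inter]
      exact ⟨fun h => h.1, fun h => ⟨h, hv⟩⟩
    rw [h3]
    rfl
  rw [sum_congr rfl h2]
  refine h1.trans ?_
  congr 1
  refine List.map_congr_left fun x hx => ?_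
  exact cnt_second hh (p1_props hh sd n x hx).1 (q x) q'

theorem cnt_w (hh : XHost n a d A adj) (hlg : n + 1 ≤ 2 ^ lg) (hA : 100000 * lg ≤ A)
    (sd : Bool) :
    ((IS adj (range n)).filter (fun I => 4 * wE n adj (x1 n a d adj sd I) ≤ a)).card ≤
      3 * 2 ^ a := by
  have h1 := cnt_leaf hh sd (fun x => decide (4 * wE n adj x ≤ a)) (fun _ => true)
  simp only [decide_eq_true_eq, and_true] at h1
  rw [h1]
  refine lvT_weight (subset_refl _) le_rfl _ _ ?_
  intro y hy
  by_cases hq : 4 * wE n adj y ≤ a
  · simp only [hq, if_true]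
    have h3 := dead1 hh hlg hA hy hq
    have h4 : ((((lvw n d 2 adj y.1 n).map Prod.fst).filter (fun _ => true)).map
        (ind adj)).sum = ind adj y.1 := by
      rw [List.filter_eq_self.2 (fun _ _ => rfl)]
      exact sum_ind_lvw hh.sym hh.irr (p1_props hh sd n y hy).1 n
    rw [h4]
    exact h3
  · simp only [hq, if_false, mul_zero]
    exact Nat.zero_le _

theorem cnt_dead (hh : XHost n a d A adj) (hlg : n + 1 ≤ 2 ^ lg) (hA : 100000 * lg ≤ A)
    (sd : Bool) :
    2 ^ ly * ((IS adj (range n)).filter (fun I => 4 * wE n adj (x1 n a d adj sd I) ≤ a ∧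
      48 * ly < dfc n a adj (x2 n a d adj sd I).1)).card ≤ 3 * 2 ^ a := by
  have h1 := cnt_leaf hh sd (fun x => decide (4 * wE n adj x ≤ a))
    (fun S => decide (48 * ly < dfc n a adj S))
  simp only [decide_eq_true_eq] at h1
  rw [h1, ← List.sum_map_mul_left]
  refine lvT_weight (subset_refl _) le_rfl _ _ ?_
  intro y hy
  by_cases hq : 4 * wE n adj y ≤ a
  · simp only [hq, if_true]
    exact dead2 hh hlg hA hy hq
  · simp only [hq, if_false, mul_zero]
    exact Nat.zero_le _

end Pool.Agent.Lib.Pa7c826e
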