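import Pool.Agent.Lib.Pa7c826e.EDef

/-!
There are few sets that are small on both sides.

PROOF. For a finite set `P` with `a` elements, the number `N` of subsets `X` with `128 |X| ≤ a`
satisfies `N (1/16) ^ k ≤ (17/16) ^ a`, `k = a / 128`, because
`∑_{X ⊆ P} (1/16) ^ |X| = (17/16) ^ a` (`WIndAux_sum_powerset` in `Pa7c826t/WInd.lean`, or
`Finset.sum_pow_mul_eq_add_pow`) and `(1/16) ^ |X| ≥ (1/16) ^ k` for these `X`. So
`N ≤ 16 ^ k (17/16) ^ a`, and, as `(17/16) ^ 8 ≤ 2`, `N ^ 8 ≤ 2 ^ (32 k + a) ≤ 2 ^ (a / 4 + a)`.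
A set `I ⊆ range n` is determined by its two parts `sideS a true I`, `sideS a false I`, so the number
`Z` in the statement is at most `N ^ 2`: `Z ^ 4 ≤ N ^ 8`, hence `Z ^ 4 ≤ 2 ^ (5 a / 4)`, and
`(2 ^ ly Z) ^ 4 ≤ 2 ^ (4 ly + 5 a / 4) ≤ 2 ^ (4 a)` because `192 ly ≤ a`. The two sides of
`range (2 a)` have `a` elements each.
-/

namespace Pool.Agent.Lib.Pa7c826e

open Finset Pool.Agent.Lib.Pa7c826 Pool.Agent.Lib.Pa7c826t

/-- few small subsets of a set with `a` elements -/
theorem small_sub {α : Type} [DecidableEq α] (P : Finset α) {a : ℕ} (hP : P.card = a) :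
    (P.powerset.filter (fun X => 128 * X.card ≤ a)).card ^ 8 ≤ 2 ^ (a + 32 * (a / 128)) := by
  set N := (P.powerset.filter (fun X => 128 * X.card ≤ a)).card with hN
  set k := a / 128 with hk
  have hka : k ≤ a := Nat.div_le_self _ _
  have h1 : N * 16 ^ (a - k) ≤ 17 ^ a := by
    have h2 := Finset.sum_pow_mul_eq_add_pow (1 : ℕ) 16 P
    rw [hP] at h2
    calc N * 16 ^ (a - k)
        = ∑ X ∈ P.powerset.filter (fun X => 128 * X.card ≤ a), 16 ^ (a - k) := by
          rw [Finset.sum_const, smul_eq_mul]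
      _ ≤ ∑ X ∈ P.powerset.filter (fun X => 128 * X.card ≤ a), 1 ^ X.card * 16 ^ (a - X.card) := by
          refine Finset.sum_le_sum fun X hX => ?_
          rw [one_pow, one_mul]
          refine Nat.pow_le_pow_right (by norm_num) ?_
          have h3 := (Finset.mem_filter.1 hX).2
          omega
      _ ≤ ∑ X ∈ P.powerset, 1 ^ X.card * 16 ^ (a - X.card) :=
          Finset.sum_le_sum_of_subset (Finset.filter_subset _ _)
      _ = 17 ^ a := by rw [h2]
  have h2 : N * 16 ^ a ≤ 17 ^ a * 16 ^ k := by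
    calc N * 16 ^ a = N * 16 ^ (a - k) * 16 ^ k := by
          rw [mul_assoc, ← pow_add, Nat.sub_add_cancel hka]
      _ ≤ 17 ^ a * 16 ^ k := Nat.mul_le_mul_right _ h1
  have h3 : (17 ^ a * 16 ^ k) ^ 8 ≤ 2 ^ (a + 32 * k) * (16 ^ a) ^ 8 := by
    have h4 : (17 ^ a) ^ 8 ≤ 2 ^ a * (16 ^ a) ^ 8 := by
      calc (17 ^ a) ^ 8 = (17 ^ 8) ^ a := by rw [← pow_mul, ← pow_mul, mul_comm]
        _ ≤ (2 * 16 ^ 8) ^ a := Nat.pow_le_pow_left (by norm_num) a
        _ = 2 ^ a * (16 ^ a) ^ 8 := by rw [mul_pow, ← pow_mul, ← pow_mul, mul_comm 8 a]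
    have h5 : (16 ^ k) ^ 8 = 2 ^ (32 * k) := by
      rw [show (16 : ℕ) = 2 ^ 4 by norm_num, ← pow_mul, ← pow_mul]
      congr 1
      ring
    calc (17 ^ a * 16 ^ k) ^ 8 = (17 ^ a) ^ 8 * (16 ^ k) ^ 8 := mul_pow _ _ _
      _ ≤ (2 ^ a * (16 ^ a) ^ 8) * 2 ^ (32 * k) := by
          rw [h5]
          exact Nat.mul_le_mul_right _ h4
      _ = 2 ^ (a + 32 * k) * (16 ^ a) ^ 8 := by
          rw [pow_add]
          ring
  have h4 : N ^ 8 * (16 ^ a) ^ 8 ≤ 2 ^ (a + 32 * k) * (16 ^ a) ^ 8 := by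
    rw [← mul_pow]
    exact (Nat.pow_le_pow_left h2 8).trans h3
  exact Nat.le_of_mul_le_mul_right h4 (by positivity)

theorem small_count {n a ly : ℕ} (hn : n = 2 * a) (ha : 192 * ly ≤ a) :
    2 ^ ly * ((range n).powerset.filter (fun I => 128 * (sideS a true I).card ≤ a ∧
      128 * (sideS a false I).card ≤ a)).card ≤ 2 ^ a := by
  set N := (((sideS a true (range n)).powerset.filter (fun X => 128 * X.card ≤ a)).card) with hN
  set N' := (((sideS a false (range n)).powerset.filter (fun X => 128 * X.card ≤ a)).card) with hN'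
  set Z := ((range n).powerset.filter (fun I => 128 * (sideS a true I).card ≤ a ∧
      128 * (sideS a false I).card ≤ a)).card with hZ
  have hc1 : (sideS a true (range n)).card = a := by
    have : sideS a true (range n) = range a := by
      ext v
      simp only [sideS, mem_filter, mem_range, decide_eq_true_eq]
      omega
    rw [this, card_range]
  have hc2 : (sideS a false (range n)).card = a := by
    have : sideS a false (range n) = Ico a (2 * a) := by
      ext v
      simp only [sideS, mem_filter, mem_range, decide_eq_false_iff_not, mem_Ico]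
      omega
    rw [this, Nat.card_Ico]
    omega
  have h1 : Z ≤ N * N' := by
    rw [hZ, hN, hN', ← card_product]
    refine card_le_card_of_injOn (fun I => (sideS a true I, sideS a false I)) ?_ ?_
    · intro I hI
      have hI' := mem_filter.1 (mem_coe.1 hI)
      rw [mem_coe, mem_product, mem_filter, mem_filter, mem_powerset, mem_powerset]
      have hs := mem_powerset.1 hI'.1
      exact ⟨⟨filter_subset_filter _ hs, hI'.2.1⟩, ⟨filter_subset_filter _ hs, hI'.2.2⟩⟩
    · intro I _ J _ hIJ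
      simp only [Prod.mk.injEq] at hIJ
      ext v
      by_cases hv : v < a
      · have h := congrArg (fun S => v ∈ S) hIJ.1
        simpa [sideS, hv] using h
      · have h := congrArg (fun S => v ∈ S) hIJ.2
        simpa [sideS, hv, not_lt.1 hv] using h
  have h2 := small_sub (sideS a true (range n)) hc1
  have h3 := small_sub (sideS a false (range n)) hc2
  rw [← hN] at h2
  rw [← hN'] at h3
  set k := a / 128 with hk
  have h4 : (2 ^ ly * Z) ^ 8 ≤ (2 ^ a) ^ 8 := by
    calc (2 ^ ly * Z) ^ 8 ≤ (2 ^ ly * (N * N')) ^ 8 :=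
          Nat.pow_le_pow_left (Nat.mul_le_mul_left _ h1) 8
      _ = (2 ^ ly) ^ 8 * (N ^ 8 * N' ^ 8) := by rw [mul_pow, mul_pow]
      _ ≤ (2 ^ ly) ^ 8 * (2 ^ (a + 32 * k) * 2 ^ (a + 32 * k)) :=
          Nat.mul_le_mul_left _ (Nat.mul_le_mul h2 h3)
      _ = 2 ^ (ly * 8 + ((a + 32 * k) + (a + 32 * k))) := by
          rw [← pow_mul, ← pow_add, ← pow_add]
      _ ≤ 2 ^ (a * 8) := Nat.pow_le_pow_right (by norm_num) (by omega)
      _ = (2 ^ a) ^ 8 := by rw [← pow_mul]
  exact (Nat.pow_le_pow_iff_left (by norm_num)).1 h4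

end Pool.Agent.Lib.Pa7c826e
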