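import Pool.Agent.Lib.Pa7c826e.EBB
import Pool.Agent.Lib.Pa7c826e.EGen
import Pool.Agent.Lib.Pa7c826e.ESmall

/-!
Independent sets that are large for both trees, and independent sets that are alive in both.

PROOFS. `cnt_bb`: let `S x y` be the set in `bb`. If `I` is counted and `x = x1 true I`,
`y = x1 false I`, then (`x1_spec`) `x ∈ lv1 true`, `y ∈ lv1 false` and `I` is disjoint from
`NB n adj x.2` and `NB n adj y.2`, so `I ⊆ S x y`. Hence the number of these `I` is at most
`∑_{x ∈ lv1 true, a < 4 wE x} ∑_{y ∈ lv1 false, a < 4 wE y} ind adj (S x y)` (sums over lists; for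
every `I` at least one pair of positions counts it; e.g. the indicator of `∃ x ∈ l, P x` is at most
the sum over `l`). Multiply by `2 ^ (ly + 4)`. Inner sum for fixed `x`: `lvT_weight` (for
`sd = false`) with `f y = (n + 1) ^ x.2.card * (2 ^ (ly + 4) * ind adj (S x y))` (or `0`) and
`B = 2 ^ a` (`bb`); outer sum: `lvT_weight` for `sd = true`, `B = 3 * 2 ^ a`. So
`2 ^ (ly + 4) * number ≤ 9 * 2 ^ a ≤ 16 * 2 ^ a`.

`cnt_both`: let `I` be counted, `x = x1 sd I`, `w = wE x`, `e = dfc x.1`. The path below `x` stays in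
subsets of `x.1` (`trk_mem`, `lvT_fst`/`lvw_sub`), so `e ≤ 48 ly` (`dfc_mono`). `T_le`-style (use
`exA` with the set `J` of `dfc_spec` for `x.1`): `|x.2| ≤ e`, and `w ≤ d |x.2|` (`nb_le`), so
`4 w ≤ 192 d ly ≤ a`. `exB` with `J` gives `A w ≤ 3 d e ≤ 144 d ly ≤ a`, so `384 w ≤ a` because
`384 ≤ A`. Finally `|sideS a sd I| ≤ |x.2| + 2 w ≤ 3 w` (`x1_spec`, `hall` for `x.2`), hence
`128 |sideS a sd I| ≤ a` for both sides, and `small_count` (`192 ly ≤ 192 d ly ≤ a`).
-/

namespace Pool.Agent.Lib.Pa7c826e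

open Finset Pool.Agent.Lib.Pa7c826 Pool.Agent.Lib.Pa7c826t

variable {n a d A lg ly : ℕ} {adj : ℕ → ℕ → Bool}

/-- counting by a list that covers -/
theorem ECntBBAux_list {α β : Type} [DecidableEq α] (F : β → Finset α) (l : List β) :
    ∀ Q : Finset α, (∀ I ∈ Q, ∃ x ∈ l, I ∈ F x) → Q.card ≤ (l.map (fun x => (F x).card)).sum := by
  induction l with
  | nil =>
    intro Q h
    have : Q = ∅ := by
      apply eq_empty_of_forall_notMem
      intro I hI
      obtain ⟨x, hx, _⟩ := h I hI
      simp at hx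
    rw [this]
    simp
  | cons x l ih =>
    intro Q h
    have h1 := ih (Q \ F x) (by
      intro I hI
      rw [mem_sdiff] at hI
      obtain ⟨y, hy, hy'⟩ := h I hI.1
      rw [List.mem_cons] at hy
      rcases hy with rfl | hy
      · exact absurd hy' hI.2
      · exact ⟨y, hy, hy'⟩)
    rw [List.map_cons, List.sum_cons]
    have h2 : Q.card ≤ (F x).card + (Q \ F x).card := by
      have h3 : Q ⊆ F x ∪ (Q \ F x) := by
        intro I hI
        rw [mem_union, mem_sdiff]
        by_cases hx : I ∈ F x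
        · exact Or.inl hx
        · exact Or.inr ⟨hI, hx⟩
      exact (card_le_card h3).trans (card_union_le _ _)
    omega

/-- multiplication of a sum over a list -/
theorem ECntBBAux_mul {β : Type} (c : ℕ) (f : β → ℕ) (l : List β) :
    c * (l.map f).sum = (l.map (fun x => c * f x)).sum := by
  rw [List.sum_map_mul_left]

/-- monotonicity of sums over lists -/
theorem ECntBBAux_le {β : Type} (f g : β → ℕ) (l : List β) (h : ∀ x ∈ l, f x ≤ g x) :
    (l.map f).sum ≤ (l.map g).sum := List.sum_le_sum h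

theorem cnt_bb (hh : XHost n a d A adj) (hlg : n + 1 ≤ 2 ^ lg) (hA : 100000 * lg ≤ A)
    (hly : 1 ≤ ly) (ha : 192 * d * ly ≤ a) :
    2 ^ ly * ((IS adj (range n)).filter (fun I => a < 4 * wE n adj (x1 n a d adj true I) ∧
      a < 4 * wE n adj (x1 n a d adj false I))).card ≤ 2 ^ a := by
  classical
  set Q := (IS adj (range n)).filter (fun I => a < 4 * wE n adj (x1 n a d adj true I) ∧
      a < 4 * wE n adj (x1 n a d adj false I)) with hQ
  set SS : Nd → Nd → Finset ℕ := fun x y =>
    (sideS a true (range n) \ NB n adj y.2) ∪ (sideS a false (range n) \ NB n adj x.2) with hSS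
  -- the sets over a pair of leaves
  have hmem : ∀ I ∈ IS adj (range n),
      I ∈ IS adj (SS (x1 n a d adj true I) (x1 n a d adj false I)) := by
    intro I hI
    obtain ⟨_, _, _, hx, _⟩ := x1_spec hh true hI
    obtain ⟨_, _, _, hy, _⟩ := x1_spec hh false hI
    rw [mem_IS] at hI ⊢
    refine ⟨fun v hv => ?_, hI.2⟩
    have hvn := hI.1 hv
    simp only [hSS]
    rw [mem_union, mem_sdiff, mem_sdiff]
    by_cases hva : v < a
    · left
      refine ⟨?_, Finset.disjoint_left.mp hy hv⟩
      unfold sideS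
      rw [mem_filter]
      exact ⟨hvn, by simp [hva]⟩
    · right
      refine ⟨?_, Finset.disjoint_left.mp hx hv⟩
      unfold sideS
      rw [mem_filter]
      exact ⟨hvn, by simp [hva]⟩
  set gg : Nd → Nd → ℕ := fun x y => if a < 4 * wE n adj y then ind adj (SS x y) else 0 with hgg
  set ff : Nd → ℕ := fun x => if a < 4 * wE n adj x then ((lv1 n a d adj false).map (gg x)).sum else 0
    with hff
  have hcount : Q.card ≤ ((lv1 n a d adj true).map ff).sum := by
    have h1 := ECntBBAux_list (fun x : Nd => Q.filter (fun I => x1 n a d adj true I = x))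
      (lv1 n a d adj true) Q (by
        intro I hI
        refine ⟨x1 n a d adj true I, ?_, ?_⟩
        · exact (x1_spec hh true (mem_filter.mp hI).1).1
        · rw [mem_filter]
          exact ⟨hI, rfl⟩)
    refine h1.trans (ECntBBAux_le _ _ _ fun x _ => ?_)
    simp only [hff]
    by_cases hx : a < 4 * wE n adj x
    · rw [if_pos hx]
      have h2 := ECntBBAux_list (fun y : Nd => if a < 4 * wE n adj y then IS adj (SS x y) else ∅)
        (lv1 n a d adj false) (Q.filter (fun I => x1 n a d adj true I = x)) (by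
          intro I hI
          rw [mem_filter, hQ, mem_filter] at hI
          obtain ⟨⟨hI1, hI2, hI3⟩, hI4⟩ := hI
          refine ⟨x1 n a d adj false I, (x1_spec hh false hI1).1, ?_⟩
          show I ∈ (if a < 4 * wE n adj (x1 n a d adj false I) then
            IS adj (SS x (x1 n a d adj false I)) else ∅)
          rw [if_pos hI3]
          have := hmem I hI1
          rwa [hI4] at this)
      refine h2.trans (ECntBBAux_le _ _ _ fun y _ => ?_)
      simp only [hgg]
      split_ifs with h
      · rw [card_IS]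
      · rw [card_empty]
    · rw [if_neg hx]
      have : Q.filter (fun I => x1 n a d adj true I = x) = ∅ := by
        apply eq_empty_of_forall_notMem
        intro I hI
        rw [mem_filter, hQ, mem_filter] at hI
        obtain ⟨⟨_, hI2, _⟩, hI4⟩ := hI
        rw [hI4] at hI2
        exact hx hI2
      rw [this, card_empty]
  -- the weights
  have hin : ∀ x ∈ lv1 n a d adj true, (n + 1) ^ x.2.card * (2 ^ (ly + 4) * ff x) ≤ 3 * 2 ^ a := by
    intro x hx
    simp only [hff]
    by_cases hw : a < 4 * wE n adj x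
    · rw [if_pos hw]
      have h1 : (n + 1) ^ x.2.card * (2 ^ (ly + 4) * ((lv1 n a d adj false).map (gg x)).sum) =
          ((lv1 n a d adj false).map
            (fun y => (n + 1) ^ x.2.card * (2 ^ (ly + 4) * gg x y))).sum := by
        rw [ECntBBAux_mul, ECntBBAux_mul]
      rw [h1]
      refine lvT_weight (subset_refl _) le_rfl _ _ fun y hy => ?_
      simp only [hgg]
      by_cases hw' : a < 4 * wE n adj y
      · rw [if_pos hw']
        exact bb hh hlg hA hly ha hx hy hw hw'
      · rw [if_neg hw']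
        simp
    · rw [if_neg hw]
      simp
  have hout := lvT_weight (n := n) (m := d) (g := 2) (ad := adS a true adj) (S₀ := range n)
    (subset_refl _) (t := n) le_rfl (fun x => 2 ^ (ly + 4) * ff x) (3 * 2 ^ a) hin
  rw [← ECntBBAux_mul] at hout
  have h5 : 2 ^ (ly + 4) * Q.card ≤ 3 * (3 * 2 ^ a) := (Nat.mul_le_mul_left _ hcount).trans hout
  have h6 : 2 ^ (ly + 4) * Q.card = 16 * (2 ^ ly * Q.card) := by
    rw [pow_add]
    ring
  rw [h6] at h5
  omega

theorem ECntBBAux_side (hh : XHost n a d A adj) (hA : 384 ≤ A) (ha : 192 * d * ly ≤ a)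
    (sd : Bool) {I : Finset ℕ} (hI : I ∈ IS adj (range n))
    (h : dfc n a adj (x2 n a d adj sd I).1 ≤ 48 * ly) : 128 * (sideS a sd I).card ≤ a := by
  obtain ⟨hx, _, _, _, hcard⟩ := x1_spec hh sd hI
  set x := x1 n a d adj sd I with hxdef
  obtain ⟨hp1, hp2, hp3, hp4, _, _⟩ := p1_props hh sd n x hx
  have hx2 : x2 n a d adj sd I ∈ lvT n d 2 adj x n := trk_mem I x n
  have hsub := (lvT_props (n := n) (m := d) (g := 2) (ad := adj) hp3 n _ hx2).1
  have he : dfc n a adj x.1 ≤ 48 * ly := (dfc_mono hh hp1 hsub).trans h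
  set e := dfc n a adj x.1 with hedef
  obtain ⟨_, J, hJ, hJI, hJe⟩ := dfc_spec hh hp1
  have hJn : J ⊆ range n := hJ.trans hp1
  have hJ1 : Disjoint J (NB n adj x.2) := disjoint_of_subset_left hJ hp4
  have hJ2 : Disjoint J x.2 := disjoint_of_subset_left hJ hp3
  have h1 := exA hh hp2 hJn hJI hJ1 hJ2
  have hT : x.2.card ≤ e := by omega
  have hx2n : x.2 ⊆ range n := hp2.trans (filter_subset _ _)
  have h2 := nb_le hh hx2n
  have h3 : wE n adj x = (NB n adj x.2).card := rfl
  have hw1 : wE n adj x ≤ d * (48 * ly) :=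
    (h3 ▸ h2).trans (Nat.mul_le_mul_left _ (hT.trans he))
  have hw4 : 4 * wE n adj x ≤ a := by
    have : 4 * (d * (48 * ly)) = 192 * d * ly := by ring
    omega
  have h4 : (sideS a sd J).card ≤ 2 * (NB n adj x.2).card := by
    have h5 : sideS a sd J ⊆ sideS a sd x.1 := filter_subset_filter _ hJ
    exact (card_le_card h5).trans (p1_card hh sd x hx)
  have h6 := exB hh hp2 hJn hJI hJ1 h4 hw4
  have h7 : A * wE n adj x ≤ 3 * d * e := by
    have h8 : 3 * d * a = 3 * d * J.card + 3 * d * e := by
      rw [← mul_add, hJe]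
    rw [h3]
    omega
  have h9 : 3 * d * e ≤ 3 * d * (48 * ly) := Nat.mul_le_mul_left _ he
  have h10 : 3 * d * (48 * ly) ≤ a := by
    have h11 : 3 * d * (48 * ly) = 144 * (d * ly) := by ring
    have h12 : 192 * d * ly = 192 * (d * ly) := by ring
    omega
  have h13 : 384 * wE n adj x ≤ A * wE n adj x := Nat.mul_le_mul_right _ hA
  have h14 := hall hh hp2
  rw [← h3] at h14
  omega

theorem cnt_both (hh : XHost n a d A adj) (hA : 384 ≤ A) (ha : 192 * d * ly ≤ a) :
    2 ^ ly * ((IS adj (range n)).filter (fun I =>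
      dfc n a adj (x2 n a d adj true I).1 ≤ 48 * ly ∧
      dfc n a adj (x2 n a d adj false I).1 ≤ 48 * ly)).card ≤ 2 ^ a := by
  have h1 : 192 * ly ≤ a := by
    have h2 : 192 * ly * 1 ≤ 192 * ly * d := Nat.mul_le_mul_left _ hh.hd
    have h3 : 192 * ly * d = 192 * d * ly := by ring
    omega
  refine le_trans (Nat.mul_le_mul_left _ (card_le_card ?_)) (small_count hh.hn h1)
  intro I hI
  rw [mem_filter] at hI
  rw [mem_filter, mem_powerset]
  exact ⟨(mem_IS.mp hI.1).1, ECntBBAux_side hh hA ha true hI.1 hI.2.1,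
    ECntBBAux_side hh hA ha false hI.1 hI.2.2⟩

end Pool.Agent.Lib.Pa7c826e
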