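import Pool.Agent.Lib.Pa7c826e.EPA
import Pool.Agent.Lib.Pa7c826e.EP2

/-!
Weights of the leaves of the first phase.

PROOFS. `T_le`, `A_le`: let `J ⊆ S` be the independent set of `dfc_spec`, `|J| + dfc S = a`; it is
disjoint from `NB n adj x.2` and from `x.2` (`p1_props`), and `x.2 ⊆ sideS a sd (range n)`; apply
`exA`, resp. `exB` (`sideS a sd J ⊆ sideS a sd x.1` has at most `2 w` elements by `p1_card`).

`dead1`: let `w = wE n adj x`. If `x.2 = ∅` then `x.1` is a side (`p1_empty`), and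
`ind adj x.1 ≤ 2 ^ a` (all subsets, `card_side`; `x.2.card = 0`). Otherwise `d ≤ w` (`p1_ge`). Use
`ph2` with `q = fun _ => true` (then the sum is `ind adj x.1`, `sum_ind_lvw` in
`Pa7c826t/ApproxT.lean`), `M = (n + 1) ^ x.2.card ≤ 2 ^ μ`, `μ = lg * x.2.card`, `H = 2 (w / d + 1)`
(`|sideS a sd x.1| ≤ 2 w ≤ d H`), `G = 4 w / d` (`steps_leaf`, `p1_light`, `p1_card`:
`d y.2 ≤ 2 |sideS a sd x.1| ≤ 4 w`). For a leaf `y` (`y.1 ⊆ x.1`) `A_le` gives
`A w ≤ 3 d dfc y.1`, so `d dfc y.1 ≥ 33333 lg w`, while (`d |x.2| ≤ 2 w`, `d H ≤ 2 w + 2 d ≤ 4 w`,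
`d G ≤ 4 w`) `d * 24 (μ + 2 H + 5 G) ≤ 24 (2 lg w + 8 w + 20 w) ≤ 720 lg w`; cancel `d`.
`dead2`: the same with `M = (n + 1) ^ x.2.card * 2 ^ ly`, `μ = lg * x.2.card + ly` and
`q S = decide (48 ly < dfc S)`: `24 ly ≤ dfc y.1 / 2`. If `x.2 = ∅`, then `x.1` is a side, there
are no edges inside it, all leaves `y` have `y.1 = x.1` or at least `dfc y.1 = 0`: no vertex is heavy
(`dg = 0 < d`), so `lvw n d 2 adj x.1 n = [(x.1, 0)]`, and `dfc` of a side is `0` (`indep_nu` and
`card_side`), so the filtered list is empty.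
-/

namespace Pool.Agent.Lib.Pa7c826e

open Finset Pool.Agent.Lib.Pa7c826 Pool.Agent.Lib.Pa7c826t

variable {n a d A lg ly : ℕ} {adj : ℕ → ℕ → Bool}

theorem T_le (hh : XHost n a d A adj) {sd : Bool} {x : Nd} (hx : x ∈ lv1 n a d adj sd)
    {S : Finset ℕ} (hS : S ⊆ x.1) : x.2.card ≤ dfc n a adj S := by
  obtain ⟨h1, h2, h3, h4, _, _⟩ := p1_props hh sd n x hx
  obtain ⟨_, J, hJ, hI, hc⟩ := dfc_spec hh (hS.trans h1)
  have h := exA hh h2 (hJ.trans (hS.trans h1)) hI
    (disjoint_of_subset_left (hJ.trans hS) h4) (disjoint_of_subset_left (hJ.trans hS) h3)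
  omega

theorem A_le (hh : XHost n a d A adj) {sd : Bool} {x : Nd} (hx : x ∈ lv1 n a d adj sd)
    (hw : 4 * wE n adj x ≤ a) {S : Finset ℕ} (hS : S ⊆ x.1) :
    A * wE n adj x ≤ 3 * d * dfc n a adj S := by
  obtain ⟨h1, h2, _, h4, _, _⟩ := p1_props hh sd n x hx
  obtain ⟨_, J, hJ, hI, hc⟩ := dfc_spec hh (hS.trans h1)
  have h5 : (sideS a sd J).card ≤ 2 * (NB n adj x.2).card := by
    refine le_trans (card_le_card ?_) (p1_card hh sd x hx)
    exact filter_subset_filter _ (hJ.trans hS)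
  have h := exB hh h2 (hJ.trans (hS.trans h1)) hI
    (disjoint_of_subset_left (hJ.trans hS) h4) h5 hw
  have h6 : 3 * d * J.card + 3 * d * dfc n a adj S = 3 * d * a := by
    rw [← Nat.mul_add, hc]
  unfold wE
  omega

/-- the numerical estimates for the leaves below a node of the first phase -/
theorem EDead_num (hh : XHost n a d A adj) (hlg : n + 1 ≤ 2 ^ lg) (hA : 100000 * lg ≤ A)
    {sd : Bool} {x : Nd} (hx : x ∈ lv1 n a d adj sd) (hw : 4 * wE n adj x ≤ a)
    (hne : x.2 ≠ ∅) :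
    (sideS a sd x.1).card ≤ d * (2 * (wE n adj x / d + 1)) ∧
    (∀ y ∈ lvw n d 2 adj x.1 n, y.2 ≤ 4 * wE n adj x / d) ∧
    (n + 1) ^ x.2.card ≤ 2 ^ (lg * x.2.card) ∧
    ∀ y ∈ lvw n d 2 adj x.1 n,
      48 * (lg * x.2.card + 2 * (2 * (wE n adj x / d + 1)) + 5 * (4 * wE n adj x / d)) ≤
        dfc n a adj y.1 := by
  obtain ⟨h1, h2, _, h4, _, h6⟩ := p1_props hh sd n x hx
  have hd := hh.hd
  have hdw : d ≤ wE n adj x := p1_ge hh sd x hx hne
  have hc := p1_card hh sd x hx
  have hst := steps_leaf hh h1 (p1_light hh sd x hx) n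
  have h6' : d * x.2.card ≤ 2 * wE n adj x := h6
  set w := wE n adj x with hwdef
  have hlg1 : 1 ≤ lg := by
    rcases Nat.eq_zero_or_pos lg with h | h
    · exfalso
      rw [h, pow_zero] at hlg
      obtain ⟨v, hv⟩ := nonempty_iff_ne_empty.2 hne
      have hv2 := (mem_filter.1 (h2 hv)).1
      rw [mem_range] at hv2
      omega
    · exact h
  have hq1 : d * (w / d) ≤ w := Nat.mul_div_le _ _
  have hq2 : w < d * (w / d + 1) := Nat.lt_mul_div_succ w hd
  have hq3 : d * (4 * w / d) ≤ 4 * w := Nat.mul_div_le _ _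
  refine ⟨?_, ?_, ?_, ?_⟩
  · calc (sideS a sd x.1).card ≤ 2 * w := hc
      _ ≤ 2 * (d * (w / d + 1)) := by omega
      _ = d * (2 * (w / d + 1)) := by ring
  · intro y hy
    rw [Nat.le_div_iff_mul_le hd]
    have := (hst y hy).2
    rw [mul_comm]
    omega
  · calc (n + 1) ^ x.2.card ≤ (2 ^ lg) ^ x.2.card := Nat.pow_le_pow_left hlg _
      _ = 2 ^ (lg * x.2.card) := by rw [← pow_mul]
  · intro y hy
    have hA2 := A_le hh hx hw (hst y hy).1
    rw [← hwdef] at hA2
    set D := dfc n a adj y.1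
    have e1 : 100000 * (lg * w) ≤ 3 * (d * D) := by
      calc 100000 * (lg * w) = (100000 * lg) * w := by ring
        _ ≤ A * w := Nat.mul_le_mul_right _ hA
        _ ≤ 3 * d * D := hA2
        _ = 3 * (d * D) := by ring
    have e2 : d * (48 * (lg * x.2.card + 2 * (2 * (w / d + 1)) + 5 * (4 * w / d))) ≤
        1440 * (lg * w) := by
      have a1 : lg * (d * x.2.card) ≤ lg * (2 * w) := Nat.mul_le_mul_left _ h6'
      have a2 : w ≤ lg * w := Nat.le_mul_of_pos_left _ hlg1
      calc d * (48 * (lg * x.2.card + 2 * (2 * (w / d + 1)) + 5 * (4 * w / d)))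
          = 48 * (lg * (d * x.2.card)) + 192 * (d * (w / d)) + 192 * d +
            240 * (d * (4 * w / d)) := by ring
        _ ≤ 48 * (lg * (2 * w)) + 192 * w + 192 * w + 240 * (4 * w) := by
            gcongr
        _ = 96 * (lg * w) + 1344 * w := by ring
        _ ≤ 96 * (lg * w) + 1344 * (lg * w) := by omega
        _ = 1440 * (lg * w) := by ring
    have e3 : d * (48 * (lg * x.2.card + 2 * (2 * (w / d + 1)) + 5 * (4 * w / d))) ≤ d * D := by
      omega
    exact Nat.le_of_mul_le_mul_left e3 hd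

theorem dead1 (hh : XHost n a d A adj) (hlg : n + 1 ≤ 2 ^ lg) (hA : 100000 * lg ≤ A)
    {sd : Bool} {x : Nd} (hx : x ∈ lv1 n a d adj sd) (hw : 4 * wE n adj x ≤ a) :
    (n + 1) ^ x.2.card * ind adj x.1 ≤ 2 ^ a := by
  by_cases hne : x.2 = ∅
  · rw [hne, card_empty, pow_zero, one_mul, p1_empty hh sd x hx hne]
    refine le_trans (card_filter_le _ _) ?_
    rw [card_powerset, card_side hh.hn]
  · obtain ⟨h1, _⟩ := p1_props hh sd n x hx
    obtain ⟨k1, k2, k3, k4⟩ := EDead_num hh hlg hA hx hw hne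
    have h := ph2 hh h1 k1 k2 (fun _ => true) k3 (fun y hy _ => by
      have := k4 y hy
      omega)
    rw [List.filter_true, sum_ind_lvw hh.sym hh.irr h1] at h
    exact h

theorem EDead_side_leaf (hh : XHost n a d A adj) (sd : Bool) (t : ℕ) :
    lvw n d 2 adj (sideS a sd (range n)) t = [(sideS a sd (range n), 0)] := by
  have hd := hh.hd
  have hno : anyH n d 2 adj (sideS a sd (range n)) = false := by
    have hsub : sideS a sd (range n) ⊆ range n := filter_subset _ _
    rw [← Bool.not_eq_true, anyH_iff hsub]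
    rintro ⟨u, hu⟩
    unfold hvy at hu
    simp only [Bool.and_eq_true, decide_eq_true_eq] at hu
    have h0 : dg adj (sideS a sd (range n)) u = 0 := by
      unfold dg
      rw [card_eq_zero, filter_eq_empty_iff]
      intro v hv huv
      have h1 := (mem_filter.1 hu.1).2
      have h2 := (mem_filter.1 hv).2
      have h3 := hh.bip u v huv
      rw [← h2] at h1
      rw [decide_eq_decide] at h1
      rw [h1] at h3
      exact (iff_not_self h3)
    omega
  induction t with
  | zero => rfl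
  | succ t ih =>
    simp only [lvw]
    rw [ih]
    simp only [List.flatMap_cons, List.flatMap_nil, List.append_nil]
    unfold kidsw
    rw [hno]
    rfl

theorem EDead_dfc_side (hh : XHost n a d A adj) (sd : Bool) :
    dfc n a adj (sideS a sd (range n)) = 0 := by
  have h := indep_nu (n := n) (a := a) (S := sideS a sd (range n)) (filter_subset _ _)
    hh.sym hh.bip subset_rfl (fun u hu v hv => by
      by_contra huv
      rw [Bool.not_eq_false] at huv
      have h1 := (mem_filter.1 hu).2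
      have h2 := (mem_filter.1 hv).2
      have h3 := hh.bip u v huv
      rw [← h2] at h1
      rw [decide_eq_decide] at h1
      rw [h1] at h3
      exact (iff_not_self h3))
  have h2 := card_side hh.hn sd
  unfold dfc
  omega

theorem dead2 (hh : XHost n a d A adj) (hlg : n + 1 ≤ 2 ^ lg) (hA : 100000 * lg ≤ A)
    {sd : Bool} {x : Nd} (hx : x ∈ lv1 n a d adj sd) (hw : 4 * wE n adj x ≤ a) :
    (n + 1) ^ x.2.card * (2 ^ ly * ((((lvw n d 2 adj x.1 n).map Prod.fst).filter
      (fun S => decide (48 * ly < dfc n a adj S))).map (ind adj)).sum) ≤ 2 ^ a := by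
  by_cases hne : x.2 = ∅
  · rw [p1_empty hh sd x hx hne, EDead_side_leaf hh]
    simp [EDead_dfc_side hh]
  · obtain ⟨h1, _⟩ := p1_props hh sd n x hx
    obtain ⟨k1, k2, k3, k4⟩ := EDead_num hh hlg hA hx hw hne
    have h := ph2 hh h1 k1 k2 (fun S => decide (48 * ly < dfc n a adj S))
      (M := (n + 1) ^ x.2.card * 2 ^ ly) (μ := lg * x.2.card + ly)
      (by
        rw [pow_add]
        exact Nat.mul_le_mul_right _ k3) (fun y hy hq => by
      have := k4 y hy
      rw [decide_eq_true_eq] at hq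
      omega)
    rw [Nat.mul_assoc] at h
    exact h

end Pool.Agent.Lib.Pa7c826e
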