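import Pool.Agent.Lib.Pa7c826e.EDef

/-!
Independent sets of regular bipartite expanders.

PROOFS. `card_side`: `range (2 a)` has `a` elements below `a` and `a` others. `nb_side`: `bip`.
`nb_le`: union bound with `reg`. `hall`: the `d |X|` edges at `X` end in `NB X`, at most `d` at each
vertex; cancel `d ≥ 1`. `indep_le`: `J = J₁ ∪ J₂` (left, right part), `NB J₁` is contained in the
right side and disjoint from `J₂`, so `|J₂| ≤ a - |NB J₁| ≤ a - |J₁|`. `exA`: let
`X = sideS a sd J ∪ T` (disjoint union); `NB X` is contained in the side `!sd` and disjoint from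
`sideS a (!sd) J` (independence, and `J` is disjoint from `NB T`), so
`|sideS a (!sd) J| ≤ a - |NB X| ≤ a - |X|`. `exB`: let `j = |sideS a sd J|`, `w = |NB T|`. As
before `|J| ≤ a + j - |NB X|`, and `|NB X| ≥ w`, `d |NB X| ≥ d |NB (sideS a sd J)| ≥ (d + A) j`
(`exp`, as `2 j ≤ 4 w ≤ a`). So with `e = a - |J|`: `e ≥ w - j` and `d e ≥ A j`; hence
`(d + A) e ≥ A e + A j ≥ A w`, and `d + A ≤ 3 d`. `exC`: let `j₁, j₂` be the sizes of the two parts;
one of them, say `j₁` on the side `s`, has `2 j₁ ≤ a` (`indep_le`). Then with `e = a - |J|`,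
`d e ≥ A j₁` (as before) and `e ≥ a - j₁ - 3 a / 4`, i.e. `4 e + 4 j₁ ≥ a`; so
`4 (d + A) e ≥ 4 A e + 4 A j₁ ≥ A a` and `4 (d + A) ≤ 12 d ≤ 16 d`.
`dfc_spec`: `nu_indep` gives an independent `J ⊆ S` with `|J| + nu = |S|`, and `|J| ≤ a`.
`dfc_mono`: `nu_mono`. `dfc_range`: `indep_nu` for a whole side (`card_side`), and `dfc_spec`.
`pow_le_ind`: the subsets of the set `J` of `dfc_spec`, or `two_pow_le_ind_nu`.
-/

namespace Pool.Agent.Lib.Pa7c826e

open Finset Pool.Agent.Lib.Pa7c826 Pool.Agent.Lib.Pa7c826t

variable {n a d A : ℕ} {adj : ℕ → ℕ → Bool}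

theorem card_side (hn : n = 2 * a) (sd : Bool) : (sideS a sd (range n)).card = a := by
  subst hn
  cases sd with
  | true =>
    have h : sideS a true (range (2 * a)) = range a := by
      ext v
      simp only [sideS, mem_filter, mem_range, decide_eq_true_eq]
      omega
    rw [h, card_range]
  | false =>
    have h : sideS a false (range (2 * a)) = Ico a (2 * a) := by
      ext v
      simp only [sideS, mem_filter, mem_range, decide_eq_false_iff_not, mem_Ico]
      omega
    rw [h, Nat.card_Ico]
    omega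

theorem nb_side (hh : XHost n a d A adj) {sd : Bool} {X : Finset ℕ}
    (hX : X ⊆ sideS a sd (range n)) : NB n adj X ⊆ sideS a (!sd) (range n) := by
  intro v hv
  simp only [NB, mem_filter] at hv
  obtain ⟨hv, u, hu, huv⟩ := hv
  have h1 := hX hu
  have h2 := hh.bip u v huv
  simp only [sideS, mem_filter] at h1 ⊢
  refine ⟨hv, ?_⟩
  obtain ⟨_, h3⟩ := h1
  cases sd with
  | true =>
    simp only [decide_eq_true_eq] at h3
    simpa using h2.1 h3
  | false =>
    simp only [decide_eq_false_iff_not] at h3
    simp only [Bool.not_false, decide_eq_true_eq]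
    by_contra h4
    exact h3 (h2.2 h4)

theorem nb_le (hh : XHost n a d A adj) {X : Finset ℕ} (hX : X ⊆ range n) :
    (NB n adj X).card ≤ d * X.card := by
  classical
  have h1 : NB n adj X ⊆ X.biUnion (fun u => (range n).filter (fun v => adj u v = true)) := by
    intro v hv
    simp only [NB, mem_filter] at hv
    obtain ⟨hv, u, hu, huv⟩ := hv
    rw [mem_biUnion]
    exact ⟨u, hu, mem_filter.2 ⟨hv, huv⟩⟩
  refine (card_le_card h1).trans (card_biUnion_le.trans ?_)
  have h2 : ∀ u ∈ X, ((range n).filter (fun v => adj u v = true)).card = d := fun u hu =>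
    hh.reg u (mem_range.1 (hX hu))
  rw [sum_congr rfl h2, sum_const, smul_eq_mul, Nat.mul_comm]

theorem hall (hh : XHost n a d A adj) {sd : Bool} {X : Finset ℕ}
    (hX : X ⊆ sideS a sd (range n)) : X.card ≤ (NB n adj X).card := by
  classical
  have hXr : X ⊆ range n := hX.trans (filter_subset _ _)
  have h1 : X.card * d ≤ (NB n adj X).card * d := by
    refine card_mul_le_card_mul (fun u v => adj u v = true) ?_ ?_
    · intro u hu
      have h2 := hh.reg u (mem_range.1 (hXr hu))
      rw [← h2]
      unfold dg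
      apply card_le_card
      intro v hv
      rw [mem_filter] at hv
      rw [mem_bipartiteAbove]
      refine ⟨?_, hv.2⟩
      simp only [NB, mem_filter]
      exact ⟨hv.1, u, hu, hv.2⟩
    · intro v hv
      simp only [NB, mem_filter] at hv
      rw [← hh.reg v (mem_range.1 hv.1)]
      unfold dg
      apply card_le_card
      intro u hu
      rw [mem_bipartiteBelow] at hu
      rw [mem_filter]
      exact ⟨hXr hu.1, by rw [hh.sym]; exact hu.2⟩
  exact Nat.le_of_mul_le_mul_right h1 hh.hd

namespace EExpAux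

theorem card_split (sd : Bool) (J : Finset ℕ) :
    (sideS a sd J).card + (sideS a (!sd) J).card = J.card := by
  classical
  unfold sideS
  rw [← card_filter_add_card_filter_not (s := J) (fun v => decide (v < a) = sd)]
  congr 2
  apply filter_congr
  intro v _
  cases sd <;> simp

theorem nb_mono {X Y : Finset ℕ} (h : X ⊆ Y) : NB n adj X ⊆ NB n adj Y := by
  intro v hv
  simp only [NB, mem_filter] at hv ⊢
  obtain ⟨hv, u, hu, huv⟩ := hv
  exact ⟨hv, u, h hu, huv⟩

theorem side_sub {sd : Bool} {J : Finset ℕ} (hJ : J ⊆ range n) :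
    sideS a sd J ⊆ sideS a sd (range n) := filter_subset_filter _ hJ

theorem core (hh : XHost n a d A adj) {sd : Bool} {T J : Finset ℕ}
    (hT : T ⊆ sideS a sd (range n)) (hJ : J ⊆ range n)
    (hI : ∀ u ∈ J, ∀ v ∈ J, adj u v = false) (h1 : Disjoint J (NB n adj T)) :
    (sideS a (!sd) J).card + (NB n adj (sideS a sd J ∪ T)).card ≤ a := by
  classical
  have hX : sideS a sd J ∪ T ⊆ sideS a sd (range n) := union_subset (side_sub hJ) hT
  have hdis : Disjoint (sideS a (!sd) J) (NB n adj (sideS a sd J ∪ T)) := by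
    rw [disjoint_left]
    intro v hv hv2
    have hvJ : v ∈ J := (mem_filter.1 hv).1
    simp only [NB, mem_filter] at hv2
    obtain ⟨hvn, u, hu, huv⟩ := hv2
    rcases mem_union.1 hu with hu | hu
    · have := hI u (mem_filter.1 hu).1 v hvJ
      rw [huv] at this
      exact absurd this (by simp)
    · refine (disjoint_left.1 h1) hvJ ?_
      simp only [NB, mem_filter]
      exact ⟨hvn, u, hu, huv⟩
  rw [← card_union_of_disjoint hdis]
  refine (card_le_card (union_subset (side_sub hJ) (nb_side hh hX))).trans ?_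
  rw [card_side hh.hn]

theorem core0 (hh : XHost n a d A adj) (sd : Bool) {J : Finset ℕ} (hJ : J ⊆ range n)
    (hI : ∀ u ∈ J, ∀ v ∈ J, adj u v = false) :
    (sideS a (!sd) J).card + (NB n adj (sideS a sd J)).card ≤ a := by
  have h := core hh (sd := sd) (T := ∅) (empty_subset _) hJ hI (by
    have : NB n adj ∅ = ∅ := by
      ext v
      simp [NB]
    rw [this]
    exact disjoint_empty_right _)
  rwa [union_empty] at h

end EExpAux

open EExpAux

theorem indep_le (hh : XHost n a d A adj) {J : Finset ℕ} (hJ : J ⊆ range n)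
    (hI : ∀ u ∈ J, ∀ v ∈ J, adj u v = false) : J.card ≤ a := by
  have h1 := core0 hh true hJ hI
  have h2 := hall hh (side_sub (a := a) (sd := true) hJ)
  have h3 := card_split (a := a) true J
  omega

theorem exA (hh : XHost n a d A adj) {sd : Bool} {T J : Finset ℕ}
    (hT : T ⊆ sideS a sd (range n)) (hJ : J ⊆ range n)
    (hI : ∀ u ∈ J, ∀ v ∈ J, adj u v = false) (h1 : Disjoint J (NB n adj T))
    (h2 : Disjoint J T) : J.card + T.card ≤ a := by
  classical
  have h3 := core hh hT hJ hI h1
  have hX : sideS a sd J ∪ T ⊆ sideS a sd (range n) := union_subset (side_sub hJ) hT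
  have h4 := hall hh hX
  have h5 := card_split (a := a) sd J
  have h6 : Disjoint (sideS a sd J) T := disjoint_of_subset_left (filter_subset _ _) h2
  rw [card_union_of_disjoint h6] at h4
  omega

theorem exB (hh : XHost n a d A adj) {sd : Bool} {T J : Finset ℕ}
    (hT : T ⊆ sideS a sd (range n)) (hJ : J ⊆ range n)
    (hI : ∀ u ∈ J, ∀ v ∈ J, adj u v = false) (h1 : Disjoint J (NB n adj T))
    (h3 : (sideS a sd J).card ≤ 2 * (NB n adj T).card) (h4 : 4 * (NB n adj T).card ≤ a) :
    A * (NB n adj T).card + 3 * d * J.card ≤ 3 * d * a := by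
  classical
  have c1 := core hh hT hJ hI h1
  have c2 := card_split (a := a) sd J
  have c3 := indep_le hh hJ hI
  have c4 := hh.exp sd (sideS a sd J) (side_sub hJ) (by omega)
  have c5 : (NB n adj (sideS a sd J)).card ≤ (NB n adj (sideS a sd J ∪ T)).card :=
    card_le_card (nb_mono subset_union_left)
  have c6 : (NB n adj T).card ≤ (NB n adj (sideS a sd J ∪ T)).card :=
    card_le_card (nb_mono subset_union_right)
  obtain ⟨e, he⟩ := Nat.exists_eq_add_of_le c3
  set j := (sideS a sd J).card with hj
  set w := (NB n adj T).card with hw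
  set N := (NB n adj (sideS a sd J ∪ T)).card with hN
  set k := (sideS a (!sd) J).card with hk
  have hA := hh.hA
  have d1 : N ≤ j + e := by omega
  have d2 : (d + A) * j ≤ d * (j + e) :=
    c4.trans (Nat.mul_le_mul_left d (c5.trans d1))
  have d3 : A * w ≤ A * (j + e) := Nat.mul_le_mul_left A (c6.trans d1)
  have d4 : A * e ≤ 2 * d * e := Nat.mul_le_mul_right e hA
  rw [he]
  nlinarith

theorem exC (hh : XHost n a d A adj) {J : Finset ℕ} (hJ : J ⊆ range n)
    (hI : ∀ u ∈ J, ∀ v ∈ J, adj u v = false) (h1 : 4 * (sideS a true J).card ≤ 3 * a)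
    (h2 : 4 * (sideS a false J).card ≤ 3 * a) :
    A * a + 16 * d * J.card ≤ 16 * d * a := by
  classical
  have key : ∀ sd : Bool, 2 * (sideS a sd J).card ≤ a → 4 * (sideS a (!sd) J).card ≤ 3 * a →
      A * a + 16 * d * J.card ≤ 16 * d * a := by
    intro sd g1 g2
    have c1 := core0 hh sd hJ hI
    have c2 := card_split (a := a) sd J
    have c3 := indep_le hh hJ hI
    have c4 := hh.exp sd (sideS a sd J) (side_sub hJ) g1
    obtain ⟨e, he⟩ := Nat.exists_eq_add_of_le c3
    set j := (sideS a sd J).card with hj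
    set N := (NB n adj (sideS a sd J)).card with hN
    set k := (sideS a (!sd) J).card with hk
    have hA := hh.hA
    have d1 : N ≤ j + e := by omega
    have d2 : (d + A) * j ≤ d * (j + e) := c4.trans (Nat.mul_le_mul_left d d1)
    have d3 : A * a ≤ A * (4 * (j + e)) := Nat.mul_le_mul_left A (by omega)
    have d4 : A * e ≤ 2 * d * e := Nat.mul_le_mul_right e hA
    have d5 : A * a + 16 * d * J.card ≤ 16 * d * (J.card + e) := by nlinarith
    rwa [← he] at d5
  have c2 := card_split (a := a) true J
  have c3 := indep_le hh hJ hI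
  rw [Bool.not_true] at c2
  rcases le_total (sideS a true J).card (sideS a false J).card with h | h
  · exact key true (by omega) h2
  · exact key false (by omega) h1

theorem dfc_spec (hh : XHost n a d A adj) {S : Finset ℕ} (hS : S ⊆ range n) :
    S.card ≤ nu n a adj S + a ∧ ∃ J ⊆ S, (∀ u ∈ J, ∀ v ∈ J, adj u v = false) ∧
      J.card + dfc n a adj S = a := by
  obtain ⟨J, hJ, hc, hI⟩ := nu_indep hS hh.sym hh.bip
  have h1 := indep_le hh (hJ.trans hS) hI
  refine ⟨by omega, J, hJ, hI, ?_⟩
  unfold dfc
  omega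

theorem dfc_mono (hh : XHost n a d A adj) {S T : Finset ℕ} (hS : S ⊆ range n) (hT : T ⊆ S) :
    dfc n a adj S ≤ dfc n a adj T := by
  have h := nu_mono hS hh.sym hh.bip hT
  unfold dfc
  omega

theorem dfc_range (hh : XHost n a d A adj) : dfc n a adj (range n) = 0 := by
  have h1 := card_side hh.hn true
  have h2 := indep_nu (J := sideS a true (range n)) (subset_refl (range n)) hh.sym hh.bip
    (filter_subset _ _) (by
      intro u hu v hv
      simp only [sideS, mem_filter, decide_eq_true_eq] at hu hv
      by_contra h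
      rw [Bool.not_eq_false] at h
      exact (hh.bip u v h).1 hu.2 hv.2)
  have h3 := hh.hn
  rw [h1, card_range] at h2
  unfold dfc
  rw [card_range]
  omega

theorem pow_le_ind (hh : XHost n a d A adj) {S : Finset ℕ} (hS : S ⊆ range n) :
    2 ^ a ≤ 2 ^ dfc n a adj S * ind adj S := by
  have h1 := two_pow_le_ind_nu hS hh.sym hh.bip
  have h2 := nu_le hS hh.sym hh.bip
  have h3 := (dfc_spec hh hS).1
  have h4 : a = dfc n a adj S + (S.card - nu n a adj S) := by
    unfold dfc
    omega
  calc 2 ^ a = 2 ^ dfc n a adj S * 2 ^ (S.card - nu n a adj S) := by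
        rw [← pow_add, ← h4]
    _ ≤ _ := Nat.mul_le_mul_left _ h1

end Pool.Agent.Lib.Pa7c826e
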