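import Pool.Agent.Lib.Pa7c826e.ETrk

/-!
The leaves of the first phase.

The tree branches on vertices `v` of the side `sd` with `d ≤ 2 dg adj S v`. All vertices of the
other side that are removed are neighbours of included vertices.

PROOFS. `cmp_adS`: if `v` is chosen, `d ≤ 2 * dg (adS a sd adj) S v` and `1 ≤ d`, so
`adS a sd adj v u = true` for some `u`, hence `(decide (v < a) == sd) = true` and
`adS a sd adj v u' = adj v u'` for all `u'`. `p1_props`: induction on `t`
(`lvT (t + 1) = flatMap kidT`). Start: `NB n adj ∅ = ∅`. For a node `y` with chosen vertex `v`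
(`exists_chs`, `anyH_iff`, `outT_eq`, `inT_eq`, `chsS_eq`): `v ∈ y.1`, `v` is on the side `sd`;
out-child: `v` is removed, it is on the side `sd`. In-child: `y.2 ∪ {v}`,
`NB (y.2 ∪ {v}) = NB y.2 ∪ N(v)`, and the in-child removes exactly `v` and the neighbours of `v`
(all on the other side by `bip`). The number of new vertices of `NB` is the number of neighbours of
`v` in `y.1` (a neighbour of `v` below `n` which is not in `NB y.2` is in `y.1` by the fifth
property), which is at least `d / 2`: `d * (card + 1) ≤ 2 * |NB| + 2 * dg adj y.1 v`.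
`p1_light`: `lvT_light` and `hvy` (for `v` on the side `sd`, `dg (adS a sd adj) S v = dg adj S v`).
`p1_card`: for `v ∈ sideS a sd y.1`, all `d` neighbours of `v` are in `y.1` or in `NB n adj y.2`,
and less than `d / 2` are in `y.1`, so `d ≤ 2 * |N(v) ∩ NB|`; sum over `v` and count the edges from
the other end (`reg`: at most `d` per vertex of `NB`): `|U| d ≤ 2 d w`
(`Finset.sum_card_bipartiteAbove_eq_sum_card_bipartiteBelow` or `Finset.sum_comm'`).
`p1_ge`: a vertex of `y.2` has `d` neighbours, all in `NB`. `p1_empty`: by `p1_card` there are no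
vertices of the side `sd` left, and no vertex of the other side was removed. `x1_spec`: `trk_mem`,
`trk_cover`; `I` is independent and contains `(x1 …).2`; on the side `sd`,
`I ⊆ (x1 …).2 ∪ sideS a sd (x1 …).1`.
-/

namespace Pool.Agent.Lib.Pa7c826e

open Finset Pool.Agent.Lib.Pa7c826 Pool.Agent.Lib.Pa7c826t

variable {n a d A : ℕ} {adj : ℕ → ℕ → Bool}

namespace EPAAux

theorem adS_side {sd : Bool} {u v : ℕ} (h : adS a sd adj u v = true) : decide (u < a) = sd := by
  unfold adS at h
  rw [Bool.and_eq_true, beq_iff_eq] at h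
  exact h.1

theorem adS_eq {sd : Bool} {u : ℕ} (h : decide (u < a) = sd) (v : ℕ) : adS a sd adj u v = adj u v := by
  unfold adS
  rw [h, beq_self_eq_true, Bool.true_and]

theorem chs_side (hd : 1 ≤ d) {sd : Bool} {S : Finset ℕ} {v : ℕ}
    (h : chs d 2 (adS a sd adj) S v = true) : decide (v < a) = sd := by
  have hh := chs_hvy h
  unfold hvy at hh
  rw [Bool.and_eq_true, decide_eq_true_eq, decide_eq_true_eq] at hh
  have h1 : 0 < dg (adS a sd adj) S v := by omega
  unfold dg at h1
  rw [card_pos] at h1
  obtain ⟨u, hu⟩ := h1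
  rw [mem_filter] at hu
  exact adS_side hu.2

theorem dg_adS {sd : Bool} {v : ℕ} (h : decide (v < a) = sd) (S : Finset ℕ) :
    dg (adS a sd adj) S v = dg adj S v := by
  unfold dg
  congr 1
  exact filter_congr (fun u _ => by rw [adS_eq h])

theorem chs_dg (hd : 1 ≤ d) {sd : Bool} {S : Finset ℕ} {v : ℕ}
    (h : chs d 2 (adS a sd adj) S v = true) : d ≤ 2 * dg adj S v := by
  have hh := chs_hvy h
  unfold hvy at hh
  rw [Bool.and_eq_true, decide_eq_true_eq, decide_eq_true_eq] at hh
  rw [← dg_adS (chs_side hd h)]
  exact hh.2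

theorem chsS_eq' {m g : ℕ} {ad : ℕ → ℕ → Bool} {S : Finset ℕ} {v : ℕ} (h : chs m g ad S v = true) :
    chsS m g ad S = {v} := by
  ext u
  unfold chsS
  rw [mem_filter, mem_singleton]
  constructor
  · rintro ⟨_, hu⟩
    exact chs_unique hu h
  · rintro rfl
    exact ⟨hvy_mem (chs_hvy h), h⟩

theorem mem_NB {X : Finset ℕ} {v : ℕ} : v ∈ NB n adj X ↔ v < n ∧ ∃ u ∈ X, adj u v = true := by
  unfold NB
  rw [mem_filter, mem_range]

theorem NB_mono {X Y : Finset ℕ} (h : X ⊆ Y) : NB n adj X ⊆ NB n adj Y := by
  intro v hv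
  rw [mem_NB] at hv ⊢
  obtain ⟨h1, u, hu, h2⟩ := hv
  exact ⟨h1, u, h hu, h2⟩

theorem mem_sideS {sd : Bool} {S : Finset ℕ} {v : ℕ} : v ∈ sideS a sd S ↔ v ∈ S ∧ decide (v < a) = sd := by
  unfold sideS
  rw [mem_filter]

end EPAAux

open EPAAux

theorem cmp_adS (hd : 1 ≤ d) (sd : Bool) : Cmp d 2 (adS a sd adj) adj := by
  intro S v h u
  exact adS_eq (chs_side hd h) u

theorem cmp_self (m g : ℕ) : Cmp m g adj adj := fun _ _ _ _ => rfl

theorem p1_props (hh : XHost n a d A adj) (sd : Bool) (t : ℕ) :
    ∀ y ∈ lvT n d 2 (adS a sd adj) (range n, ∅) t,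
      y.1 ⊆ range n ∧ y.2 ⊆ sideS a sd (range n) ∧ Disjoint y.1 y.2 ∧
      Disjoint y.1 (NB n adj y.2) ∧
      (∀ v < n, decide (v < a) ≠ sd → v ∉ y.1 → v ∈ NB n adj y.2) ∧
      d * y.2.card ≤ 2 * (NB n adj y.2).card := by
  induction t with
  | zero =>
    intro y hy
    unfold lvT at hy
    simp only [List.mem_cons, List.not_mem_nil, or_false] at hy
    rw [hy]
    refine ⟨Subset.refl _, empty_subset _, disjoint_empty_right _, ?_, ?_, by simp⟩
    · have : NB n adj ∅ = ∅ := by
        ext v
        rw [mem_NB]
        simp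
      simp only
      rw [this]
      exact disjoint_empty_right _
    · intro v hv _ hv2
      exact absurd (mem_range.mpr hv) hv2
  | succ t ih =>
    intro z hz
    unfold lvT at hz
    rw [List.mem_flatMap] at hz
    obtain ⟨y, hy, hyz⟩ := hz
    obtain ⟨p1, p2, p3, p4, p5, p6⟩ := ih y hy
    unfold kidT at hyz
    split_ifs at hyz with hany
    · obtain ⟨v, hv⟩ := exists_chs ((anyH_iff p1).1 hany)
      have hvS : v ∈ y.1 := hvy_mem (chs_hvy hv)
      have hvn : v < n := mem_range.1 (p1 hvS)
      have hside := chs_side hh.hd hv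
      have hdeg := chs_dg hh.hd hv
      simp only [List.mem_cons, List.not_mem_nil, or_false] at hyz
      rcases hyz with rfl | rfl
      · simp only
        rw [outT_eq hv]
        refine ⟨(erase_subset _ _).trans p1, p2, p3.mono_left (erase_subset _ _),
          p4.mono_left (erase_subset _ _), ?_, p6⟩
        intro u hu hus hu2
        apply p5 u hu hus
        intro hu3
        apply hu2
        rw [mem_erase]
        exact ⟨fun e => hus (e ▸ hside), hu3⟩
      · simp only
        rw [inT_eq hvn hv, chsS_eq' hv]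
        refine ⟨?_, ?_, ?_, ?_, ?_, ?_⟩
        · exact ((filter_subset _ _).trans (erase_subset _ _)).trans p1
        · rw [union_subset_iff]
          refine ⟨p2, ?_⟩
          rw [singleton_subset_iff, mem_sideS, mem_range]
          exact ⟨hvn, hside⟩
        · rw [disjoint_union_right]
          refine ⟨p3.mono_left ((filter_subset _ _).trans (erase_subset _ _)), ?_⟩
          rw [disjoint_singleton_right, mem_filter, mem_erase]
          exact fun h => h.1.1 rfl
        · rw [disjoint_left]
          intro w hw hw2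
          rw [mem_filter, mem_erase] at hw
          rw [mem_NB] at hw2
          obtain ⟨hwn, u, hu, huw⟩ := hw2
          rw [mem_union, mem_singleton] at hu
          rcases hu with hu | rfl
          · exact disjoint_left.mp p4 hw.1.2 (mem_NB.mpr ⟨hwn, u, hu, huw⟩)
          · rw [adS_eq hside, huw] at hw
            exact absurd hw.2 (by simp)
        · intro w hw hws hw2
          by_cases h1 : w ∈ y.1
          · have hwv : w ≠ v := fun e => hws (e ▸ hside)
            rw [mem_filter, mem_erase, adS_eq hside] at hw2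
            have h2 : adj v w = true := by
              by_contra h3
              rw [Bool.not_eq_true] at h3
              exact hw2 ⟨⟨hwv, h1⟩, h3⟩
            exact mem_NB.mpr ⟨hw, v, mem_union_right _ (mem_singleton_self v), h2⟩
          · exact NB_mono subset_union_left (p5 w hw hws h1)
        · have hvn2 : v ∉ y.2 := fun h => disjoint_left.mp p3 hvS h
          rw [card_union_of_disjoint (disjoint_singleton_right.mpr hvn2), card_singleton]
          have hsub : NB n adj y.2 ∪ y.1.filter (fun u => adj v u = true) ⊆ NB n adj (y.2 ∪ {v}) := by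
            rw [union_subset_iff]
            refine ⟨NB_mono subset_union_left, ?_⟩
            intro w hw
            rw [mem_filter] at hw
            exact mem_NB.mpr ⟨mem_range.1 (p1 hw.1), v, mem_union_right _ (mem_singleton_self v), hw.2⟩
          have h1 := card_le_card hsub
          rw [card_union_of_disjoint (p4.symm.mono_right (filter_subset _ _))] at h1
          have h2 : (y.1.filter (fun u => adj v u = true)).card = dg adj y.1 v := rfl
          rw [h2] at h1
          rw [Nat.mul_add, Nat.mul_one]
          omega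
    · simp only [List.mem_cons, List.not_mem_nil, or_false] at hyz
      rw [hyz]
      exact ⟨p1, p2, p3, p4, p5, p6⟩

theorem p1_light (hh : XHost n a d A adj) (sd : Bool) :
    ∀ y ∈ lv1 n a d adj sd, ∀ v ∈ y.1, decide (v < a) = sd → 2 * dg adj y.1 v < d := by
  intro y hy v hv hs
  have h1 := lvT_light (n := n) (m := d) (g := 2) (ad := adS a sd adj) (x := (range n, ∅))
    (Subset.refl _) y hy v
  unfold hvy at h1
  rw [Bool.and_eq_false_iff, decide_eq_false_iff_not, decide_eq_false_iff_not, dg_adS hs] at h1
  rcases h1 with h1 | h1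
  · exact absurd hv h1
  · omega

theorem p1_card (hh : XHost n a d A adj) (sd : Bool) :
    ∀ y ∈ lv1 n a d adj sd, (sideS a sd y.1).card ≤ 2 * wE n adj y := by
  intro y hy
  obtain ⟨p1, p2, p3, p4, p5, p6⟩ := p1_props hh sd n y hy
  have hlight := p1_light hh sd y hy
  have hd := hh.hd
  set U := sideS a sd y.1 with hU
  set W := NB n adj y.2 with hW
  have h1 : ∀ v ∈ U, d ≤ 2 * (W.filter (fun w => adj v w = true)).card := by
    intro v hv
    rw [hU, mem_sideS] at hv
    have hvn : v < n := mem_range.1 (p1 hv.1)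
    have hreg := hh.reg v hvn
    have hl := hlight v hv.1 hv.2
    unfold dg at hreg hl
    have hsub : (range n).filter (fun u => adj v u = true) ⊆
        y.1.filter (fun u => adj v u = true) ∪ W.filter (fun w => adj v w = true) := by
      intro u hu
      rw [mem_filter, mem_range] at hu
      rw [mem_union, mem_filter, mem_filter]
      by_cases hu1 : u ∈ y.1
      · exact Or.inl ⟨hu1, hu.2⟩
      · right
        refine ⟨p5 u hu.1 ?_ hu1, hu.2⟩
        intro hus
        have hb := hh.bip v u hu.2
        rw [← hv.2] at hus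
        have : (u < a) ↔ (v < a) := by
          constructor
          · intro h
            have h3 : decide (u < a) = true := decide_eq_true h
            rw [h3] at hus
            exact of_decide_eq_true hus.symm
          · intro h
            have h3 : decide (v < a) = true := decide_eq_true h
            rw [h3] at hus
            exact of_decide_eq_true hus
        by_cases hva : v < a
        · exact (hb.1 hva) (this.2 hva)
        · exact hva (hb.2 (fun h => hva (this.1 h)))
    have h2 := (card_le_card hsub).trans (card_union_le _ _)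
    omega
  have h2 : U.card * d ≤ ∑ v ∈ U, 2 * (W.filter (fun w => adj v w = true)).card := by
    rw [← smul_eq_mul]
    exact card_nsmul_le_sum _ _ _ h1
  have h3 : ∑ v ∈ U, (W.filter (fun w => adj v w = true)).card =
      ∑ w ∈ W, (U.filter (fun v => adj v w = true)).card := by
    simp only [card_filter]
    exact sum_comm
  have h4 : ∀ w ∈ W, (U.filter (fun v => adj v w = true)).card ≤ d := by
    intro w hw
    have hwn : w < n := (mem_NB.mp hw).1
    rw [← hh.reg w hwn]
    unfold dg
    apply card_le_card
    intro v hv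
    rw [mem_filter] at hv
    rw [mem_filter, hh.sym w v]
    rw [hU, mem_sideS] at hv
    exact ⟨p1 hv.1.1, hv.2⟩
  have h5 : ∑ w ∈ W, (U.filter (fun v => adj v w = true)).card ≤ W.card * d := by
    rw [← smul_eq_mul]
    exact sum_le_card_nsmul _ _ _ h4
  rw [← mul_sum, h3] at h2
  have h6 : U.card * d ≤ (2 * W.card) * d := by
    calc U.card * d ≤ 2 * ∑ w ∈ W, (U.filter (fun v => adj v w = true)).card := h2
      _ ≤ 2 * (W.card * d) := Nat.mul_le_mul_left 2 h5
      _ = _ := by ring
  exact Nat.le_of_mul_le_mul_right h6 (by omega)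

theorem p1_ge (hh : XHost n a d A adj) (sd : Bool) :
    ∀ y ∈ lv1 n a d adj sd, y.2 ≠ ∅ → d ≤ wE n adj y := by
  intro y hy hne
  obtain ⟨p1, p2, p3, p4, p5, p6⟩ := p1_props hh sd n y hy
  obtain ⟨v, hv⟩ := nonempty_iff_ne_empty.mpr hne
  have hvn : v < n := mem_range.1 (mem_sideS.mp (p2 hv)).1
  rw [← hh.reg v hvn]
  unfold dg wE
  apply card_le_card
  intro u hu
  rw [mem_filter, mem_range] at hu
  exact mem_NB.mpr ⟨hu.1, v, hv, hu.2⟩

theorem p1_empty (hh : XHost n a d A adj) (sd : Bool) :
    ∀ y ∈ lv1 n a d adj sd, y.2 = ∅ → y.1 = sideS a (!sd) (range n) := by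
  intro y hy he
  obtain ⟨p1, p2, p3, p4, p5, p6⟩ := p1_props hh sd n y hy
  have hc := p1_card hh sd y hy
  have hN : NB n adj y.2 = ∅ := by
    rw [he]
    ext v
    rw [mem_NB]
    simp
  unfold wE at hc
  rw [hN, card_empty, Nat.mul_zero, Nat.le_zero, card_eq_zero] at hc
  ext v
  rw [mem_sideS]
  constructor
  · intro hv
    refine ⟨p1 hv, ?_⟩
    by_contra h
    have h2 : decide (v < a) = sd := by
      cases h3 : decide (v < a) <;> cases sd <;> simp_all
    have : v ∈ sideS a sd y.1 := mem_sideS.mpr ⟨hv, h2⟩
    rw [hc] at this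
    exact notMem_empty v this
  · rintro ⟨hv, hs⟩
    by_contra h
    have h2 : decide (v < a) ≠ sd := by
      rw [hs]
      cases sd <;> simp
    have h3 := p5 v (mem_range.1 hv) h2 h
    rw [hN] at h3
    exact notMem_empty v h3

theorem x1_spec (hh : XHost n a d A adj) (sd : Bool) {I : Finset ℕ}
    (hI : I ∈ IS adj (range n)) :
    x1 n a d adj sd I ∈ lv1 n a d adj sd ∧ (x1 n a d adj sd I).2 ⊆ I ∧
      I ⊆ (x1 n a d adj sd I).1 ∪ (x1 n a d adj sd I).2 ∧
      Disjoint I (NB n adj (x1 n a d adj sd I).2) ∧
      (sideS a sd I).card ≤ (x1 n a d adj sd I).2.card + 2 * wE n adj (x1 n a d adj sd I) := by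
  have h1 : x1 n a d adj sd I ∈ lv1 n a d adj sd := trk_mem I (range n, ∅) n
  obtain ⟨h2, h3⟩ := trk_cover (cmp_adS (a := a) (adj := adj) hh.hd sd) (Subset.refl (range n)) hI n
  have h2' : (x1 n a d adj sd I).2 ⊆ I := h2
  have h3' : I ⊆ (x1 n a d adj sd I).1 ∪ (x1 n a d adj sd I).2 := h3
  refine ⟨h1, h2', h3', ?_, ?_⟩
  · rw [disjoint_left]
    intro w hw hw2
    rw [mem_NB] at hw2
    obtain ⟨_, u, hu, huw⟩ := hw2
    rw [(mem_IS.mp hI).2 u (h2' hu) w hw] at huw
    exact absurd huw (by simp)
  · have hsub : sideS a sd I ⊆ (x1 n a d adj sd I).2 ∪ sideS a sd (x1 n a d adj sd I).1 := by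
      intro v hv
      rw [mem_sideS] at hv
      rcases mem_union.mp (h3' hv.1) with h | h
      · exact mem_union_right _ (mem_sideS.mpr ⟨h, hv.2⟩)
      · exact mem_union_left _ h
    have h4 := (card_le_card hsub).trans (card_union_le _ _)
    have h5 := p1_card hh sd _ h1
    omega

end Pool.Agent.Lib.Pa7c826e
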