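import Pool.Agent.Lib.Pa7c826e.EList
import Pool.Agent.Lib.Pa7c826e.EPA

/-!
The number of nodes that are alive.

PROOFS. `sum_ph1`: `trk_sum` with `h = fun _ _ => 1` (`cmp_adS`), `lvT_fst`, `card_IS`
(`Finset.sum_const`, `Finset.card_eq_sum_ones`). `sum_ph2`: for every node `S` of the first phase
the sum over the nodes below is `ind adj S` (`sum_ind_lvw` in `Pa7c826t/ApproxT.lean`), then
`sum_ph1`. `len_ph1`, `len_ph2`: `ph1L_eq`, `ph2L_eq`, and `2 ^ a ≤ 2 ^ dfc S * ind adj S ≤ 2 ^ E * ind adj S`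
for a node `S` that is alive (`pow_le_ind`, nodes are subsets of `range n` by `lvw_sub`); use
`hostA_list` in `Pa7c826t/HostA.lean` (`A := 2 ^ a`, `K := 2 ^ E`, `f := ind adj`).
`ph1L_sub`, `ph2L_sub`: `ph1L_eq`, `ph2L_eq`, `lvw_sub`.
-/

namespace Pool.Agent.Lib.Pa7c826e

open Finset Pool.Agent.Lib.Pa7c826 Pool.Agent.Lib.Pa7c826t

variable {n a d A : ℕ} {adj : ℕ → ℕ → Bool}

theorem sum_ph1 (hh : XHost n a d A adj) (sd : Bool) (t : ℕ) :
    (((lvw n d 2 (adS a sd adj) (range n) t).map Prod.fst).map (ind adj)).sum =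
      ind adj (range n) := by
  have h := trk_sum (n := n) (m := d) (g := 2) (ad := adS a sd adj) hh.sym hh.irr
    (cmp_adS hh.hd sd) (x := (range n, ∅)) subset_rfl (fun _ _ => 1) t
  simp only [sum_const, smul_eq_mul, mul_one, card_IS] at h
  rw [h, ← lvT_fst (range n, ∅) t, List.map_map]
  rfl

theorem ELenAux_flat {α β : Type*} (f : β → ℕ) (k : α → List β) (g : α → ℕ) (l : List α)
    (h : ∀ x ∈ l, ((k x).map f).sum = g x) : ((l.flatMap k).map f).sum = (l.map g).sum := by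
  induction l with
  | nil => rfl
  | cons x l ih =>
    rw [List.flatMap_cons, List.map_append, List.sum_append, h x (List.mem_cons_self ..),
      ih fun y hy => h y (List.mem_cons_of_mem _ hy), List.map_cons, List.sum_cons]

theorem sum_ph2 (hh : XHost n a d A adj) (sd : Bool) (t : ℕ) :
    ((((lvw n d 2 (adS a sd adj) (range n) n).map Prod.fst).flatMap
      (fun S => (lvw n d 2 adj S t).map Prod.fst)).map (ind adj)).sum = ind adj (range n) := by
  rw [ELenAux_flat (ind adj) _ (ind adj) _ ?_]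
  · exact sum_ph1 hh sd n
  · intro S hS
    obtain ⟨x, hx, rfl⟩ := List.mem_map.1 hS
    exact sum_ind_lvw hh.sym hh.irr (lvw_sub n x hx) t

theorem ELenAux_al (hh : XHost n a d A adj) {E : ℕ} {S : Finset ℕ} (hS : S ⊆ range n)
    (h : alE n a adj E S = true) : 2 ^ a ≤ 2 ^ E * ind adj S := by
  unfold alE at h
  rw [decide_eq_true_eq] at h
  exact (pow_le_ind hh hS).trans
    (Nat.mul_le_mul_right _ (Nat.pow_le_pow_right (by norm_num) h))

theorem ELenAux_sub2 {sd : Bool} {t : ℕ} {S : Finset ℕ}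
    (hS : S ∈ ((lvw n d 2 (adS a sd adj) (range n) n).map Prod.fst).flatMap
      (fun S => (lvw n d 2 adj S t).map Prod.fst)) : S ⊆ range n := by
  obtain ⟨T, hT, hST⟩ := List.mem_flatMap.1 hS
  obtain ⟨x, hx, rfl⟩ := List.mem_map.1 hT
  obtain ⟨y, hy, rfl⟩ := List.mem_map.1 hST
  exact (lvw_sub t y hy).trans (lvw_sub n x hx)

theorem len_ph1 (hh : XHost n a d A adj) (E : ℕ) (sd : Bool) (t : ℕ) :
    (ph1L n a d adj E sd t).length * 2 ^ a ≤ 2 ^ E * ind adj (range n) := by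
  rw [ph1L_eq hh, ← sum_ph1 hh sd t]
  refine hostA_list _ _ _ ?_
  intro S hS hal
  obtain ⟨x, hx, rfl⟩ := List.mem_map.1 hS
  exact ELenAux_al hh (lvw_sub t x hx) hal

theorem len_ph2 (hh : XHost n a d A adj) (E : ℕ) (sd : Bool) (t : ℕ) :
    (ph2L n a d adj E sd t).length * 2 ^ a ≤ 2 ^ E * ind adj (range n) := by
  rw [ph2L_eq hh, ← sum_ph2 hh sd t]
  refine hostA_list _ _ _ ?_
  intro S hS hal
  exact ELenAux_al hh (ELenAux_sub2 hS) hal

theorem ph1L_sub (hh : XHost n a d A adj) (E : ℕ) (sd : Bool) (t : ℕ) :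
    ∀ S ∈ ph1L n a d adj E sd t, S ⊆ range n := by
  intro S hS
  rw [ph1L_eq hh, List.mem_filter] at hS
  obtain ⟨x, hx, rfl⟩ := List.mem_map.1 hS.1
  exact lvw_sub t x hx

theorem ph2L_sub (hh : XHost n a d A adj) (E : ℕ) (sd : Bool) (t : ℕ) :
    ∀ S ∈ ph2L n a d adj E sd t, S ⊆ range n := by
  intro S hS
  rw [ph2L_eq hh, List.mem_filter] at hS
  exact ELenAux_sub2 hS.1

end Pool.Agent.Lib.Pa7c826e
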