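import Pool.Agent.Lib.Pa7c826e.EList
import Pool.Agent.Lib.Pa7c826e.ECnt

/-!
The output for one side counts the independent sets whose leaf is alive.

PROOFS. `cov_ph2`: by `ph2L_eq` and `lvT_fst` there are a leaf `x ∈ lv1 n a d adj sd` and
`S ∈ (lvw n d 2 adj x.1 n).map Prod.fst` with `dfc n a adj S ≤ E`; `S ⊆ x.1` (`lvw_sub`), so
`|x.2| ≤ dfc S ≤ E` (`T_le`), `wE x ≤ d |x.2|` (`nb_le`) and
`|sideS a sd x.1| ≤ 2 wE x ≤ d (2 |x.2|)` (`p1_card`); `S` is light (`lvw_light`, `hvy`).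
`light_cov` with `H = 2 |x.2|`: `|cov S| ≤ 24 (2 |x.2| + dfc S) ≤ 72 E`.
`outE_eq`: `leaf_small` (see `outA_spec` in `Pa7c826t/ApproxT.lean`) replaces `leaf` by `ind`
(`2 ^ |cov S| ≤ 2 ^ (72 E) ≤ K'`). By `ph2L_eq` the output is the sum of `ind adj S` over the alive
nodes `S`, grouped by the nodes of the first phase (`List.filter_flatMap`, `List.map_flatMap`,
`List.sum_flatMap`-style induction, `lvT_fst` for the first phase), and this is `cnt_leaf` with
`q = fun _ => true` and `q' = alE n a adj E`.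
-/

namespace Pool.Agent.Lib.Pa7c826e

open Finset Pool.Agent.Lib.Pa7c826 Pool.Agent.Lib.Pa7c826t

variable {n a d A : ℕ} {adj : ℕ → ℕ → Bool}

theorem mem_ph2L (hh : XHost n a d A adj) (E : ℕ) (sd : Bool) {S : Finset ℕ}
    (hS : S ∈ ph2L n a d adj E sd n) : ∃ x ∈ lv1 n a d adj sd,
      (∃ y ∈ lvw n d 2 adj x.1 n, y.1 = S) ∧ dfc n a adj S ≤ E := by
  rw [ph2L_eq hh, List.mem_filter, List.mem_flatMap] at hS
  obtain ⟨⟨S1, h1, h2⟩, h3⟩ := hS
  have e := lvT_fst (n := n) (m := d) (g := 2) (ad := adS a sd adj) (range n, ∅) n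
  rw [← e] at h1
  obtain ⟨x, hx, rfl⟩ := List.mem_map.1 h1
  obtain ⟨y, hy, rfl⟩ := List.mem_map.1 h2
  refine ⟨x, hx, ⟨y, hy, rfl⟩, ?_⟩
  unfold alE at h3
  exact of_decide_eq_true h3

theorem cov_ph2 (hh : XHost n a d A adj) (E : ℕ) (sd : Bool) :
    ∀ S ∈ ph2L n a d adj E sd n, (cov n adj S).card ≤ 72 * E := by
  intro S hS
  obtain ⟨x, hx, ⟨y, hy, rfl⟩, hE⟩ := mem_ph2L hh E sd hS
  have hp := p1_props hh sd n x hx
  have hsub : y.1 ⊆ x.1 := lvw_sub n y hy
  have h1 : x.2.card ≤ E := (T_le hh hx hsub).trans hE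
  have h2 : x.2 ⊆ range n := hp.2.1.trans (filter_subset _ _)
  have h3 : wE n adj x ≤ d * x.2.card := nb_le hh h2
  have h4 : (sideS a sd x.1).card ≤ d * (2 * x.2.card) := by
    refine (p1_card hh sd x hx).trans ?_
    calc 2 * wE n adj x ≤ 2 * (d * x.2.card) := Nat.mul_le_mul_left 2 h3
      _ = d * (2 * x.2.card) := by ring
  have h5 : ∀ v ∈ y.1, 2 * dg adj y.1 v ≤ d := by
    intro v hv
    have h6 := lvw_light (m := d) (g := 2) (adj := adj) hp.1 y hy v
    unfold hvy at h6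
    rw [Bool.and_eq_false_iff, decide_eq_false_iff_not, decide_eq_false_iff_not] at h6
    rcases h6 with h6 | h6
    · exact absurd hv h6
    · omega
  have h7 := light_cov hh hp.1 h4 hsub h5
  omega

theorem sum_filter_flatMap (l : List Nd) (F : Finset ℕ → List (Finset ℕ))
    (al : Finset ℕ → Bool) (f : Finset ℕ → ℕ) :
    ((((l.map Prod.fst).flatMap F).filter al).map f).sum =
      (l.map (fun x => (((F x.1).filter al).map f).sum)).sum := by
  induction l with
  | nil => rfl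
  | cons x l ih =>
    rw [List.map_cons, List.flatMap_cons, List.filter_append, List.map_append, List.sum_append,
      ih, List.map_cons, List.sum_cons]

theorem outE_eq (hh : XHost n a d A adj) (E K' : ℕ) (hK : 2 ^ (72 * E) ≤ K') (sd : Bool) :
    outE n a d adj E K' sd =
      ((IS adj (range n)).filter (fun I => dfc n a adj (x2 n a d adj sd I).1 ≤ E)).card := by
  have h1 : outE n a d adj E K' sd = ((ph2L n a d adj E sd n).map (ind adj)).sum := by
    unfold outE
    congr 1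
    refine List.map_congr_left fun S hS => ?_
    have hc := cov_ph2 hh E sd S hS
    obtain ⟨x, hx, ⟨y, hy, rfl⟩, hE⟩ := mem_ph2L hh E sd hS
    have hp := p1_props hh sd n x hx
    have hsub : y.1 ⊆ x.1 := lvw_sub n y hy
    refine leaf_small hh.sym hh.irr (hsub.trans hp.1) ?_
    exact (Nat.pow_le_pow_right (by norm_num) hc).trans hK
  rw [h1, ph2L_eq hh, ← lvT_fst (n := n) (m := d) (g := 2) (ad := adS a sd adj) (range n, ∅) n,
    sum_filter_flatMap]
  have h2 := cnt_leaf hh sd (fun _ => true) (alE n a adj E)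
  simp only [true_and, if_true] at h2
  rw [← h2]
  congr 1
  refine filter_congr fun I _ => ?_
  unfold alE
  rw [decide_eq_true_eq]

end Pool.Agent.Lib.Pa7c826e
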