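import Pool.Agent.Lib.Pa7c826t.ApproxT
import Pool.Agent.Lib.Pa7c826e.EAlgDef

/-!
Dense regular graphs.

PROOFS. Let `H = 192 ly`, `g = 768 ly`. The graph `range n`, `n = 2 a`, satisfies
`Host n g adj (fun v => v < a) (range n) d d H` (`Pa7c826t/ApproxDef.lean`): `hH` is
`a * (1 + (d - d)) ≤ d * (192 ly)`, from `ha`; `hg` is `2 * (2 a) ≤ 768 ly * d`. `part1_spec`:
`outA_spec` with `Y = YI`: `t * 2 ^ (3 H + 5 g) = t * 2 ^ (4416 ly) = t (2 ^ ly) ^ 4416 ≤ YI`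
(`hly`), and `(2 ^ H * YI ^ 24) ^ 24 ≤ KI`. `part1_len`: `plv_length` (`Pa7c826t/HostA.lean`):
at most `2 ^ H * YI ^ 24`, and `2 ^ H = (2 ^ ly) ^ 192 ≤ (16 t) ^ 192`.
-/

namespace Pool.Agent.Lib.Pa7c826e

open Finset Pool.Agent.Lib.Pa7c826 Pool.Agent.Lib.Pa7c826t

variable {n a d ly t : ℕ} {adj : ℕ → ℕ → Bool}

theorem EPart1Aux_host (hn : n = 2 * a)
    (hreg : ∀ v < n, dg adj (range n) v = d) (hd : 1 ≤ d) (hpos : 1 ≤ a)
    (ha : a ≤ 192 * d * ly) :
    Host n (768 * ly) adj (fun v => v < a) (range n) d d (192 * ly) := by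
  have e1 : (range n).filter (fun v => v < a) = range a := by
    ext v
    rw [mem_filter, mem_range, mem_range]
    omega
  have e2 : 192 * d * ly = d * (192 * ly) := by ring
  have e3 : 768 * ly * d = 4 * (192 * d * ly) := by ring
  refine ⟨Finset.Subset.refl _, ?_, hd, le_rfl, ?_, ?_, ?_, ?_⟩
  · rw [card_range]
    omega
  · intro v hv _
    exact (hreg v (mem_range.1 hv)).ge
  · intro v hv _
    exact (hreg v (mem_range.1 hv)).le
  · rw [e1, card_range, Nat.sub_self, Nat.add_zero, Nat.mul_one, ← e2]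
    exact ha
  · rw [card_range, e3, hn]
    omega

theorem EPart1Aux_pow (hly : 2 ^ ly ≤ 16 * t) (k : ℕ) : 2 ^ (k * ly) ≤ (16 * t) ^ k := by
  rw [Nat.mul_comm, pow_mul]
  exact Nat.pow_le_pow_left hly k

theorem part1_spec (hn : n = 2 * a) (hs : ∀ u v, adj u v = adj v u)
    (hl : ∀ u, adj u u = false) (hbip : ∀ u v, adj u v = true → (u < a ↔ ¬ v < a))
    (hreg : ∀ v < n, dg adj (range n) v = d) (hd : 1 ≤ d) (hpos : 1 ≤ a)
    (ha : a ≤ 192 * d * ly) (ht : 1 ≤ t) (hly : 2 ^ ly ≤ 16 * t) :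
    outA n a (768 * ly) adj (range n) ((t * (16 * t) ^ 4416) ^ 24)
        (((16 * t) ^ 192 * (t * (16 * t) ^ 4416) ^ 24) ^ 24) ≤ ind adj (range n) ∧
      t * ind adj (range n) ≤ t * outA n a (768 * ly) adj (range n)
        ((t * (16 * t) ^ 4416) ^ 24) (((16 * t) ^ 192 * (t * (16 * t) ^ 4416) ^ 24) ^ 24) +
          ind adj (range n) := by
  have hh := EPart1Aux_host (adj := adj) hn hreg hd hpos ha
  refine outA_spec hs hl (fun v => v < a) (Or.inl fun v => Iff.rfl) hbip hh ht ?_ ?_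
  · refine Nat.mul_le_mul_left t ?_
    have e : 3 * (192 * ly) + 5 * (768 * ly) = 4416 * ly := by ring
    rw [e]
    exact EPart1Aux_pow hly 4416
  · exact Nat.pow_le_pow_left (Nat.mul_le_mul_right _ (EPart1Aux_pow hly 192)) 24

theorem part1_len (hn : n = 2 * a) (hs : ∀ u v, adj u v = adj v u)
    (hl : ∀ u, adj u u = false) (hbip : ∀ u v, adj u v = true → (u < a ↔ ¬ v < a))
    (hreg : ∀ v < n, dg adj (range n) v = d) (hd : 1 ≤ d) (hpos : 1 ≤ a)
    (ha : a ≤ 192 * d * ly) (ht : 1 ≤ t) (hly : 2 ^ ly ≤ 16 * t) (j : ℕ) :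
    (plv n (range n).card (768 * ly) adj
      (alive n a adj (range n) ((t * (16 * t) ^ 4416) ^ 24)) (range n) j).length ≤
      (16 * t) ^ 192 * (t * (16 * t) ^ 4416) ^ 24 := by
  have hh := EPart1Aux_host (adj := adj) hn hreg hd hpos ha
  have hK : 1 ≤ (t * (16 * t) ^ 4416) ^ 24 :=
    Nat.one_le_pow _ _ (Nat.mul_pos ht (Nat.pow_pos (by omega)))
  exact (plv_length hs hl (fun v => v < a) (Or.inl fun v => Iff.rfl) hbip hh hK j).trans
    (Nat.mul_le_mul_right _ (EPart1Aux_pow hly 192))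

end Pool.Agent.Lib.Pa7c826e
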