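import Pool.Agent.Lib.Pa7c826e.ECnt
import Pool.Agent.Lib.Pa7c826e.ECntBB
import Pool.Agent.Lib.Pa7c826e.ELen
import Pool.Agent.Lib.Pa7c826e.EOut
import Pool.Agent.Lib.Pa7c826e.EAlg
import Pool.Agent.Lib.Pa7c826e.EClass
import Pool.Agent.Lib.Pa7c826e.EPart1
import Pool.Agent.Lib.Pa7c826t.EasyT

/-!
The approximation scheme for regular bipartite expanders.
-/

namespace Pool.Agent.Lib.Pa7c826e

open Pool.Agent.Lib.PolyTime Pool.Agent.Lib.Pa7c826 Pool.Agent.Lib.Pa7c826t
  Pool.Agent.Lib.Pa7c826x Finset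

section

variable {n a d A lg ly t K' : ℕ} {adj : ℕ → ℕ → Bool}

theorem two_pow_le_ind (hh : XHost n a d A adj) : 2 ^ a ≤ ind adj (range n) := by
  have h := pow_le_ind hh (S := range n) subset_rfl
  rwa [dfc_range hh, pow_zero, one_mul] at h

/-- the number of independent sets is at most `7 * 2 ^ a` -/
theorem ind_le (hh : XHost n a d A adj) (hlg : n + 1 ≤ 2 ^ lg) (hA : 100000 * lg ≤ A)
    (hly : 1 ≤ ly) (ha : 192 * d * ly ≤ a) : ind adj (range n) ≤ 7 * 2 ^ a := by
  have h1 := cnt_w hh hlg hA true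
  have h2 := cnt_w hh hlg hA false
  have h3 := cnt_bb hh hlg hA hly ha
  set P := (IS adj (range n)).filter (fun I => 4 * wE n adj (x1 n a d adj true I) ≤ a) with hP
  set Q := (IS adj (range n)).filter (fun I => 4 * wE n adj (x1 n a d adj false I) ≤ a) with hQ
  set R := (IS adj (range n)).filter (fun I => a < 4 * wE n adj (x1 n a d adj true I) ∧
      a < 4 * wE n adj (x1 n a d adj false I)) with hR
  have h4 : IS adj (range n) ⊆ P ∪ Q ∪ R := by
    intro I hI
    rw [mem_union, mem_union, hP, hQ, hR, mem_filter, mem_filter, mem_filter]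
    rcases le_or_gt (4 * wE n adj (x1 n a d adj true I)) a with h | h
    · exact Or.inl (Or.inl ⟨hI, h⟩)
    · rcases le_or_gt (4 * wE n adj (x1 n a d adj false I)) a with h' | h'
      · exact Or.inl (Or.inr ⟨hI, h'⟩)
      · exact Or.inr ⟨hI, h, h'⟩
  have h5 : ind adj (range n) ≤ P.card + Q.card + R.card := by
    rw [← card_IS]
    refine (card_le_card h4).trans ((card_union_le _ _).trans ?_)
    exact Nat.add_le_add_right (card_union_le _ _) _
  have h6 : R.card ≤ 2 ^ a := by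
    refine le_trans ?_ h3
    exact Nat.le_mul_of_pos_left _ (by positivity)
  omega

theorem len1_le (hh : XHost n a d A adj) (hlg : n + 1 ≤ 2 ^ lg) (hA : 100000 * lg ≤ A)
    (hly : 1 ≤ ly) (ha : 192 * d * ly ≤ a) (E : ℕ) (sd : Bool) (j : ℕ) :
    (ph1L n a d adj E sd j).length ≤ 7 * 2 ^ E ∧ (ph2L n a d adj E sd j).length ≤ 7 * 2 ^ E := by
  have h0 := ind_le hh hlg hA hly ha
  have hpos : 0 < 2 ^ a := by positivity
  constructor
  · have h1 := len_ph1 hh E sd j
    have h2 : (ph1L n a d adj E sd j).length * 2 ^ a ≤ 7 * 2 ^ E * 2 ^ a := by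
      refine h1.trans ((Nat.mul_le_mul_left _ h0).trans (le_of_eq ?_))
      ring
    exact Nat.le_of_mul_le_mul_right h2 hpos
  · have h1 := len_ph2 hh E sd j
    have h2 : (ph2L n a d adj E sd j).length * 2 ^ a ≤ 7 * 2 ^ E * 2 ^ a := by
      refine h1.trans ((Nat.mul_le_mul_left _ h0).trans (le_of_eq ?_))
      ring
    exact Nat.le_of_mul_le_mul_right h2 hpos

/-- the number of elements that are alive in both or in none of two trees is small -/
theorem combine {β : Type*} [DecidableEq β] (X : Finset β) (f₁ f₂ w₁ w₂ : β → ℕ)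
    {E b L M t i : ℕ} (hX : X.card = i)
    (h1 : L * (X.filter (fun I => w₁ I ≤ b ∧ E < f₁ I)).card ≤ 3 * M)
    (h2 : L * (X.filter (fun I => w₂ I ≤ b ∧ E < f₂ I)).card ≤ 3 * M)
    (h3 : L * (X.filter (fun I => b < w₁ I ∧ b < w₂ I)).card ≤ M)
    (h4 : L * (X.filter (fun I => f₁ I ≤ E ∧ f₂ I ≤ E)).card ≤ M)
    (h5 : M ≤ i) (ht : 8 * t ≤ L) :
    t * i ≤ t * ((X.filter (fun I => f₁ I ≤ E)).card + (X.filter (fun I => f₂ I ≤ E)).card) + i ∧
    t * ((X.filter (fun I => f₁ I ≤ E)).card + (X.filter (fun I => f₂ I ≤ E)).card) ≤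
      t * i + i := by
  have e3 : X.filter (fun I => f₁ I ≤ E) ∩ X.filter (fun I => f₂ I ≤ E) =
      X.filter (fun I => f₁ I ≤ E ∧ f₂ I ≤ E) := by
    rw [filter_and]
  rw [← e3] at h4
  have e4 : X \ (X.filter (fun I => f₁ I ≤ E) ∪ X.filter (fun I => f₂ I ≤ E)) ⊆
      X.filter (fun I => w₁ I ≤ b ∧ E < f₁ I) ∪ X.filter (fun I => w₂ I ≤ b ∧ E < f₂ I) ∪
        X.filter (fun I => b < w₁ I ∧ b < w₂ I) := by
    intro I hI
    simp only [mem_sdiff, mem_union, mem_filter, not_or, not_and, not_le] at hI ⊢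
    obtain ⟨hI1, hI2, hI3⟩ := hI
    have a1 := hI2 hI1
    have a2 := hI3 hI1
    rcases le_or_gt (w₁ I) b with h | h
    · exact Or.inl (Or.inl ⟨hI1, h, a1⟩)
    · rcases le_or_gt (w₂ I) b with h' | h'
      · exact Or.inl (Or.inr ⟨hI1, h', a2⟩)
      · exact Or.inr ⟨hI1, h, h'⟩
  have e1 := card_union_add_card_inter (X.filter (fun I => f₁ I ≤ E))
    (X.filter (fun I => f₂ I ≤ E))
  have e2 : (X \ (X.filter (fun I => f₁ I ≤ E) ∪ X.filter (fun I => f₂ I ≤ E))).card +
      (X.filter (fun I => f₁ I ≤ E) ∪ X.filter (fun I => f₂ I ≤ E)).card = X.card := by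
    apply card_sdiff_add_card_eq_card
    exact union_subset (filter_subset _ _) (filter_subset _ _)
  have e5 := (card_le_card e4).trans ((card_union_le _ _).trans
      (Nat.add_le_add_right (card_union_le _ _) _))
  generalize (X.filter (fun I => w₁ I ≤ b ∧ E < f₁ I)).card = D1 at *
  generalize (X.filter (fun I => w₂ I ≤ b ∧ E < f₂ I)).card = D2 at *
  generalize (X.filter (fun I => b < w₁ I ∧ b < w₂ I)).card = D3 at *
  generalize (X \ (X.filter (fun I => f₁ I ≤ E) ∪ X.filter (fun I => f₂ I ≤ E))).card = u at *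
  generalize (X.filter (fun I => f₁ I ≤ E) ∪ X.filter (fun I => f₂ I ≤ E)).card = p at *
  generalize (X.filter (fun I => f₁ I ≤ E) ∩ X.filter (fun I => f₂ I ≤ E)).card = v at *
  generalize (X.filter (fun I => f₁ I ≤ E)).card + (X.filter (fun I => f₂ I ≤ E)).card = s at *
  rw [hX] at e2
  have e6 : L * u ≤ 7 * M := by
    calc L * u ≤ L * (D1 + D2 + D3) := Nat.mul_le_mul_left _ e5
      _ = L * D1 + L * D2 + L * D3 := by ring
      _ ≤ 7 * M := by omega
  have e7 : 8 * (t * u) ≤ 7 * i := by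
    calc 8 * (t * u) = 8 * t * u := by ring
      _ ≤ L * u := Nat.mul_le_mul_right _ ht
      _ ≤ 7 * M := e6
      _ ≤ _ := Nat.mul_le_mul_left _ h5
  have e8 : 8 * (t * v) ≤ i := by
    calc 8 * (t * v) = 8 * t * v := by ring
      _ ≤ L * v := Nat.mul_le_mul_right _ ht
      _ ≤ M := h4
      _ ≤ _ := h5
  have e9 : s + u = i + v := by omega
  have e10 : t * s + t * u = t * i + t * v := by
    rw [← Nat.mul_add, ← Nat.mul_add, e9]
  constructor <;> omega

/-- the approximation guarantee -/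
theorem outE_spec (hh : XHost n a d A adj) (hlg : n + 1 ≤ 2 ^ lg) (hA : 100000 * lg ≤ A)
    (hlg1 : 1 ≤ lg) (hly : 1 ≤ ly) (ha : 192 * d * ly ≤ a) (ht : 8 * t ≤ 2 ^ ly)
    (hK : 2 ^ (72 * (48 * ly)) ≤ K') :
    t * ind adj (range n) ≤ t * (outE n a d adj (48 * ly) K' true +
        outE n a d adj (48 * ly) K' false) + ind adj (range n) ∧
      t * (outE n a d adj (48 * ly) K' true + outE n a d adj (48 * ly) K' false) ≤
        t * ind adj (range n) + ind adj (range n) := by
  rw [outE_eq hh (48 * ly) K' hK true, outE_eq hh (48 * ly) K' hK false]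
  exact combine (IS adj (range n)) (fun I => dfc n a adj (x2 n a d adj true I).1)
    (fun I => dfc n a adj (x2 n a d adj false I).1)
    (fun I => 4 * wE n adj (x1 n a d adj true I)) (fun I => 4 * wE n adj (x1 n a d adj false I))
    (card_IS _ _) (cnt_dead (ly := ly) hh hlg hA true) (cnt_dead (ly := ly) hh hlg hA false)
    (cnt_bb hh hlg hA hly ha) (cnt_both (ly := ly) hh (by omega) ha) (two_pow_le_ind hh) ht

end

/-- Regular bipartite `α`-expanders with `α d ≥ C log₂ n`, `n` the number of vertices and `d` the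
degree. -/
def ExpClass (C : ℕ) (G : BGraph) : Prop :=
  ∃ (d : ℕ) (α : ℝ), (∀ i, G.rowDeg i = d) ∧ (∀ j, G.colDeg j = d) ∧ IsExpander α G ∧
    C * (Nat.log 2 (G.a + G.b) : ℝ) ≤ α * d

theorem two_pow_lyOf {w : List Bool} (ht : 1 ≤ tOf w) :
    8 * tOf w ≤ 2 ^ lyOf w ∧ 2 ^ lyOf w ≤ 16 * tOf w := by
  unfold lyOf
  have h1 := Nat.lt_pow_succ_log_self (by norm_num : 1 < 2) (tOf w)
  have h2 := Nat.pow_log_le_self 2 (by omega : tOf w ≠ 0)
  rw [pow_succ] at h1
  rw [pow_add]
  omega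

theorem dOf_eq (G : BGraph) (t : ℕ) {d : ℕ} (h1 : ∀ i, G.rowDeg i = d)
    (h2 : ∀ j, G.colDeg j = d) (hn : 0 < G.a + G.b) : dOf (inCode G t) = d := by
  unfold dOf
  rw [nOf_inCode]
  exact reg_dg G t h1 h2 0 hn

/-- facts about the case of positive degree -/
theorem pos_case (G : BGraph) (t : ℕ) {d : ℕ} (h1 : ∀ i, G.rowDeg i = d)
    (h2 : ∀ j, G.colDeg j = d) (hd : dOf (inCode G t) ≠ 0) :
    dOf (inCode G t) = d ∧ 1 ≤ d ∧ 1 ≤ G.a ∧ G.a = G.b := by
  have hn : 0 < G.a + G.b := by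
    by_contra hc
    apply hd
    unfold dOf
    rw [nOf_inCode, show G.a + G.b = 0 by omega]
    simp [dg]
  have e := dOf_eq G t h1 h2 hn
  have hd1 : 1 ≤ d := by omega
  have e2 := reg_ab G hd1 h1 h2
  exact ⟨e, hd1, by omega, e2⟩

theorem ind_zero (G : BGraph) (t : ℕ) {d : ℕ} (h1 : ∀ i, G.rowDeg i = d)
    (h2 : ∀ j, G.colDeg j = d) (hd : dOf (inCode G t) = 0) :
    ind (adjOf (inCode G t)) (range (G.a + G.b)) = 2 ^ (G.a + G.b) := by
  have hno : ∀ u ∈ range (G.a + G.b), ∀ v ∈ range (G.a + G.b),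
      adjOf (inCode G t) u v = false := by
    intro u hu v hv
    have hn : 0 < G.a + G.b := by
      have := mem_range.1 hu
      omega
    have e := dOf_eq G t h1 h2 hn
    have e2 := reg_dg G t h1 h2 u (mem_range.1 hu)
    rw [← e, hd] at e2
    unfold dg at e2
    rw [card_eq_zero, filter_eq_empty_iff] at e2
    have := e2 hv
    simpa using this
  unfold ind
  rw [filter_true_of_mem, card_powerset, card_range]
  intro I hI u hu v hv
  rw [mem_powerset] at hI
  exact hno u (hI hu) v (hI hv)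

/-- the host data of a graph in the class for which the sparse case of the algorithm is used -/
theorem sparse_case {G : BGraph} {t : ℕ} (hG : ExpClass 200000 G)
    (hd : dOf (inCode G t) ≠ 0) (hs : spB (inCode G t) = true) :
    ∃ A lg, XHost (G.a + G.b) G.a (dOf (inCode G t)) A (adjOf (inCode G t)) ∧
      G.a + G.b + 1 ≤ 2 ^ lg ∧ 100000 * lg ≤ A ∧ 1 ≤ lg ∧
      192 * dOf (inCode G t) * lyOf (inCode G t) ≤ G.a := by
  obtain ⟨d, α, h1, h2, h3, h4⟩ := hG
  obtain ⟨e1, e2, e3, e4⟩ := pos_case G t h1 h2 hd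
  unfold spB at hs
  rw [decide_eq_true_eq, aOf_inCode] at hs
  have hly : 4 ≤ lyOf (inCode G t) := by unfold lyOf; omega
  have ha : 2 ≤ G.a := by
    rw [e1] at hs
    have h5 : 192 * 1 * 4 ≤ 192 * d * lyOf (inCode G t) :=
      Nat.mul_le_mul (Nat.mul_le_mul_left _ e2) hly
    omega
  have hlog : 1 ≤ Nat.log 2 (G.a + G.b) := by
    have := (Nat.le_log_iff_pow_le (b := 2) (x := 1) (y := G.a + G.b) (by norm_num)
      (by omega)).2 (by omega)
    exact this
  refine ⟨200000 * Nat.log 2 (G.a + G.b), Nat.log 2 (G.a + G.b) + 1, ?_, ?_, ?_, ?_, hs⟩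
  · rw [e1]
    refine xhost G t e2 h1 h2 h3 ?_ ha
    push_cast
    push_cast at h4
    exact h4
  · exact Nat.lt_pow_succ_log_self (by norm_num) _
  · omega
  · omega

theorem algE_spec {G : BGraph} {t : ℕ} (ht : 1 ≤ t) (hG : ExpClass 200000 G) :
    t * numIndep G.graph ≤ t * algE (inCode G t) + numIndep G.graph ∧
      t * algE (inCode G t) ≤ t * numIndep G.graph + numIndep G.graph := by
  rw [← ind_eq_numIndep G t]
  unfold algE
  by_cases hd : dOf (inCode G t) = 0
  · obtain ⟨d, α, h1, h2, -, -⟩ := hG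
    rw [if_pos (by simpa using hd), ind_zero G t h1 h2 hd, nOf_inCode]
    exact ⟨Nat.le_add_right _ _, Nat.le_add_right _ _⟩
  rw [if_neg (by simpa using hd)]
  have htw : tOf (inCode G t) = t := tOf_inCode G t
  by_cases hs : spB (inCode G t) = true
  · rw [if_pos hs]
    obtain ⟨A, lg, hh, k1, k2, k3, k4⟩ := sparse_case hG hd hs
    obtain ⟨p1, p2⟩ := two_pow_lyOf (w := inCode G t) (by rw [htw]; exact ht)
    have hK : 2 ^ (72 * (48 * lyOf (inCode G t))) ≤ KOf (inCode G t) := by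
      unfold KOf
      rw [show 72 * (48 * lyOf (inCode G t)) = lyOf (inCode G t) * 3456 by ring, pow_mul]
      exact Nat.pow_le_pow_left p2 _
    have hly : 1 ≤ lyOf (inCode G t) := by unfold lyOf; omega
    rw [htw] at p1
    have key := outE_spec (t := t) hh k1 k2 k3 hly k4 p1 hK
    rw [nOf_inCode, aOf_inCode]
    exact key
  · rw [if_neg hs]
    obtain ⟨d, α, h1, h2, -, -⟩ := hG
    obtain ⟨e1, e2, e3, e4⟩ := pos_case G t h1 h2 hd
    obtain ⟨p1, p2⟩ := two_pow_lyOf (w := inCode G t) (by rw [htw]; exact ht)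
    rw [htw] at p2
    have ha : G.a ≤ 192 * d * lyOf (inCode G t) := by
      unfold spB at hs
      rw [decide_eq_true_eq, aOf_inCode, e1] at hs
      omega
    have key := part1_spec (n := G.a + G.b) (a := G.a) (d := d) (ly := lyOf (inCode G t))
      (t := t) (adj := adjOf (inCode G t)) (by omega) (adjOf_symm _) (adjOf_self _)
      (reg_facts G t).2 (reg_dg G t h1 h2) e2 e3 ha ht p2
    unfold KI YI gI
    rw [htw, nOf_inCode, aOf_inCode]
    obtain ⟨k1, k2⟩ := key
    refine ⟨k2, ?_⟩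
    have := Nat.mul_le_mul_left t k1
    omega

theorem bounds {G : BGraph} {t : ℕ} (ht : 1 ≤ t) (hG : ExpClass 200000 G)
    (hd : dOf (inCode G t) ≠ 0) :
    (spB (inCode G t) = true → ∀ (sd : Bool) (j : ℕ),
      (ph1L (nOf (inCode G t)) (aOf (inCode G t)) (dOf (inCode G t)) (adjOf (inCode G t))
        (EOf (inCode G t)) sd j).length ≤ 7 * (16 * t) ^ 48 ∧
      (ph2L (nOf (inCode G t)) (aOf (inCode G t)) (dOf (inCode G t)) (adjOf (inCode G t))
        (EOf (inCode G t)) sd j).length ≤ 7 * (16 * t) ^ 48) ∧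
    (spB (inCode G t) = false → ∀ j,
      (plv (nOf (inCode G t)) (range (nOf (inCode G t))).card (gI (inCode G t))
        (adjOf (inCode G t)) (alive (nOf (inCode G t)) (aOf (inCode G t)) (adjOf (inCode G t))
          (range (nOf (inCode G t))) (YI (inCode G t) ^ 24))
        (range (nOf (inCode G t))) j).length ≤
        (16 * t) ^ 192 * (t * (16 * t) ^ 4416) ^ 24) := by
  have htw : tOf (inCode G t) = t := tOf_inCode G t
  obtain ⟨p1, p2⟩ := two_pow_lyOf (w := inCode G t) (by rw [htw]; exact ht)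
  rw [htw] at p2
  constructor
  · intro hs sd j
    obtain ⟨A, lg, hh, k1, k2, k3, k4⟩ := sparse_case hG hd hs
    have hly : 1 ≤ lyOf (inCode G t) := by unfold lyOf; omega
    have key := len1_le hh k1 k2 hly k4 (48 * lyOf (inCode G t)) sd j
    have hE : 2 ^ (48 * lyOf (inCode G t)) ≤ (16 * t) ^ 48 := by
      rw [show 48 * lyOf (inCode G t) = lyOf (inCode G t) * 48 by ring, pow_mul]
      exact Nat.pow_le_pow_left p2 _
    rw [nOf_inCode, aOf_inCode]
    exact ⟨key.1.trans (Nat.mul_le_mul_left _ hE), key.2.trans (Nat.mul_le_mul_left _ hE)⟩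
  · intro hs j
    obtain ⟨d, α, h1, h2, -, -⟩ := hG
    obtain ⟨e1, e2, e3, e4⟩ := pos_case G t h1 h2 hd
    have ha : G.a ≤ 192 * d * lyOf (inCode G t) := by
      unfold spB at hs
      rw [decide_eq_false_iff_not, aOf_inCode, e1] at hs
      omega
    have key := part1_len (n := G.a + G.b) (a := G.a) (d := d) (ly := lyOf (inCode G t))
      (t := t) (adj := adjOf (inCode G t)) (by omega) (adjOf_symm _) (adjOf_self _)
      (reg_facts G t).2 (reg_dg G t h1 h2) e2 e3 ha ht p2 j
    unfold YI gI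
    rw [htw, nOf_inCode, aOf_inCode]
    exact key

/-- There is a deterministic approximation scheme for the number of independent sets of regular
bipartite `α`-expanders with `α d ≥ C log₂ n`, `C = 200000`. -/
theorem exp_fptas : HasFPTAS (ExpClass 200000) := by
  let D : BGraph × ℕ → Prop := fun x => ExpClass 200000 x.1 ∧ 1 ≤ x.2
  let enc : BGraph × ℕ → List Bool := fun x => inCode x.1 x.2
  have hw : PolyC D [enc] enc := PolyC.var (by simp)
  have ht : PolyN D [enc] (fun x => tOf (enc x)) := poly_tOf hw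
  have ht16 : PolyN D [enc] (fun x => 16 * tOf (enc x)) := (PolyN.const 16).mul ht
  have hB : PolyN D [enc] (fun x => 7 * (16 * tOf (enc x)) ^ 48 +
      (16 * tOf (enc x)) ^ 192 * (tOf (enc x) * (16 * tOf (enc x)) ^ 4416) ^ 24) :=
    ((PolyN.const 7).mul (PolyN.pow ht16 48)).add
      ((PolyN.pow ht16 192).mul (PolyN.pow (ht.mul (PolyN.pow ht16 4416)) 24))
  have hval := algE_poly hw hB
    (fun x hx hd hs sd j _ => by
      have h := (bounds hx.2 hx.1 hd).1 hs sd j
      have htw : tOf (enc x) = x.2 := tOf_inCode x.1 x.2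
      rw [htw]
      exact ⟨h.1.trans (Nat.le_add_right _ _), h.2.trans (Nat.le_add_right _ _)⟩)
    (fun x hx hd hs j _ => by
      have h := (bounds hx.2 hx.1 hd).2 hs j
      have htw : tOf (enc x) = x.2 := tOf_inCode x.1 x.2
      rw [htw]
      exact h.trans (Nat.le_add_left _ _))
  obtain ⟨u, hu, hval⟩ := hval
  have hout : PolyC D [enc] (fun x => false :: u x) := PolyC.cons false hu
  refine ⟨fun x => false :: u x.1, PolyC.toTM2 enc (fun x => false :: u x) id hout, ?_⟩
  rintro ⟨⟨G, t⟩, hG, ht⟩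
  have hG' : ExpClass 200000 G := hG
  have ht' : 1 ≤ t := ht
  have h1 := algE_spec ht' hG'
  have h2 : binVal (u (G, t)) = algE (inCode G t) := by
    rw [binVal_eq_bval]
    exact hval (G, t) ⟨hG, ht⟩
  unfold Good
  simp only [outVal, h2]
  have htq : (0 : ℚ) < t := by exact_mod_cast ht'
  have h3 : (t : ℚ) * algE (inCode G t) ≤ t * numIndep G.graph + numIndep G.graph := by
    exact_mod_cast h1.2
  have h4 : (t : ℚ) * numIndep G.graph ≤ t * algE (inCode G t) + numIndep G.graph := by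
    exact_mod_cast h1.1
  rw [abs_le]
  constructor
  · rw [neg_le, le_div_iff₀ htq]
    nlinarith
  · rw [le_div_iff₀ htq]
    nlinarith

end Pool.Agent.Lib.Pa7c826e
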