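import Pool.Agent.Lib.Pa7c826e.EExp

/-!
Light sets have few independent subsets, and the root bound.
-/

namespace Pool.Agent.Lib.Pa7c826e

open Finset Pool.Agent.Lib.Pa7c826 Pool.Agent.Lib.Pa7c826t

variable {n a d A : ℕ} {adj : ℕ → ℕ → Bool}

namespace ELeafAux

/-- the host set: the part of `S` on the side `sd` and the whole other side -/
def hst (n a : ℕ) (sd : Bool) (S : Finset ℕ) : Finset ℕ :=
  sideS a sd S ∪ sideS a (!sd) (range n)

theorem mem_hst {sd : Bool} {S : Finset ℕ} {v : ℕ} : v ∈ hst n a sd S ↔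
    (v ∈ S ∧ decide (v < a) = sd) ∨ (v < n ∧ decide (v < a) = !sd) := by
  unfold hst sideS
  rw [mem_union, mem_filter, mem_filter, mem_range]

theorem sub_hst {sd : Bool} {S : Finset ℕ} (hS : S ⊆ range n) : S ⊆ hst n a sd S := by
  intro v hv
  rw [mem_hst]
  have h1 := mem_range.1 (hS hv)
  by_cases h : decide (v < a) = sd
  · exact Or.inl ⟨hv, h⟩
  · right
    refine ⟨h1, ?_⟩
    cases sd <;> simp_all

theorem hst_sub {sd : Bool} {S : Finset ℕ} (hS : S ⊆ range n) : hst n a sd S ⊆ range n := by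
  intro v hv
  rw [mem_hst] at hv
  rcases hv with h | h
  · exact hS h.1
  · exact mem_range.2 h.1

theorem filt_p {sd : Bool} {S : Finset ℕ} :
    (hst n a sd S).filter (fun v => decide (v < a) = sd) = sideS a sd S := by
  ext v
  rw [mem_filter, mem_hst]
  unfold sideS
  rw [mem_filter]
  constructor
  · rintro ⟨h | h, h2⟩
    · exact h
    · exfalso
      rw [h2] at h
      cases sd <;> simp at h
  · intro h
    exact ⟨Or.inl h, h.2⟩

theorem filt_np {sd : Bool} {S : Finset ℕ} :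
    (hst n a sd S).filter (fun v => ¬ decide (v < a) = sd) = sideS a (!sd) (range n) := by
  ext v
  rw [mem_filter, mem_hst]
  unfold sideS
  rw [mem_filter, mem_range]
  constructor
  · rintro ⟨h | h, h2⟩
    · exact absurd h.2 h2
    · exact h
  · intro h
    refine ⟨Or.inr h, fun h2 => ?_⟩
    rw [h2] at h
    cases sd <;> simp at h

theorem hp {sd : Bool} : (∀ v, (decide (v < a) = sd) ↔ v < a) ∨
    ∀ v, (decide (v < a) = sd) ↔ ¬ v < a := by
  cases sd
  · right
    intro v
    rw [decide_eq_false_iff_not]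
  · left
    intro v
    rw [decide_eq_true_iff]

theorem hbipp (hh : XHost n a d A adj) {sd : Bool} (u v : ℕ) (h : adj u v = true) :
    (decide (u < a) = sd ↔ ¬ decide (v < a) = sd) := by
  have h1 := hh.bip u v h
  rcases hp (a := a) (sd := sd) with hp | hp
  · rw [hp, hp]; exact h1
  · rw [hp, hp]; tauto

theorem hcol (hh : XHost n a d A adj) {sd : Bool} {S : Finset ℕ} (hS : S ⊆ range n) :
    ∀ u ∈ hst n a sd S, dg adj (hst n a sd S) u ≤ d := by
  intro u hu
  have h1 := hh.reg u (mem_range.1 (hst_sub hS hu))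
  rw [← h1]
  unfold dg
  exact card_le_card (filter_subset_filter _ (hst_sub hS))

theorem hrow (hh : XHost n a d A adj) {sd : Bool} {S : Finset ℕ} (hS : S ⊆ range n) :
    ∀ v ∈ hst n a sd S, decide (v < a) = sd → d ≤ dg adj (hst n a sd S) v := by
  intro v hv hpv
  have h1 := hh.reg v (mem_range.1 (hst_sub hS hv))
  rw [← h1]
  unfold dg
  apply card_le_card
  intro u hu
  rw [mem_filter, mem_range] at hu
  rw [mem_filter, mem_hst]
  refine ⟨Or.inr ⟨hu.1, ?_⟩, hu.2⟩
  have h2 := (hbipp hh (sd := sd) v u hu.2).1 hpv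
  cases sd <;> simp_all

theorem hH' {sd : Bool} {S : Finset ℕ} {H : ℕ} (hH : (sideS a sd S).card ≤ d * H) :
    ((hst n a sd S).filter (fun v => decide (v < a) = sd)).card * (1 + (d - d)) ≤ d * H := by
  rw [filt_p, Nat.sub_self, add_zero, mul_one]
  exact hH

theorem cardb (hh : XHost n a d A adj) {sd : Bool} {S : Finset ℕ} :
    ((hst n a sd S).filter (fun v => ¬ decide (v < a) = sd)).card = a := by
  rw [filt_np]
  exact card_side hh.hn (!sd)

end ELeafAux

open ELeafAux

theorem light_ind (hh : XHost n a d A adj) {sd : Bool} {S T : Finset ℕ} {H : ℕ}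
    (hS : S ⊆ range n) (hH : (sideS a sd S).card ≤ d * H) (hT : T ⊆ S)
    (hl : ∀ v ∈ T, 2 * dg adj T v ≤ d) :
    (ind adj T : ℝ) * (33 / 32) ^ (2 * dfc n a adj T) ≤ 2 ^ (a + H) := by
  have hTn : T ⊆ range n := hT.trans hS
  obtain ⟨M, hM, hMc⟩ := dead_mat (n := n) hh.sym (fun v => decide (v < a) = sd) hp hh.bip hTn
  have hleaf := (leaf_bound hh.sym (fun v => decide (v < a) = sd) (hbipp hh) (S₀ := hst n a sd S)
    (S := T) hh.hd le_rfl (hrow hh hS) (fun u hu _ => hcol hh hS u hu) (hH' hH)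
    (hT.trans (sub_hst hS)) hl hM).1
  rw [cardb hh, hMc] at hleaf
  have hspec := (dfc_spec hh hTn).1
  have h1 : a + nu n a adj T = dfc n a adj T + T.card := by
    unfold dfc
    omega
  rw [h1, mul_add, pow_add, ← mul_assoc] at hleaf
  exact le_of_mul_le_mul_right hleaf (by positivity)

theorem light_cov (hh : XHost n a d A adj) {sd : Bool} {S T : Finset ℕ} {H : ℕ}
    (hS : S ⊆ range n) (hH : (sideS a sd S).card ≤ d * H) (hT : T ⊆ S)
    (hl : ∀ v ∈ T, 2 * dg adj T v ≤ d) :
    (cov n adj T).card ≤ 24 * (H + dfc n a adj T) := by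
  have hTn : T ⊆ range n := hT.trans hS
  obtain ⟨M, hM, hMc⟩ := cov_matching (n := n) hh.sym hh.irr (fun v => decide (v < a) = sd)
    (hbipp hh) hTn
  have hleaf := (leaf_bound hh.sym (fun v => decide (v < a) = sd) (hbipp hh) (S₀ := hst n a sd S)
    (S := T) hh.hd le_rfl (hrow hh hS) (fun u hu _ => hcol hh hS u hu) (hH' hH)
    (hT.trans (sub_hst hS)) hl hM).2
  rw [cardb hh, ← hMc] at hleaf
  set c := (cov n adj T).card with hc
  set e := dfc n a adj T with he
  have hind : (2 : ℝ) ^ a ≤ 2 ^ e * ind adj T := by exact_mod_cast pow_le_ind hh hTn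
  have h1 : (2 : ℝ) ^ a * (33 / 32) ^ c ≤ 2 ^ a * 2 ^ (H + e) := by
    calc (2 : ℝ) ^ a * (33 / 32) ^ c ≤ (2 ^ e * ind adj T) * (33 / 32) ^ c := by gcongr
      _ = 2 ^ e * (ind adj T * (33 / 32) ^ c) := by ring
      _ ≤ 2 ^ e * 2 ^ (a + H) := by gcongr
      _ = 2 ^ a * 2 ^ (H + e) := by ring
  have h2 : ((33 : ℝ) / 32) ^ c ≤ 2 ^ (H + e) := le_of_mul_le_mul_left h1 (by positivity)
  have h3 : ((33 : ℝ) / 32) ^ c ≤ (33 / 32) ^ (24 * (H + e)) := by
    rw [pow_mul]
    exact h2.trans (pow_le_pow_left₀ (by norm_num) (by norm_num) _)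
  exact (pow_le_pow_iff_right₀ (by norm_num)).1 h3

theorem root_le (hh : XHost n a d A adj) {sd : Bool} {S : Finset ℕ} {H : ℕ}
    (hS : S ⊆ range n) (hH : (sideS a sd S).card ≤ d * H) :
    wind adj (1 / 32) S ≤ 2 ^ H * (33 / 32) ^ a := by
  have hroot := root_bound hh.sym (fun v => decide (v < a) = sd) (hbipp hh)
    (S := hst n a sd S) hh.hd le_rfl (hrow hh hS) (fun u hu _ => hcol hh hS u hu) (hH' hH)
    (lam := 1 / 32) (by norm_num) (by norm_num)
  rw [cardb hh] at hroot
  have h1 : (1 : ℝ) + 1 / 32 = 33 / 32 := by norm_num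
  rw [h1] at hroot
  refine le_trans ?_ hroot
  unfold wind
  refine sum_le_sum_of_subset_of_nonneg ?_ (fun I _ _ => by positivity)
  exact filter_subset_filter _ (powerset_mono.2 (sub_hst hS))

end Pool.Agent.Lib.Pa7c826e
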