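import Pool.Agent.Lib.Pa7c826e.ETrk
import Pool.Agent.Lib.Pa7c826e.EExp

/-!
The pruned levels are the nodes of the full levels that are alive.

PROOFS. `itl_eq`: induction on `t`. `itl al l (t + 1) = ((itl al l t).flatMap kids).filter al`, use
`filter_flatMap_kids` (`Pa7c826t/Tree.lean`; `hmono` there is required for subsets of a set `S₀`,
take `S₀ = range n`), and that `(lvw n m g ad S (t + 1)).map Prod.fst` is the `flatMap` of `kids`
over `(lvw n m g ad S t).map Prod.fst` (proof of `plv_eq` in `Pa7c826t/Tree.lean`). `al_mono`: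
`dfc_mono`. `ph1L_eq`: `itl_eq` with `l = [range n]`, alive by `dfc_range`. `ph2L_eq`: `itl_eq`
with `l` the first components of the leaves of the first phase (`ph1L_eq`, `lvw_sub`).
-/

namespace Pool.Agent.Lib.Pa7c826e

open Finset Pool.Agent.Lib.Pa7c826 Pool.Agent.Lib.Pa7c826t

theorem lvw_succ_fst {n m g : ℕ} {ad : ℕ → ℕ → Bool} (S : Finset ℕ) (t : ℕ) :
    (lvw n m g ad S (t + 1)).map Prod.fst =
      ((lvw n m g ad S t).map Prod.fst).flatMap (kids n m g ad) := by
  simp only [lvw]
  rw [List.map_flatMap, List.flatMap_map]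
  congr 1
  funext x
  exact (kids_eq_kidsw x).symm

theorem itl_eq {n m g : ℕ} {ad : ℕ → ℕ → Bool} {al : Finset ℕ → Bool}
    (hmono : ∀ S T, S ⊆ range n → T ⊆ S → al T = true → al S = true)
    {l : List (Finset ℕ)} (hl : ∀ S ∈ l, S ⊆ range n) (t : ℕ) :
    itl n m g ad al (l.filter al) t =
      (l.flatMap (fun S => (lvw n m g ad S t).map Prod.fst)).filter al := by
  induction t with
  | zero =>
    simp [itl, lvw]
  | succ t ih =>
    simp only [itl]
    rw [ih, filter_flatMap_kids (S₀ := range n) hmono _ ?_]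
    · congr 1
      rw [List.flatMap_assoc]
      congr 1
      funext S
      exact (lvw_succ_fst S t).symm
    · intro T hT
      obtain ⟨S, hS, hTS⟩ := List.mem_flatMap.1 hT
      obtain ⟨x, hx, rfl⟩ := List.mem_map.1 hTS
      exact (lvw_sub t x hx).trans (hl S hS)

variable {n a d A : ℕ} {adj : ℕ → ℕ → Bool}

theorem al_mono (hh : XHost n a d A adj) (E : ℕ) (S T : Finset ℕ) (hS : S ⊆ range n)
    (hT : T ⊆ S) (h : alE n a adj E T = true) : alE n a adj E S = true := by
  unfold alE at h ⊢
  rw [decide_eq_true_eq] at h ⊢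
  exact (dfc_mono hh hS hT).trans h

theorem ph1L_eq (hh : XHost n a d A adj) (E : ℕ) (sd : Bool) (t : ℕ) :
    ph1L n a d adj E sd t =
      ((lvw n d 2 (adS a sd adj) (range n) t).map Prod.fst).filter (alE n a adj E) := by
  have h0 : alE n a adj E (range n) = true := by
    unfold alE
    rw [decide_eq_true_eq, dfc_range hh]
    exact Nat.zero_le _
  have h1 : [range n].filter (alE n a adj E) = [range n] := by
    rw [List.filter_cons_of_pos h0, List.filter_nil]
  unfold ph1L
  rw [← h1, itl_eq (al_mono hh E) (l := [range n]) (by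
    intro S hS
    rw [List.mem_singleton] at hS
    rw [hS])]
  rw [List.flatMap_cons, List.flatMap_nil, List.append_nil]

theorem ph2L_eq (hh : XHost n a d A adj) (E : ℕ) (sd : Bool) (t : ℕ) :
    ph2L n a d adj E sd t =
      ((((lvw n d 2 (adS a sd adj) (range n) n).map Prod.fst).flatMap
        (fun S => (lvw n d 2 adj S t).map Prod.fst))).filter (alE n a adj E) := by
  unfold ph2L
  rw [ph1L_eq hh]
  refine itl_eq (al_mono hh E) ?_ t
  intro S hS
  obtain ⟨x, hx, rfl⟩ := List.mem_map.1 hS
  exact lvw_sub n x hx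

end Pool.Agent.Lib.Pa7c826e
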