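import Pool.Agent.Lib.Pa7c826t.TreePoly
import Pool.Agent.Lib.Pa7c826e.EDef

/-!
The pruned tree for a general adjacency function and a general initial list is computable in
polynomial time if its levels have polynomial size.

PROOF. The same as in `Pa7c826t/TreePoly.lean`, with `adjOf w` replaced by `ad w` and the list
`[S₀]` replaced by `l`. `upolyE_adj`: `poly_adj`. `upolyE_adS`: `adS` is
`(decide (u < a) == sd) && adj u v`; for `sd = true` this is `decide (u < a) && adj u v`
(`PolyB.lt`, `PolyB.and`), for `sd = false` it is `!decide (u < a) && adj u v` (`PolyB.not`).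
First the closure lemmas for `dg (ad w) S v` (`PolyS.card`/`PolyN.count` with `PolyS.filter` as in
`poly_dg` of `Pa7c826/AlgoPoly.lean`), `hvy`, `chs`, `anyH`, `outT`, `inT` (copy `poly_hvy`,
`poly_chs`, `poly_anyH`, `poly_outT`, `poly_inT`), then `codeKids`, `block`; `poly_one`,
`codeL_kids`, `codeL_step`, `flatMap_range_take`, `poly_nodeAt` can be used as they are
(`codeL_step` holds for every `adj`). Final step as in `poly_plv` (`PolyC.natRec`) with initial code
`hl`; `itl al l 0 = l`, and all nodes are subsets of `range n` (`hsub`, `kids_subset`, induction).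
-/

namespace Pool.Agent.Lib.Pa7c826e

open Pool.Agent.Lib.PolyTime Pool.Agent.Lib.Pa7c826 Pool.Agent.Lib.Pa7c826t Finset

/-- adjacency functions depending on the input string, computable in every context -/
def UPolyE (ad : List Bool → ℕ → ℕ → Bool) : Prop :=
  ∀ {β : Type} {D' : β → Prop} {ctx' : List (β → List Bool)} {w' : β → List Bool}
    {u v : β → ℕ}, PolyC D' ctx' w' → PolyN D' ctx' u → PolyN D' ctx' v →
      PolyB D' ctx' (fun b => ad (w' b) (u b) (v b))

theorem upolyE_adj : UPolyE adjOf := fun hw hu hv => poly_adj hw hu hv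

theorem upolyE_adS (sd : Bool) : UPolyE (fun w => adS (aOf w) sd (adjOf w)) := by
  intro β D' ctx' w' u v hw hu hv
  have h1 : PolyB D' ctx' (fun b => decide (u b < aOf (w' b))) := PolyB.lt hu (poly_aOf hw)
  have h2 := poly_adj hw hu hv
  cases sd with
  | true =>
    refine (h1.and h2).congr fun b _ => ?_
    simp [adS]
  | false =>
    refine (h1.not.and h2).congr fun b _ => ?_
    simp only [adS]
    congr 1
    cases decide (u b < aOf (w' b)) <;> rfl

namespace ETreePolyAux

section

variable {ad : List Bool → ℕ → ℕ → Bool} {α : Type} {D : α → Prop} {ctx : List (α → List Bool)}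
  {w : α → List Bool} {S : α → Finset ℕ} {v m g : α → ℕ}

theorem poly_dgE (had : UPolyE ad) (hw : PolyC D ctx w)
    (hS : PolyS D ctx (fun a => nOf (w a)) S)
    (hv : PolyN D ctx v) : PolyN D ctx (fun a => dg (ad (w a)) (S a) (v a)) := by
  have W := up (n := fun a => nOf (w a)) hw
  have V := upN (n := fun a => nOf (w a)) hv
  have L := last (D := D) (ctx := ctx) (n := fun a => nOf (w a))
  exact PolyS.card (poly_nOf hw) (PolyS.filter (φ := fun p : α × ℕ => ad (w p.1) (v p.1) p.2)
    (poly_nOf hw) hS (had W V L))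

theorem poly_hvyE (had : UPolyE ad) (hm : PolyN D ctx m) (hg : PolyN D ctx g)
    (hw : PolyC D ctx w)
    (hS : PolyS D ctx (fun a => nOf (w a)) S) (hv : PolyN D ctx v) :
    PolyB D ctx (fun a => hvy (m a) (g a) (ad (w a)) (S a) (v a)) :=
  (hS.mem hv).and (PolyB.le hm (hg.mul (poly_dgE had hw hS hv)))

theorem poly_chsE (had : UPolyE ad) (hm : PolyN D ctx m) (hg : PolyN D ctx g)
    (hw : PolyC D ctx w)
    (hS : PolyS D ctx (fun a => nOf (w a)) S) (hv : PolyN D ctx v) :
    PolyB D ctx (fun a => chs (m a) (g a) (ad (w a)) (S a) (v a)) := by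
  have W := up (n := v) hw
  have M := upN (n := v) hm
  have G := upN (n := v) hg
  have SS := hS.up (m := v)
  have L := last (D := D) (ctx := ctx) (n := v)
  exact (poly_hvyE had hm hg hw hS hv).and (PolyB.exists_lt
    (φ := fun p : α × ℕ => hvy (m p.1) (g p.1) (ad (w p.1)) (S p.1) p.2) hv
    (poly_hvyE had M G W SS L)).not

theorem poly_anyHE (had : UPolyE ad) (hm : PolyN D ctx m) (hg : PolyN D ctx g)
    (hw : PolyC D ctx w) (hS : PolyS D ctx (fun a => nOf (w a)) S) :
    PolyB D ctx (fun a => anyH (nOf (w a)) (m a) (g a) (ad (w a)) (S a)) := by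
  have W := up (n := fun a => nOf (w a)) hw
  have M := upN (n := fun a => nOf (w a)) hm
  have G := upN (n := fun a => nOf (w a)) hg
  have SS := hS.up (m := fun a => nOf (w a))
  have L := last (D := D) (ctx := ctx) (n := fun a => nOf (w a))
  exact PolyB.exists_lt (φ := fun p : α × ℕ => hvy (m p.1) (g p.1) (ad (w p.1)) (S p.1) p.2)
    (poly_nOf hw) (poly_hvyE had M G W SS L)

theorem poly_outTE (had : UPolyE ad) (hm : PolyN D ctx m) (hg : PolyN D ctx g)
    (hw : PolyC D ctx w) (hS : PolyS D ctx (fun a => nOf (w a)) S) :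
    PolyS D ctx (fun a => nOf (w a)) (fun a => outT (m a) (g a) (ad (w a)) (S a)) := by
  have W := up (n := fun a => nOf (w a)) hw
  have M := upN (n := fun a => nOf (w a)) hm
  have G := upN (n := fun a => nOf (w a)) hg
  have SS := hS.up (m := fun a => nOf (w a))
  have L := last (D := D) (ctx := ctx) (n := fun a => nOf (w a))
  have C := poly_chsE had M G W SS L
  exact PolyS.filter (φ := fun p : α × ℕ =>
    !chs (m p.1) (g p.1) (ad (w p.1)) (S p.1) p.2) (poly_nOf hw) hS C.not

theorem poly_inTE (had : UPolyE ad) (hm : PolyN D ctx m) (hg : PolyN D ctx g)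
    (hw : PolyC D ctx w) (hS : PolyS D ctx (fun a => nOf (w a)) S) :
    PolyS D ctx (fun a => nOf (w a))
      (fun a => inT (nOf (w a)) (m a) (g a) (ad (w a)) (S a)) := by
  have W := up (n := fun a => nOf (w a)) hw
  have M := upN (n := fun a => nOf (w a)) hm
  have G := upN (n := fun a => nOf (w a)) hg
  have SS := hS.up (m := fun a => nOf (w a))
  have L := last (D := D) (ctx := ctx) (n := fun a => nOf (w a))
  have W2 := up (n := fun p : α × ℕ => nOf (w p.1)) W
  have M2 := upN (n := fun p : α × ℕ => nOf (w p.1)) M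
  have G2 := upN (n := fun p : α × ℕ => nOf (w p.1)) G
  have SS2 := SS.up (m := fun p : α × ℕ => nOf (w p.1))
  have L1 := upN (n := fun p : α × ℕ => nOf (w p.1)) L
  have L2 := last (D := fun p : α × ℕ => D p.1 ∧ p.2 < nOf (w p.1))
    (ctx := PolyTime.lift ctx ++ [fun p : α × ℕ => un p.2])
    (n := fun p : α × ℕ => nOf (w p.1))
  have C := poly_chsE had M G W SS L
  have C2 := poly_chsE had M2 G2 W2 SS2 L2
  have A2 := had W2 L2 L1
  refine PolyS.filter (φ := fun p : α × ℕ =>
    (!chs (m p.1) (g p.1) (ad (w p.1)) (S p.1) p.2 &&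
    !decide (∃ v < nOf (w p.1), (chs (m p.1) (g p.1) (ad (w p.1)) (S p.1) v &&
      ad (w p.1) v p.2) = true))) (poly_nOf hw) hS ?_
  refine C.not.and (PolyB.not ?_)
  exact PolyB.exists_lt (φ := fun q : (α × ℕ) × ℕ =>
    (chs (m q.1.1) (g q.1.1) (ad (w q.1.1)) (S q.1.1) q.2 && ad (w q.1.1) q.2 q.1.2))
    (poly_nOf W) (C2.and A2)

theorem poly_codeKidsE {m g : List Bool → ℕ} {al : List Bool → Finset ℕ → Bool}
    (had : UPolyE ad) (hm : UPoly m) (hg : UPoly g) (hal : UPolyA al) (hw : PolyC D ctx w)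
    {S : α → Finset ℕ} (hS : PolyS D ctx (fun a => nOf (w a)) S) :
    PolyC D ctx (fun a => codeL (nOf (w a))
      ((kids (nOf (w a)) (m (w a)) (g (w a)) (ad (w a)) (S a)).filter (al (w a)))) := by
  have M := hm hw
  have G := hg hw
  have h1 := poly_anyHE had M G hw hS
  have h2 := (poly_one hal hw (poly_outTE had M G hw hS)).append
    (poly_one hal hw (poly_inTE had M G hw hS))
  have h3 := poly_one hal hw hS
  exact (PolyC.ite h1 (h2.mono fun _ h => h.1) (h3.mono fun _ h => h.1)).congr
    (fun a _ => (codeL_kids _ _ _ _ _ _).symm)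

theorem poly_blockE {m g : List Bool → ℕ} {al : List Bool → Finset ℕ → Bool}
    (had : UPolyE ad) (hm : UPoly m) (hg : UPoly g) (hal : UPolyA al) (hw : PolyC D ctx w)
    {c : α → List Bool} {i : α → ℕ} (hc : PolyC D ctx c) (hi : PolyN D ctx i) :
    PolyC D ctx (fun a => if (c a).getD (i a * (nOf (w a) + 1)) false then
      codeL (nOf (w a)) ((kids (nOf (w a)) (m (w a)) (g (w a)) (ad (w a))
        (nodeAt (nOf (w a)) (c a) (i a))).filter (al (w a))) else []) :=
  PolyC.ite (φ := fun a => (c a).getD (i a * (nOf (w a) + 1)) false)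
    (PolyB.getD hc (hi.mul (poly_nOf hw).succ))
    ((poly_codeKidsE had hm hg hal hw (poly_nodeAt hw hc hi)).mono fun _ h => h.1) PolyC.nil

end

end ETreePolyAux

open ETreePolyAux

theorem itl_subset {n m g : ℕ} {ad : ℕ → ℕ → Bool} {al : Finset ℕ → Bool}
    {l : List (Finset ℕ)} (hl : ∀ S ∈ l, S ⊆ range n) (t : ℕ) :
    ∀ S ∈ itl n m g ad al l t, S ⊆ range n := by
  induction t with
  | zero => exact hl
  | succ t ih =>
    intro T hT
    simp only [itl, List.mem_filter, List.mem_flatMap] at hT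
    obtain ⟨⟨S, hS, hTS⟩, -⟩ := hT
    exact (kids_subset hTS).trans (ih S hS)

theorem poly_itl {m g : List Bool → ℕ} {ad : List Bool → ℕ → ℕ → Bool}
    {al : List Bool → Finset ℕ → Bool} (hm : UPoly m) (hg : UPoly g) (had : UPolyE ad)
    (hal : UPolyA al) {α : Type} {D : α → Prop} {ctx : List (α → List Bool)}
    {w : α → List Bool} (hw : PolyC D ctx w) {l : α → List (Finset ℕ)}
    (hl : PolyC D ctx (fun x => codeL (nOf (w x)) (l x)))
    (hsub : ∀ x, D x → ∀ S ∈ l x, S ⊆ range (nOf (w x))) {k B : α → ℕ} (hk : PolyN D ctx k)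
    (hB : PolyN D ctx B) (hlen : ∀ x, D x → ∀ j, j ≤ k x →
      (itl (nOf (w x)) (m (w x)) (g (w x)) (ad (w x)) (al (w x)) (l x) j).length ≤ B x) :
    PolyC D ctx (fun x => codeL (nOf (w x))
      (itl (nOf (w x)) (m (w x)) (g (w x)) (ad (w x)) (al (w x)) (l x) (k x))) := by
  obtain ⟨pB, hpB⟩ := PolyC.length_le hB
  obtain ⟨pn, hpn⟩ := PolyC.length_le (poly_nOf hw)
  refine PolyC.natRec (fun x j => codeL (nOf (w x))
      (itl (nOf (w x)) (m (w x)) (g (w x)) (ad (w x)) (al (w x)) (l x) j)) hk ?_ ?_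
    ⟨pB * (pn + 1), fun x hx j hj => ?_⟩
  · exact hl
  · have W := up2 (n := k) (u := fun p : α × ℕ => codeL (nOf (w p.1))
      (itl (nOf (w p.1)) (m (w p.1)) (g (w p.1)) (ad (w p.1)) (al (w p.1)) (l p.1)
        p.2)) hw
    have C : PolyC (fun p : α × ℕ => D p.1 ∧ p.2 < k p.1)
        (PolyTime.lift ctx ++ [fun p => un p.2, fun p => codeL (nOf (w p.1))
          (itl (nOf (w p.1)) (m (w p.1)) (g (w p.1)) (ad (w p.1)) (al (w p.1))
            (l p.1) p.2)])
        (fun p => codeL (nOf (w p.1))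
          (itl (nOf (w p.1)) (m (w p.1)) (g (w p.1)) (ad (w p.1)) (al (w p.1))
            (l p.1) p.2)) := PolyC.var (by simp)
    have N := PolyN.length C
    have W' := up (n := fun p : α × ℕ => (codeL (nOf (w p.1))
      (itl (nOf (w p.1)) (m (w p.1)) (g (w p.1)) (ad (w p.1)) (al (w p.1)) (l p.1)
        p.2)).length) W
    have C' := up (n := fun p : α × ℕ => (codeL (nOf (w p.1))
      (itl (nOf (w p.1)) (m (w p.1)) (g (w p.1)) (ad (w p.1)) (al (w p.1)) (l p.1)
        p.2)).length) C
    refine (PolyC.flatMap_range N (poly_blockE (i := fun q : (α × ℕ) × ℕ => q.2) had hm hg hal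
      W' C' (PolyC.var (by simp)))).congr ?_
    rintro ⟨x, j⟩ ⟨hx, -⟩
    have hl' : ∀ T ∈ itl (nOf (w x)) (m (w x)) (g (w x)) (ad (w x)) (al (w x)) (l x) j,
        T ⊆ range (nOf (w x)) := itl_subset (hsub x hx) j
    exact codeL_step (n := nOf (w x)) (m := m (w x)) (g := g (w x)) (adj := ad (w x))
      (al := al (w x)) hl'
  · have h1 := hpB x hx
    have h2 := hpn x hx
    rw [un_length] at h1 h2
    rw [length_codeL]
    simp only [Polynomial.eval_mul, Polynomial.eval_add, Polynomial.eval_one]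
    exact Nat.mul_le_mul ((hlen x hx j hj).trans h1) (Nat.succ_le_succ h2)

end Pool.Agent.Lib.Pa7c826e
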