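import Pool.Agent.Lib.Pa7c826e.EDef

/-!
Following an independent set through the branching tree.

PROOFS. Tools in `Pa7c826t/TreeDef.lean` and `Pa7c826t/Tree.lean`: `chs_unique`, `exists_chs`,
`anyH_iff` (needs `S ⊆ range n`), `outT_eq`, `inT_eq`, `chs_hvy`, `hvy_mem`, `lvw_light`,
`kids_eq_kidsw`. `chsS_eq`: uniqueness. `stp_mem`: unfold. `trk_mem`: induction. `lvT_fst`:
induction, both trees take the same children (`kidT`, `kidsw`). `lvT_light`: from `lvT_fst` and
`lvw_light`. `lvT_props`: induction; the chosen vertex lies in `y.1` (so it is not in `y.2`) and is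
removed. `trk_cover`: induction on `t`: if the chosen vertex `v` is in `I`, the neighbours of `v`
(`ad v u = adj v u` by `Cmp`) are not in `I`. `trk_congr`: all decisions concern vertices of the
current first component, which is a subset of `x.1` (`lvT_props`-style induction: prove by
induction on `t` that both paths are equal and their first component is contained in `x.1`).

`trk_sum`: first the case `t = 1`: for `h' : Nd → Finset ℕ → ℕ` and `x.1 ⊆ range n`,
`∑ I ∈ IS adj x.1, h' (stp I x) (I ∩ (stp I x).1) = ((kidT x).map (fun y => ∑ J ∈ IS adj y.1, h' y J)).sum`: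
if `x.1` has no heavy vertex, `stp I x = x` and `I ∩ x.1 = I`. Otherwise split `IS adj x.1` into the
sets without and with the chosen vertex `v`: the first are `IS adj (x.1.erase v)`, the second are
`insert v J`, `J ∈ IS adj ((x.1.erase v).filter (fun u => adj v u = false))` (compare `wind_erase` in
`Pa7c826t/WInd.lean`), and `insert v J ∩ inT = J`. Induction on `t`: apply the induction hypothesis
to `h'' y J = h (stp J y) (J ∩ (stp J y).1)`, where `stp (I ∩ y.1) y = stp I y`, and then the case
`t = 1` to every `y ∈ lvT x t` (`y.1 ⊆ x.1 ⊆ range n`); `lvT x (t + 1)` is a `flatMap`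
(compare `sum_flatMap_eq` in `Pa7c826t/Tree.lean`).
-/

namespace Pool.Agent.Lib.Pa7c826e

open Finset Pool.Agent.Lib.Pa7c826 Pool.Agent.Lib.Pa7c826t

variable {n m g : ℕ} {ad adj : ℕ → ℕ → Bool}

theorem chsS_eq {S : Finset ℕ} {v : ℕ} (h : chs m g ad S v = true) : chsS m g ad S = {v} := by
  ext u
  unfold chsS
  rw [mem_filter, mem_singleton]
  constructor
  · rintro ⟨_, h2⟩
    exact chs_unique h2 h
  · rintro rfl
    exact ⟨hvy_mem (chs_hvy h), h⟩

theorem chsS_subset (S : Finset ℕ) : chsS m g ad S ⊆ S := filter_subset _ _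

theorem stp_mem (I : Finset ℕ) (x : Nd) : stp n m g ad I x ∈ kidT n m g ad x := by
  unfold stp kidT
  split_ifs <;> simp

theorem stp_sub (I : Finset ℕ) (x : Nd) : (stp n m g ad I x).1 ⊆ x.1 := by
  unfold stp
  split_ifs
  · exact inT_subset _
  · exact outT_subset _
  · exact subset_rfl

theorem stp_congr {I J : Finset ℕ} {x : Nd} (h : ∀ v ∈ x.1, (v ∈ I ↔ v ∈ J)) :
    stp n m g ad I x = stp n m g ad J x := by
  have h1 : chsS m g ad x.1 ⊆ I ↔ chsS m g ad x.1 ⊆ J := by
    constructor
    · intro h1 v hv
      exact (h v (chsS_subset _ hv)).1 (h1 hv)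
    · intro h1 v hv
      exact (h v (chsS_subset _ hv)).2 (h1 hv)
  unfold stp
  simp only [h1]

theorem trk_mem (I : Finset ℕ) (x : Nd) (t : ℕ) :
    trk n m g ad I x t ∈ lvT n m g ad x t := by
  induction t with
  | zero => simp [trk, lvT]
  | succ t ih =>
    simp only [trk, lvT, List.mem_flatMap]
    exact ⟨_, ih, stp_mem _ _⟩

theorem kids_eq_kidT (x : Nd) : kids n m g ad x.1 = (kidT n m g ad x).map Prod.fst := by
  unfold kids kidT
  split_ifs <;> rfl

theorem lvT_sub (x : Nd) (t : ℕ) : ∀ y ∈ lvT n m g ad x t, y.1 ⊆ x.1 := by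
  induction t with
  | zero =>
    intro y hy
    simp only [lvT, List.mem_cons, List.not_mem_nil, or_false] at hy
    rw [hy]
  | succ t ih =>
    intro y hy
    simp only [lvT, List.mem_flatMap] at hy
    obtain ⟨z, hz, hyz⟩ := hy
    have h1 : y.1 ∈ kids n m g ad z.1 := by
      rw [kids_eq_kidT]
      exact List.mem_map_of_mem hyz
    exact (kids_subset h1).trans (ih z hz)

theorem lvT_fst (x : Nd) (t : ℕ) :
    (lvT n m g ad x t).map Prod.fst = (lvw n m g ad x.1 t).map Prod.fst := by
  induction t with
  | zero => simp [lvT, lvw]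
  | succ t ih =>
    have e1 : (lvw n m g ad x.1 (t + 1)).map Prod.fst =
        ((lvw n m g ad x.1 t).map Prod.fst).flatMap (kids n m g ad) := by
      simp only [lvw]
      rw [List.map_flatMap, List.flatMap_map]
      congr 1
      funext y
      exact (kids_eq_kidsw y).symm
    have e2 : (lvT n m g ad x (t + 1)).map Prod.fst =
        ((lvT n m g ad x t).map Prod.fst).flatMap (kids n m g ad) := by
      simp only [lvT]
      rw [List.map_flatMap, List.flatMap_map]
      congr 1
      funext y
      exact (kids_eq_kidT y).symm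
    rw [e1, e2, ih]

theorem lvT_props {x : Nd} (hx : Disjoint x.1 x.2) (t : ℕ) :
    ∀ y ∈ lvT n m g ad x t, y.1 ⊆ x.1 ∧ x.2 ⊆ y.2 ∧ y.2 ⊆ x.2 ∪ x.1 ∧ Disjoint y.1 y.2 := by
  induction t with
  | zero =>
    intro y hy
    simp only [lvT, List.mem_cons, List.not_mem_nil, or_false] at hy
    rw [hy]
    exact ⟨subset_rfl, subset_rfl, subset_union_left, hx⟩
  | succ t ih =>
    intro y hy
    simp only [lvT, List.mem_flatMap] at hy
    obtain ⟨z, hz, hyz⟩ := hy
    obtain ⟨h1, h2, h3, h4⟩ := ih z hz
    unfold kidT at hyz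
    split_ifs at hyz
    · simp only [List.mem_cons, List.not_mem_nil, or_false] at hyz
      rcases hyz with rfl | rfl
      · exact ⟨(outT_subset _).trans h1, h2, h3, disjoint_of_subset_left (outT_subset _) h4⟩
      · refine ⟨(inT_subset _).trans h1, h2.trans subset_union_left, ?_, ?_⟩
        · apply union_subset h3
          exact ((chsS_subset _).trans h1).trans subset_union_right
        · rw [disjoint_union_right]
          refine ⟨disjoint_of_subset_left (inT_subset _) h4, ?_⟩
          rw [disjoint_left]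
          intro u hu hu2
          simp only [inT, mem_filter, Bool.and_eq_true, Bool.not_eq_true'] at hu
          simp only [chsS, mem_filter] at hu2
          rw [hu2.2] at hu
          exact absurd hu.2.1 (by simp)
    · simp only [List.mem_cons, List.not_mem_nil, or_false] at hyz
      rw [hyz]
      exact ⟨h1, h2, h3, h4⟩

theorem lvT_light {x : Nd} (hx : x.1 ⊆ range n) :
    ∀ y ∈ lvT n m g ad x n, ∀ v, hvy m g ad y.1 v = false := by
  intro y hy v
  have h1 : y.1 ∈ (lvT n m g ad x n).map Prod.fst := List.mem_map_of_mem hy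
  rw [lvT_fst] at h1
  obtain ⟨z, hz, hzy⟩ := List.mem_map.1 h1
  rw [← hzy]
  exact lvw_light hx z hz v

theorem trk_cover (hc : Cmp m g ad adj) {S₀ I : Finset ℕ} (hS : S₀ ⊆ range n)
    (hI : I ∈ IS adj S₀) (t : ℕ) :
    (trk n m g ad I (S₀, ∅) t).2 ⊆ I ∧
      I ⊆ (trk n m g ad I (S₀, ∅) t).1 ∪ (trk n m g ad I (S₀, ∅) t).2 := by
  rw [mem_IS] at hI
  induction t with
  | zero =>
    simp only [trk]
    exact ⟨empty_subset _, by rw [union_empty]; exact hI.1⟩
  | succ t ih =>
    obtain ⟨h1, h2⟩ := ih
    have hsub : (trk n m g ad I (S₀, ∅) t).1 ⊆ range n :=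
      (lvT_sub _ t _ (trk_mem I (S₀, ∅) t)).trans hS
    simp only [trk]
    generalize trk n m g ad I (S₀, ∅) t = z at h1 h2 hsub
    unfold stp
    split_ifs with h3 h4
    · obtain ⟨v, hv⟩ := exists_chs ((anyH_iff hsub).1 h3)
      have hvS := hvy_mem (chs_hvy hv)
      rw [chsS_eq hv] at h4 ⊢
      have hvI : v ∈ I := h4 (mem_singleton_self v)
      rw [inT_eq (mem_range.1 (hsub hvS)) hv]
      simp only
      refine ⟨union_subset h1 h4, ?_⟩
      intro u hu
      rw [mem_union, mem_union, mem_singleton, mem_filter, mem_erase]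
      by_cases huv : u = v
      · exact Or.inr (Or.inr huv)
      · rcases mem_union.1 (h2 hu) with h5 | h5
        · left
          refine ⟨⟨huv, h5⟩, ?_⟩
          rw [hc z.1 v hv u]
          exact hI.2 v hvI u hu
        · exact Or.inr (Or.inl h5)
    · obtain ⟨v, hv⟩ := exists_chs ((anyH_iff hsub).1 h3)
      rw [chsS_eq hv, singleton_subset_iff] at h4
      rw [outT_eq hv]
      simp only
      refine ⟨h1, ?_⟩
      intro u hu
      rw [mem_union, mem_erase]
      rcases mem_union.1 (h2 hu) with h5 | h5
      · left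
        exact ⟨fun e => h4 (e ▸ hu), h5⟩
      · exact Or.inr h5
    · exact ⟨h1, h2⟩

theorem trk_congr {I J : Finset ℕ} {x : Nd} (h : ∀ v ∈ x.1, (v ∈ I ↔ v ∈ J)) (t : ℕ) :
    trk n m g ad I x t = trk n m g ad J x t := by
  induction t with
  | zero => rfl
  | succ t ih =>
    simp only [trk]
    rw [← ih]
    apply stp_congr
    intro v hv
    exact h v (lvT_sub x t _ (trk_mem I x t) hv)

theorem sum_flatMap_nat {α : Type*} (F G : α → ℕ) (k : α → List α) (l : List α)
    (h : ∀ x ∈ l, G x = ((k x).map F).sum) : (l.map G).sum = ((l.flatMap k).map F).sum := by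
  induction l with
  | nil => rfl
  | cons x l ih =>
    rw [List.flatMap_cons, List.map_append, List.sum_append, ← h x (List.mem_cons_self ..),
      ← ih fun y hy => h y (List.mem_cons_of_mem _ hy), List.map_cons, List.sum_cons]

theorem trk_sum_one (hs : ∀ u v, adj u v = adj v u) (hl : ∀ u, adj u u = false)
    (hc : Cmp m g ad adj) {x : Nd} (hx : x.1 ⊆ range n) (h : Nd → Finset ℕ → ℕ) :
    ∑ I ∈ IS adj x.1, h (stp n m g ad I x) (I ∩ (stp n m g ad I x).1) =
      ((kidT n m g ad x).map (fun y => ∑ J ∈ IS adj y.1, h y J)).sum := by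
  by_cases hA : anyH n m g ad x.1 = true
  · obtain ⟨v, hv⟩ := exists_chs ((anyH_iff hx).1 hA)
    have hvS := hvy_mem (chs_hvy hv)
    have hin : inT n m g ad x.1 = (x.1.erase v).filter (fun u => adj v u = false) := by
      rw [inT_eq (mem_range.1 (hx hvS)) hv]
      refine filter_congr fun u _ => ?_
      rw [hc x.1 v hv u]
    have hk : kidT n m g ad x = [(x.1.erase v, x.2),
        ((x.1.erase v).filter (fun u => adj v u = false), x.2 ∪ {v})] := by
      unfold kidT
      rw [if_pos hA, outT_eq hv, hin, chsS_eq hv]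
    have hst : ∀ I, stp n m g ad I x = if v ∈ I then
        ((x.1.erase v).filter (fun u => adj v u = false), x.2 ∪ {v}) else (x.1.erase v, x.2) := by
      intro I
      unfold stp
      rw [if_pos hA, outT_eq hv, hin, chsS_eq hv]
      simp only [singleton_subset_iff]
    rw [hk]
    simp only [List.map_cons, List.map_nil, List.sum_cons, List.sum_nil, add_zero]
    rw [← sum_filter_add_sum_filter_not (IS adj x.1) (fun I => v ∉ I)]
    congr 1
    · refine sum_congr ?_ ?_
      · ext I
        rw [mem_filter, mem_IS, mem_IS]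
        constructor
        · rintro ⟨⟨h1, h2⟩, h3⟩
          exact ⟨fun y hy => mem_erase.2 ⟨fun e => h3 (e ▸ hy), h1 hy⟩, h2⟩
        · rintro ⟨h1, h2⟩
          exact ⟨⟨fun y hy => mem_of_mem_erase (h1 hy), h2⟩, fun h => by simpa using h1 h⟩
      · intro I hI
        rw [mem_IS] at hI
        have hvI : v ∉ I := fun h => by simpa using hI.1 h
        rw [hst, if_neg hvI]
        simp only
        rw [inter_eq_left.2 hI.1]
    · refine sum_bij' (fun I _ => I.erase v) (fun J _ => insert v J) ?_ ?_ ?_ ?_ ?_
      · intro I hI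
        rw [mem_filter, mem_IS, not_not] at hI
        obtain ⟨⟨h1, h2⟩, h3⟩ := hI
        rw [mem_IS]
        refine ⟨fun y hy => ?_, fun y hy z hz => h2 y (mem_of_mem_erase hy) z (mem_of_mem_erase hz)⟩
        rw [mem_filter, mem_erase]
        exact ⟨⟨(mem_erase.1 hy).1, h1 (mem_of_mem_erase hy)⟩, h2 v h3 y (mem_of_mem_erase hy)⟩
      · intro J hJ
        rw [mem_IS] at hJ
        rw [mem_filter, mem_IS, not_not]
        obtain ⟨h1, h2⟩ := hJ
        have h3 : ∀ y ∈ J, adj v y = false := fun y hy => (mem_filter.1 (h1 hy)).2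
        refine ⟨⟨?_, ?_⟩, mem_insert_self _ _⟩
        · intro y hy
          rcases mem_insert.1 hy with rfl | hy
          · exact hvS
          · exact mem_of_mem_erase (mem_filter.1 (h1 hy)).1
        · intro y hy z hz
          rcases mem_insert.1 hy with hyv | hy' <;> rcases mem_insert.1 hz with hzv | hz'
          · rw [hyv, hzv]; exact hl _
          · rw [hyv]; exact h3 z hz'
          · rw [hzv, hs]; exact h3 y hy'
          · exact h2 y hy' z hz'
      · intro I hI
        rw [mem_filter, not_not] at hI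
        exact insert_erase hI.2
      · intro J hJ
        rw [mem_IS] at hJ
        refine erase_insert fun h => ?_
        have := (mem_filter.1 (hJ.1 h)).1
        simp at this
      · intro I hI
        rw [mem_filter, mem_IS, not_not] at hI
        obtain ⟨⟨h1, h2⟩, h3⟩ := hI
        rw [hst, if_pos h3]
        simp only
        congr 1
        ext y
        rw [mem_inter, mem_filter, mem_erase, mem_erase]
        constructor
        · rintro ⟨h4, ⟨h5, _⟩, _⟩
          exact ⟨h5, h4⟩
        · rintro ⟨h4, h5⟩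
          exact ⟨h5, ⟨h4, h1 h5⟩, h2 v h3 y h5⟩
  · have hk : kidT n m g ad x = [x] := by
      unfold kidT
      rw [if_neg hA]
    have hst : ∀ I, stp n m g ad I x = x := by
      intro I
      unfold stp
      rw [if_neg hA]
    rw [hk]
    simp only [List.map_cons, List.map_nil, List.sum_cons, List.sum_nil, add_zero]
    refine sum_congr rfl fun I hI => ?_
    rw [mem_IS] at hI
    rw [hst, inter_eq_left.2 hI.1]

/-- The independent subsets of `x.1` are the pairs of a node `y` of level `t` and an independent
subset of `y.1`. -/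
theorem trk_sum (hs : ∀ u v, adj u v = adj v u) (hl : ∀ u, adj u u = false)
    (hc : Cmp m g ad adj) {x : Nd} (hx : x.1 ⊆ range n) (h : Nd → Finset ℕ → ℕ) (t : ℕ) :
    ∑ I ∈ IS adj x.1, h (trk n m g ad I x t) (I ∩ (trk n m g ad I x t).1) =
      ((lvT n m g ad x t).map (fun y => ∑ J ∈ IS adj y.1, h y J)).sum := by
  induction t generalizing h with
  | zero =>
    simp only [trk, lvT, List.map_cons, List.map_nil, List.sum_cons, List.sum_nil, add_zero]
    refine sum_congr rfl fun I hI => ?_
    rw [mem_IS] at hI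
    rw [inter_eq_left.2 hI.1]
  | succ t ih =>
    have h1 := ih (fun y J => h (stp n m g ad J y) (J ∩ (stp n m g ad J y).1))
    have h2 : ∀ I ∈ IS adj x.1, h (trk n m g ad I x (t + 1)) (I ∩ (trk n m g ad I x (t + 1)).1) =
        h (stp n m g ad (I ∩ (trk n m g ad I x t).1) (trk n m g ad I x t))
          (I ∩ (trk n m g ad I x t).1 ∩
            (stp n m g ad (I ∩ (trk n m g ad I x t).1) (trk n m g ad I x t)).1) := by
      intro I _
      simp only [trk]
      generalize trk n m g ad I x t = z
      have h3 : stp n m g ad (I ∩ z.1) z = stp n m g ad I z := by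
        apply stp_congr
        intro v hv
        rw [mem_inter]
        exact ⟨fun h => h.1, fun h => ⟨h, hv⟩⟩
      rw [h3, inter_assoc, inter_eq_right.2 (stp_sub I z)]
    rw [sum_congr rfl h2, h1]
    simp only [lvT]
    apply sum_flatMap_nat
    intro y hy
    exact trk_sum_one hs hl hc ((lvT_sub x t y hy).trans hx) h

end Pool.Agent.Lib.Pa7c826e
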